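import Pool.Agent.Lib.MP_9177b7_ag.U.St
import Pool.Agent.Lib.MP_9177b7_ag.B.DensP

/-!
Strong approximation at `p`.
-/

open NumberField Matrix Filter Topology
open scoped ComplexConjugate

noncomputable section

namespace Pool.Agent.Lib.MP_9177b7_ag.B.U

variable [Sg]

namespace DensP

variable {p : ℕ} [hp : Fact p.Prime]

omit [Sg] in
theorem cj_cj (c : Ctx p) (x : c.K) : c.cj (c.cj x) = x :=
  Subtype.ext (by rw [c.cj_coe, c.cj_coe, Complex.conj_conj])

omit [Sg] in
theorem mem_RK (c : Ctx p) (q : ℤ × ℕ) : (q.1 : c.K) / (p : c.K) ^ q.2 ∈ c.RK := by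
  have hp0 : (p : c.K) ≠ 0 := Nat.cast_ne_zero.2 hp.out.ne_zero
  refine ⟨q.2, ?_⟩
  rw [mul_div_cancel₀ _ (pow_ne_zero _ hp0)]
  simpa using isIntegral_algebraMap (R := ℤ) (A := c.K) (x := q.1)

end DensP

open B.DensP

theorem densP (hE : EichStmt) (hG : GenStmt) (hD : DiscStmt) : DensPStmt := by
  intro n p _ c h
  obtain ⟨-, -, -, h4, -⟩ := hD n p c
  set A : Subgroup (HP n p) := (c.Gp n).map (MonoidHom.fst (HP n p) (SU n)) with hA
  set S : Submonoid (Matrix (Fin (n + 3)) (Fin (n + 3)) ℚ_[p]) :=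
    (A.toSubmonoid.map (SpecialLinearGroup.coeMonoidHom)).topologicalClosure with hS
  have hd : c.j c.δ ≠ 0 := (map_ne_zero c.j).2 (by exact_mod_cast c.δ_ne)
  have key : ∀ a b k : Fin (n + 3), Pos a b k → ∀ u : ℚ_[p] × ℚ_[p],
      Ei a b k (2 * (u.1 + u.2 * c.j c.δ)) (sg ℚ_[p] k * (2 * (u.1 - u.2 * c.j c.δ)))
        (sg ℚ_[p] k * (-2 * (u.1 + u.2 * c.j c.δ) * (u.1 - u.2 * c.j c.δ))) ∈ S := by
    intro a b k hk u
    refine (dense_zp.prodMap dense_zp).induction_on u ?_ ?_
    · exact (Submonoid.isClosed_topologicalClosure _).preimage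
        (Ei_cont a b k (by fun_prop) (by fun_prop) (by fun_prop))
    · rintro ⟨q, q'⟩
      set x : c.K := (q.1 : c.K) / (p : c.K) ^ q.2 with hx
      set y : c.K := (q'.1 : c.K) / (p : c.K) ^ q'.2 with hy
      have cx : c.cj x = x := by simp [hx]
      have cy : c.cj y = y := by simp [hy]
      have hδ : (c.δ : c.K) ∈ c.RK := ⟨0, by simpa using c.δ.isIntegral_coe⟩
      have m1 : x + y * c.δ ∈ c.RK := c.RK.add_mem (DensP.mem_RK c q) (c.RK.mul_mem (DensP.mem_RK c q') hδ)
      have m2 : x - y * c.δ ∈ c.RK := c.RK.sub_mem (DensP.mem_RK c q) (c.RK.mul_mem (DensP.mem_RK c q') hδ)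
      have two : (2 : c.K) ∈ c.RK := by simpa using natCast_mem c.RK 2
      have e1 : c.cj (2 * (x + y * c.δ)) = 2 * (x - y * c.δ) := by
        rw [map_mul, map_add, map_mul, cx, cy, c.δ_cj, map_ofNat]; ring
      have e2 : c.cj (-2 * (x + y * c.δ) * (x - y * c.δ)) = -2 * (x + y * c.δ) * (x - y * c.δ) := by
        rw [map_mul, map_mul, map_add, map_sub, map_mul, cx, cy, c.δ_cj, map_neg, map_ofNat]; ring
      obtain ⟨d1, d2, -⟩ := hE n c.K c.cj.toRingHom a b k (2 * (x + y * c.δ))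
        (sg c.K k * (-2 * (x + y * c.δ) * (x - y * c.δ))) hk
      have d3 := d2 (DensP.cj_cj c _) (by
        change _ + c.cj _ + _ * (_ * c.cj _) = 0
        rw [e1, map_mul _ (sg c.K k), map_intCast, e2]; ring)
      have e3 : c.cj.toRingHom (2 * (x + y * c.δ)) = 2 * (x - y * c.δ) := e1
      rw [e3] at d3
      obtain ⟨g, hg, g1, -⟩ := h4 (Ei a b k (2 * (x + y * c.δ))
        (sg c.K k * (2 * (x - y * c.δ))) (sg c.K k * (-2 * (x + y * c.δ) * (x - y * c.δ))))
        (Ei_mem _ a b k (c.RK.mul_mem two m1)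
          (c.RK.mul_mem (intCast_mem _ _) (c.RK.mul_mem two m2)) (c.RK.mul_mem (intCast_mem _ _)
            (c.RK.mul_mem (c.RK.mul_mem (c.RK.neg_mem two) m1) m2))) d3 (d1 _)
      refine Submonoid.le_topologicalClosure _ ⟨g.1, ⟨g, hg, rfl⟩, ?_⟩
      change g.1.1 = _
      rw [g1, Ei_map]
      simp [hx, hy, map_ofNat]
  have hT := (hE n ℚ_[p] (RingHom.id _) 0 1 ⟨2, by omega⟩ 0 0 ⟨Or.inl ⟨rfl, rfl⟩, by
    intro e; exact absurd (congrArg Fin.val e) (by simp), by
    intro e; exact absurd (congrArg Fin.val e) (by simp)⟩).2.2 S fun a b k s hk => by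
      have e : ∀ s, s / 4 / c.j c.δ * c.j c.δ = s / 4 := fun s => div_mul_cancel₀ _ hd
      have sk : sg ℚ_[p] k * sg ℚ_[p] k = 1 := sg_sq k
      constructor
      · have := key a b k hk (s / 4, s / 4 / c.j c.δ)
        dsimp only at this
        rwa [e, sub_self, mul_zero, mul_zero, mul_zero, mul_zero,
          show 2 * (s / 4 + s / 4) = s by ring] at this
      · have := key a b k hk (sg ℚ_[p] k * s / 4, -(sg ℚ_[p] k * s / 4 / c.j c.δ))
        dsimp only at this
        rwa [neg_mul, e, add_neg_cancel, mul_zero, mul_zero, zero_mul, mul_zero,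
          show sg ℚ_[p] k * (2 * (sg ℚ_[p] k * s / 4 - -(sg ℚ_[p] k * s / 4))) = s by
            linear_combination s * sk] at this
  have hTop : A.topologicalClosure = ⊤ := hG _ _ _ fun a b hab s => by
    have := hT a b s hab
    change _ ∈ closure (A : Set (HP n p))
    have hi : IsInducing fun g : HP n p => g.1 := IsInducing.subtypeVal
    rw [hi.closure_eq_preimage_closure_image]
    exact this
  have hO : IsOpen {g : HP n p | Intg (h * g)} := by
    simp only [Intg, Set.ofPred_forall]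
    refine isOpen_iInter_of_finite fun i => isOpen_iInter_of_finite fun j => ?_
    have hv : Continuous fun g : HP n p => g.1 := continuous_subtype_val
    have hc : Continuous fun g : HP n p => (h * g) i j :=
      (hv.comp (continuous_mul_left h)).matrix_elem i j
    simpa [Set.preimage] using
      (IsUltrametricDist.isOpen_closedBall (0 : ℚ_[p]) one_ne_zero).preimage hc
  have hmem : h⁻¹ ∈ closure (A : Set (HP n p)) := by
    have : h⁻¹ ∈ A.topologicalClosure := hTop ▸ Subgroup.mem_top _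
    exact this
  obtain ⟨g, hg1, γ, hγ, rfl⟩ := mem_closure_iff.1 hmem _ hO (by
    change Intg (h * h⁻¹)
    rw [mul_inv_cancel]
    intro i j
    change ‖(1 : Matrix _ _ ℚ_[p]) i j‖ ≤ 1
    rw [Matrix.one_apply]
    split_ifs <;> simp)
  exact ⟨γ, hγ, hg1⟩

end Pool.Agent.Lib.MP_9177b7_ag.B.U
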