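import Pool.Agent.Lib.MP_9177b7_ag.U.St

/-!
Density of the `p`-arithmetic group at the real place.
-/

open Matrix
open scoped ComplexConjugate

namespace Pool.Agent.Lib.MP_9177b7_ag.B.U

variable [Sg]

namespace DensR

variable {n p : ℕ} [Fact p.Prime] (c : Ctx p) {a b k : Fin (n + 3)}

omit [Sg] in
lemma dense : Dense {x : ℝ | ∃ r ∈ c.RK, (r : ℂ) = x} := by
  have hp : (1 : ℝ) < p := by exact_mod_cast (Fact.out : p.Prime).one_lt
  refine AddSubgroup.dense_of_not_isolated_zero ((c.RK.toAddSubgroup.map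
    (algebraMap c.K ℂ).toAddMonoidHom).comap Complex.ofRealHom.toAddMonoidHom) fun ε h => ?_
  obtain ⟨m, hm⟩ := exists_pow_lt_of_lt_one h (inv_lt_one_of_one_lt₀ hp)
  refine ⟨_, ⟨(p : c.K)⁻¹ ^ m, ⟨m, ?_⟩, by simp⟩, by positivity, hm⟩
  rw [← mul_pow, mul_inv_cancel₀ (Nat.cast_ne_zero.2 (Fact.out : p.Prime).ne_zero), one_pow]
  exact isIntegral_one

lemma mem (hE : EichStmt) (hD : DiscStmt) (h : Pos a b k) {w z : c.K} (hw : w ∈ c.RK)
    (hz : z ∈ c.RK) (e : (z : ℂ) + conj (z : ℂ) + sg ℂ k * (w * conj (w : ℂ)) = 0) {g : SU n}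
    (hg : g.1.1 = Ei a b k (w : ℂ) (sg ℂ k * conj (w : ℂ)) z) :
    g ∈ (c.Gp n).map (MonoidHom.snd _ _) := by
  obtain ⟨-, d1, -, d2, -⟩ := hD n p c
  obtain ⟨e1, e2, -⟩ := hE n c.K c.cj.toRingHom a b k w z h
  have s : ∀ x ∈ c.RK, ∀ a b i j : Fin (n + 3), single a b x i j ∈ c.RK := fun x hx a b i j => by
    rw [single_apply]
    split_ifs
    exacts [hx, zero_mem _]
  obtain ⟨γ, h1, -, h2⟩ := d2 (Ei a b k w (sg c.K k * c.cj w) z) (fun i j => add_mem (sub_mem (add_mem (by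
      rw [one_apply]
      split_ifs
      exacts [one_mem _, zero_mem _]) (s _ hw _ _ i j))
      (s _ (mul_mem (intCast_mem _ _) (d1 _ hw)) _ _ i j)) (s _ hz _ _ i j))
    (e2 (Subtype.ext (by simp [c.cj_coe])) (Subtype.ext (by simpa [c.cj_coe] using e))) (e1 _)
  refine ⟨γ, h1, Subtype.ext (Subtype.ext (h2.trans (hg ▸ ?_)))⟩
  ext i j
  simp [Ei, single_apply, one_apply, apply_ite (Subtype.val : c.K → ℂ), c.cj_coe]

end DensR

open DensR in
theorem densR : EichStmt → DiscStmt → GenUStmt → DensRStmt := by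
  intro hE hD hG n p _ c
  obtain ⟨d, hd⟩ : ∃ d : ℂ, ((c.δ : c.K) : ℂ) = d := ⟨_, rfl⟩
  have d1 : conj d = -d := by rw [← hd, ← c.cj_coe, c.δ_cj]; simp
  have d2 : d.re = 0 := by
    have := congrArg Complex.re d1
    simp at this
    linarith
  have d3 : d.im ≠ 0 := fun e => c.δ_ne (Subtype.ext (Subtype.ext
    (hd.trans (Complex.ext d2 e))))
  have d4 : (c.δ : c.K) ∈ c.RK := ⟨0, by simpa using c.δ.isIntegral_coe⟩
  have top := hG n ((c.Gp n).map (MonoidHom.snd _ _)).topologicalClosure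
    fun a b k w z g h e hg => by
      let W : ℝ × ℝ × ℝ → ℂ := fun u => 2 * (u.1 + u.2.1 * d)
      let Z : ℝ × ℝ × ℝ → ℂ := fun u =>
        sg ℂ k * (-2 * (u.1 + u.2.1 * d) * (u.1 - u.2.1 * d)) + u.2.2 * d
      have e1 : ∀ u, Z u + conj (Z u) + sg ℂ k * (W u * conj (W u)) = 0 := fun u => by
        simp only [W, Z, map_add, map_mul, map_sub, map_neg, map_ofNat, Complex.conj_ofReal, d1,
          map_intCast]
        ring
      choose F hF using fun u => show ∃ g : SU n,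
          g.1.1 = Ei a b k (W u) (sg ℂ k * conj (W u)) (Z u) from
        have := hE n ℂ (starRingEnd ℂ) a b k (W u) (Z u) h
        ⟨⟨⟨_, this.1 _⟩, this.2.1 (Complex.conj_conj _) (e1 u)⟩, rfl⟩
      have cF : Continuous F := continuous_induced_rng.2 (continuous_induced_rng.2 (by
        refine (continuous_matrix fun i j => ?_).congr fun u => (hF u).symm
        simp only [Ei, Matrix.add_apply, Matrix.sub_apply, single_apply, W, Z]
        split_ifs <;> fun_prop))
      have eW : W (w.re / 2, w.im / 2 / d.im, z.im / d.im) = w :=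
        Complex.ext (by simp [W, d2]; ring) (by simp [W]; field_simp)
      have eZ : Z (w.re / 2, w.im / 2 / d.im, z.im / d.im) = z := Complex.ext (by
        have := e1 (w.re / 2, w.im / 2 / d.im, z.im / d.im)
        rw [eW, ← e, add_left_inj, Complex.add_conj, Complex.add_conj] at this
        simpa using this) (by simp [Z, d2]; field_simp; ring)
      rw [show g = F (w.re / 2, w.im / 2 / d.im, z.im / d.im) from
        Subtype.ext (Subtype.ext (by rw [hF, eW, eZ, hg]))]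
      refine ((dense c).prod ((dense c).prod (dense c))).induction (P := fun u => F u ∈ _) ?_
        (isClosed_closure.preimage cF) _
      rintro u ⟨⟨x, x1, x2⟩, ⟨y, y1, y2⟩, t, t1, t2⟩
      have two : (2 : c.K) ∈ c.RK := ofNat_mem _ 2
      have q0 : ((2 : c.K) : ℂ) = 2 := rfl
      have q1 : ((2 * (x + y * c.δ) : c.K) : ℂ) = W u := by simp [W, x2, y2, hd, q0]
      have q2 : ((sg c.K k * (-2 * (x + y * c.δ) * (x - y * c.δ)) + t * c.δ : c.K) : ℂ) = Z u := by
        simp [Z, x2, y2, t2, hd, q0]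
      exact subset_closure (mem c hE hD h (mul_mem two (add_mem x1 (mul_mem y1 d4)))
        (add_mem (mul_mem (intCast_mem _ _) (mul_mem (mul_mem (neg_mem two)
          (add_mem x1 (mul_mem y1 d4))) (sub_mem x1 (mul_mem y1 d4)))) (mul_mem t1 d4))
        (by rw [q1, q2, e1]) (by rw [q1, q2, hF]))
  have hd : Dense (((c.Gp n).map (MonoidHom.snd _ _) : Subgroup (SU n)) : Set (SU n)) :=
    fun x => top.ge (Subgroup.mem_top x)
  refine (dense_univ.prod hd).mono ?_
  rintro ⟨h, _⟩ ⟨-, γ, hγ, rfl⟩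
  exact ⟨h * γ.1⁻¹, γ, hγ, Prod.ext (by simp) (by simp)⟩

end Pool.Agent.Lib.MP_9177b7_ag.B.U
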