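import Pool.Agent.Lib.MP_9177b7_ag.U.St
import Pool.Agent.Lib.MP_9177b7_ag.B.Eich

/-!
The elementary unipotent matrices of the unitary group.
-/

open Matrix

noncomputable section

namespace Pool.Agent.Lib.MP_9177b7_ag.B.U

variable [Sg]

namespace Eich

open B.Eich

variable {n : ℕ} {R : Type} [CommRing R]

theorem J_mul_single (i j : Fin (n + 3)) (x : R) :
    Jm n R * single i j x =
      single (Equiv.swap 0 1 i) j (sg R (Equiv.swap 0 1 i) * x) := by
  ext r s
  simp only [Jm_apply, mul_apply, ite_mul, zero_mul, Finset.sum_ite_eq',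
    Finset.mem_univ, if_true, single_apply]
  by_cases e : Equiv.swap 0 1 i = r
  · subst e
    simp
  · have e' : ¬ i = Equiv.swap 0 1 r := fun h => e (by rw [h, Equiv.swap_apply_self])
    simp [e, e']

theorem single_mul_J (i j : Fin (n + 3)) (x : R) :
    single i j x * Jm n R = single i (Equiv.swap 0 1 j) (x * sg R j) := by
  ext r s
  have e : ∀ t : Fin (n + 3), s = Equiv.swap 0 1 t ↔ t = Equiv.swap 0 1 s := fun t => by
    rw [eq_comm, Equiv.swap_apply_eq_iff]
  simp only [Jm_apply, mul_apply, e, mul_ite, mul_zero, Finset.sum_ite_eq',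
    Finset.mem_univ, if_true, single_apply]
  by_cases e : Equiv.swap 0 1 j = s
  · subst e
    simp
  · have e' : ¬ j = Equiv.swap 0 1 s := fun h => e (by rw [h, Equiv.swap_apply_self])
    simp [e, e']

theorem pos_s {a b k : Fin (n + 3)} (h : Pos a b k) :
    sg R a = 1 ∧ sg R b = 1 := by
  obtain ⟨h | h, -⟩ := h <;> obtain ⟨rfl, rfl⟩ := h
  exacts [⟨sg_zero, sg_one⟩, ⟨sg_one, sg_zero⟩]

theorem uni (σ : R →+* R) {a b k : Fin (n + 3)} (h : Pos a b k) (w z : R) (hw : σ (σ w) = w)
    (hz : z + σ z + sg R k * (w * σ w) = 0) :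
    ((Ei a b k w (sg R k * σ w) z).map σ)ᵀ * Jm n R * Ei a b k w (sg R k * σ w) z = Jm n R := by
  obtain ⟨hab, hka, hkb, sa, sb, sk⟩ := pos_facts h
  obtain ⟨ta, tb⟩ := pos_s (R := R) h
  have e : ((Ei a b k w (sg R k * σ w) z).map σ)ᵀ =
      1 + single b k (σ w) - single k a (sg R k * w) + single b a (σ z) := by
    rw [Ei, Matrix.map_add _ (map_add σ), Matrix.map_sub _ (map_sub σ),
      Matrix.map_add _ (map_add σ), Matrix.map_one _ (map_zero σ) (map_one σ), transpose_add,
      transpose_sub, transpose_add, transpose_one, map_single', map_single', map_single', map_mul,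
      map_sg, hw]
  have e2 : (single b b z + single b b (σ z) + single b b (σ w * sg R k * w) :
      Matrix (Fin (n + 3)) (Fin (n + 3)) R) = 0 := by
    rw [← single_add, ← single_add, ← single_zero b b, ← hz]
    congr 1
    ring
  rw [e]
  simp only [Ei, mul_add, add_mul, mul_sub, sub_mul, one_mul, mul_one, J_mul_single,
    single_mul_J, sa, sk, ta, tb, single_mul_single_same, single_mul_single_of_ne _ _ _ _ hab.symm,
    single_mul_single_of_ne _ _ _ _ hka, single_mul_single_of_ne _ _ _ _ hkb.symm]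
  conv_rhs => rw [← add_zero (Jm n R), ← e2]
  rw [mul_comm (σ w) (sg R k)]
  abel

end Eich

theorem eich : EichStmt := by
  intro n R _ σ a b k w z h
  obtain ⟨h1, -, h2⟩ := B.eich n R σ a b k w z h
  exact ⟨h1, Eich.uni σ h w z, h2⟩

end Pool.Agent.Lib.MP_9177b7_ag.B.U
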