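import Pool.Agent.Lib.MP_9177b7_ag.U.St
import Pool.Agent.Lib.MP_9177b7_ag.B.Fin

/-!
From unbundled to bundled data.
-/

open NumberField Filter Topology
open scoped ComplexConjugate nonZeroDivisors

noncomputable section

namespace Pool.Agent.Lib.MP_9177b7_ag.B.U

namespace FinU

theorem exists_equiv {α β : Type} [Fintype α] [Fintype β] (P : α → Prop) (Q : β → Prop)
    (h : Fintype.card α = Fintype.card β) (h' : Nat.card {x // P x} = Nat.card {y // Q y}) :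
    ∃ e : α ≃ β, ∀ x, Q (e x) ↔ P x := by
  classical
  rw [Nat.card_eq_fintype_card, Nat.card_eq_fintype_card] at h'
  have h2 : Fintype.card {x // ¬ P x} = Fintype.card {y // ¬ Q y} := by
    rw [Fintype.card_subtype_compl, Fintype.card_subtype_compl, h, h']
  let e := Fintype.equivOfCardEq h'
  let f := Fintype.equivOfCardEq h2
  refine ⟨(Equiv.sumCompl P).symm.trans ((e.sumCongr f).trans (Equiv.sumCompl Q)), fun x => ?_⟩
  by_cases hx : P x
  · rw [Equiv.trans_apply, Equiv.sumCompl_symm_apply_of_pos hx]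
    exact iff_of_true (e ⟨x, hx⟩).2 hx
  · rw [Equiv.trans_apply, Equiv.sumCompl_symm_apply_of_neg hx]
    exact iff_of_false (f ⟨x, hx⟩).2 hx

variable [Sg]

theorem exists_dat (hT : TypStmt) (hS : SameStmt) {n p : ℕ} [Fact p.Prime] (c : Ctx p)
    (hc : (nb n).Coprime (n + 3)) (L : Type) [Field L] [NumberField L] [IsCMField L]
    [Algebra c.K L] (lam : L) (a : FractionalIdeal (𝓞 L)⁰ L) (sp : Special n c.K p lam a) :
    ∃ D : Dat n c, discr D.L = discr L ∧ D.orb = orbit n c.K lam a := by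
  classical
  obtain ⟨ψ, hψ, hψ'⟩ := FinA.exists_over (Nat.succ_pos _) c.dim sp.dim sp.split c.j
  obtain ⟨Φ, hΦ⟩ := exists_equiv (α := Fin (n + 3)) Ng (fun φ : L →ₐ[c.K] ℂ => (φ lam).re < 0)
    (by rw [Fintype.card_fin, AlgHom.card, sp.dim])
    (by rw [sp.sign, nb, Nat.card_eq_fintype_card, Fintype.card_subtype])
  obtain ⟨H, h1, h2, h3, h4⟩ := hT (n + 3) c.K L lam sp.dim sp.gal (by omega) (sp.sign ▸ hc)
  let D₀ : Dat n c := ⟨L, lam, a, sp, ψ, hψ, hψ', Φ, hΦ, ⊤,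
    by
      rw [Subgroup.index_top]
      exact Nat.mul_pos (classNumber_pos _) (Nat.factorial_pos _),
    fun _ _ => Subgroup.mem_top _, fun _ _ _ _ _ _ => Subgroup.mem_top _⟩
  let A : Subgroup (ClassGroup (𝓞 L)) := D₀.Amb
  let D : Dat n c := ⟨L, lam, a, sp, ψ, hψ, hψ', Φ, hΦ, H ⊔ A,
    (Nat.le_of_dvd (Nat.pos_of_ne_zero H.index_ne_zero_of_finite)
      (Subgroup.index_dvd_of_le le_sup_left)).trans h3,
    fun g hg => Subgroup.mem_sup_right ⟨g, rfl, hg⟩,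
    fun i l P P' e e' => Subgroup.mem_sup_left (h4 p c.j ψ hψ hψ' i l P P' e e')⟩
  refine ⟨D, rfl, Set.ext fun x => ⟨?_, ?_⟩⟩
  · rintro ⟨b, e, v, hb, he, hv, rfl⟩
    obtain ⟨y, hy, z, hz, hyz⟩ := Subgroup.mem_sup.1 hb
    obtain ⟨B, b₀, hB, hb₀, rfl⟩ := (h1 y).1 hy
    obtain ⟨e', he', hm⟩ := hS n p c D₀ b b₀ e (by
      have : (ClassGroup.mk0 b)⁻¹ * ClassGroup.mk0 b₀ = z⁻¹ := by
        rw [← hyz, mul_inv_rev, inv_mul_cancel_right]
      exact this ▸ inv_mem hz) he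
    exact ⟨B, b₀.1, e', v, hB, hb₀, he', hv.trans hm.symm, rfl⟩
  · rintro ⟨B, b, e, v, hB, hb, he, hv, rfl⟩
    let b' : (Ideal (𝓞 L))⁰ := ⟨b, mem_nonZeroDivisors_of_ne_zero (h2 B b hB hb)⟩
    exact ⟨b', e, v, Subgroup.mem_sup_left ((h1 _).2 ⟨B, b', hB, hb, rfl⟩), he, hv, rfl⟩

end FinU

variable [Sg]

theorem fin (hT : TypStmt) (hS : SameStmt) (hM : MainStmt) : FinalStmt := by
  intro n p _ K _ hc hK hz L _ _ _ _ lam a sp hlim
  obtain ⟨cj, δ, h1, h2, h3⟩ := FinA.exists_cj K hK hz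
  obtain ⟨ψ₀⟩ : Nonempty (L 0 →+* ℚ_[p]) := (Nat.card_ne_zero.1 (by rw [(sp 0).split]; omega)).1
  let c : Ctx p := ⟨K, hK, cj, h1, δ, h2, h3, ψ₀.comp (algebraMap K (L 0))⟩
  choose D hD hD' using fun m => FinU.exists_dat hT hS c hc (L m) (lam m) (a m) (sp m)
  have := hM n p c D (by
    refine (tendsto_natCast_atTop_atTop.comp hlim).congr fun m => ?_
    simp [Nat.cast_natAbs, hD])
  simp only [hD'] at this
  exact this

end Pool.Agent.Lib.MP_9177b7_ag.B.U
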