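import Pool.Agent.Lib.MP_9177b7_ag.U.Frame1

/-!
Frames of hermitian lattices: coordinates, duality, signs.
-/

open NumberField Matrix
open scoped nonZeroDivisors ComplexConjugate

noncomputable section

namespace Pool.Agent.Lib.MP_9177b7_ag.B.U.Frame

variable [Sg]

theorem Jm_symm {n : ℕ} {R : Type} [CommRing R] (i k : Fin (n + 3)) : Jm n R i k = Jm n R k i :=
  congrFun (congrFun (Jm_transpose (n := n) (R := R)) k) i

variable {n p : ℕ} [Fact p.Prime] {c : Ctx p} {D : Dat n c}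

/-- The Gram matrix is the standard one. -/
def Gr (D : Dat n c) (e : Fin (n + 3) → D.L) : Prop :=
  ∀ i j, Algebra.trace c.K D.L (D.lam * e i * D.bar (e j)) = Jm n c.K i j

theorem tr_lin (d : c.K) (x : D.L) :
    Algebra.trace c.K D.L (algebraMap c.K D.L d * x) = d * Algebra.trace c.K D.L x := by
  rw [← Algebra.smul_def, map_smul, smul_eq_mul]

theorem Gr.dual {e : Fin (n + 3) → D.L} (h : Gr D e) (i k : Fin (n + 3)) :
    Algebra.trace c.K D.L (e k * D.du e i) = if i = k then 1 else 0 := by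
  have e1 : e k * D.du e i = algebraMap c.K D.L (sg c.K i) *
      (D.lam * e k * D.bar (e (Equiv.swap 0 1 i))) := by
    rw [Dat.du, map_sg]
    ring
  rw [e1, tr_lin, h]
  simp only [Jm_apply, Equiv.apply_eq_iff_eq]
  split_ifs with h1
  · rw [h1, sg_sq]
  · rw [mul_zero]

theorem Gr.coord {e : Fin (n + 3) → D.L} (h : Gr D e) (d : Fin (n + 3) → c.K) (i : Fin (n + 3)) :
    Algebra.trace c.K D.L ((∑ k, algebraMap c.K D.L (d k) * e k) * D.du e i) = d i := by
  simp only [Finset.sum_mul, map_sum, mul_assoc, tr_lin, h.dual]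
  simp

theorem Gr.expand {e : Fin (n + 3) → D.L} (h : Gr D e) (x : D.L) :
    x = ∑ i, algebraMap c.K D.L (Algebra.trace c.K D.L (x * D.du e i)) * e i := by
  have li : LinearIndependent c.K e := by
    refine Fintype.linearIndependent_iff.2 fun d hd i => ?_
    simp only [Algebra.smul_def] at hd
    rw [← h.coord d i, hd, zero_mul, map_zero]
  have sp := li.span_eq_top_of_card_eq_finrank (by rw [Fintype.card_fin, D.sp.dim])
  obtain ⟨d, rfl⟩ := (Submodule.mem_span_range_iff_exists_fun c.K).1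
    (sp ▸ Submodule.mem_top : x ∈ Submodule.span c.K (Set.range e))
  simp only [Algebra.smul_def, h.coord]

theorem comb_mem {a : D.FI} {e : Fin (n + 3) → D.L} (he : ∀ i, e i ∈ a)
    {d : Fin (n + 3) → c.K} (hd : ∀ i, IsIntegral ℤ (d i)) :
    ∑ i, algebraMap c.K D.L (d i) * e i ∈ a := by
  rw [← FractionalIdeal.mem_coe]
  refine Submodule.sum_mem _ fun i _ => ?_
  exact Submodule.smul_mem (a : Submodule (𝓞 D.L) D.L)
    (⟨algebraMap c.K D.L (d i), (hd i).map (algebraMap c.K D.L).toIntAlgHom⟩ : 𝓞 D.L) (he i)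

theorem fr_mem {a : D.FI} {e : Fin (n + 3) → D.L} (h : D.Fr a e) (i : Fin (n + 3)) : e i ∈ a := by
  refine (h.2 _).2 ⟨Pi.single i 1, ?_⟩
  rw [Finset.sum_eq_single i (fun j _ hj => by simp [Pi.single_eq_of_ne hj]) (by simp)]
  simp

theorem fr_ne {a : D.FI} {e : Fin (n + 3) → D.L} (h : D.Fr a e) : a ≠ 0 := by
  rintro rfl
  have h1 := Gr.dual h.1 0 0
  rw [(FractionalIdeal.mem_zero_iff _).1 (fr_mem h 0)] at h1
  simp at h1

theorem fr_int {a : D.FI} {e : Fin (n + 3) → D.L} (h : D.Fr a e) {x : D.L} (hx : x ∈ a)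
    (i : Fin (n + 3)) : IsIntegral ℤ (Algebra.trace c.K D.L (x * D.du e i)) := by
  obtain ⟨d, rfl⟩ := (h.2 x).1 hx
  rw [Gr.coord h.1]
  exact (d i).isIntegral_coe

theorem fr_unit {a : D.FI} {e : Fin (n + 3) → D.L} (h : D.Fr a e) (u : D.L)
    (hu : u * D.bar u = 1) : D.Fr (FractionalIdeal.spanSingleton _ u * a) fun i => u * e i := by
  refine ⟨fun i j => ?_, fun x => ?_⟩
  · rw [← h.1 i j]
    refine congrArg _ ?_
    rw [map_mul]
    linear_combination (D.lam * e i * D.bar (e j)) * hu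
  · have e1 : ∀ d : Fin (n + 3) → 𝓞 c.K, ∑ i, algebraMap c.K D.L (d i) * (u * e i) =
        u * ∑ i, algebraMap c.K D.L (d i) * e i := fun d => by
      rw [Finset.mul_sum]
      exact Finset.sum_congr rfl fun i _ => by ring
    simp only [FractionalIdeal.mem_singleton_mul, h.2, e1]
    exact ⟨fun ⟨_, ⟨d, e2⟩, e3⟩ => ⟨d, e2 ▸ e3⟩, fun ⟨d, e2⟩ => ⟨_, ⟨d, rfl⟩, e2⟩⟩

theorem tr_bar (e : Fin (n + 3) → D.L) (d : Fin (n + 3) → c.K) (x : D.L) :
    Algebra.trace c.K D.L (D.lam * x * D.bar (∑ j, algebraMap c.K D.L (d j) * e j)) =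
      ∑ j, c.cj (d j) * (sg c.K j * Algebra.trace c.K D.L (x * D.du e (Equiv.swap 0 1 j))) := by
  have h1 := fr1 D
  simp only [Dat.bar] at h1 ⊢
  simp only [map_sum, map_mul, h1, Finset.mul_sum, ← tr_lin, Dat.du, Dat.bar,
    Equiv.swap_apply_self, sg_swap, map_sg]
  refine Finset.sum_congr rfl fun j _ => congrArg _ ?_
  linear_combination (-(algebraMap c.K D.L (c.cj (d j)) * x * D.lam *
    IsCMField.complexConj D.L (e j))) * sg_sq (R := D.L) j

theorem Gr.change {e : Fin (n + 3) → D.L} (h : Gr D e)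
    (γ : Matrix (Fin (n + 3)) (Fin (n + 3)) c.K) (k l : Fin (n + 3)) :
    Algebra.trace c.K D.L (D.lam * (∑ i, algebraMap c.K D.L (γ i k) * e i) *
      D.bar (∑ i, algebraMap c.K D.L (γ i l) * e i)) = ((γ.map c.cj)ᵀ * Jm n c.K * γ) l k := by
  rw [tr_bar e fun i => γ i l, Matrix.mul_assoc, mul_apply]
  refine Finset.sum_congr rfl fun j _ => ?_
  rw [h.coord fun i => γ i k, J_mul, transpose_apply, map_apply]

theorem fr_le {a : D.FI} {e : Fin (n + 3) → D.L} (h : D.Fr a e) :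
    FractionalIdeal.spanSingleton _ D.lam * a * D.cF a ≤ D.Ad := by
  refine FractionalIdeal.mul_le.2 fun x hx y hy => (mem_Ad D _).2 fun z => ?_
  obtain ⟨x, hx', rfl⟩ := FractionalIdeal.mem_singleton_mul.1 hx
  obtain ⟨d, hd⟩ := (h.2 _).1 ((fr11 D a y).1 hy)
  have hz : (z : D.L) * x ∈ a := Submodule.smul_mem (a : Submodule (𝓞 D.L) D.L) z hx'
  rw [← IsCMField.complexConj_apply_apply D.L y,
    show ∀ w : D.L, D.lam * x * w * z = D.lam * (z * x) * w from fun w => by ring]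
  change IsIntegral ℤ (Algebra.trace c.K D.L (D.lam * (z * x) * D.bar (D.bar y)))
  rw [hd, tr_bar e fun j => d j]
  exact IsIntegral.sum _ fun j _ =>
    ((d j).isIntegral_coe.map c.cj.toRingHom.toIntAlgHom).mul
      ((isIntegral_algebraMap (R := ℤ)).mul (fr_int h hz _))

theorem du_mem {a : D.FI} {e : Fin (n + 3) → D.L} (he : ∀ i, e i ∈ a) (i : Fin (n + 3)) :
    D.du e i ∈ FractionalIdeal.spanSingleton _ D.lam * D.cF a := by
  have h : D.lam * D.bar (e (Equiv.swap 0 1 i)) ∈ FractionalIdeal.spanSingleton _ D.lam * D.cF a :=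
    FractionalIdeal.mem_singleton_mul.2 ⟨_, (fr11 D a _).2 (by
      rw [Dat.bar, Dat.bar, IsCMField.complexConj_apply_apply]; exact he _), rfl⟩
  rw [Dat.du, ← zsmul_eq_mul, ← FractionalIdeal.mem_coe]
  exact Submodule.smul_of_tower_mem _ _ h

theorem mem_of_le {a a' : D.FI} {e : Fin (n + 3) → D.L} (he : ∀ i, e i ∈ a)
    (hl : a' * (FractionalIdeal.spanSingleton _ D.lam * D.cF a) ≤ D.Ad) {x : D.L} (hx : x ∈ a')
    (i : Fin (n + 3)) : IsIntegral ℤ (Algebra.trace c.K D.L (x * D.du e i)) := by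
  simpa using (mem_Ad D _).1 (hl (FractionalIdeal.mul_mem_mul hx (du_mem he i))) 1

theorem crit (a : D.FI) (e : Fin (n + 3) → D.L) (h : Gr D e) (he : ∀ i, e i ∈ a)
    (hl : FractionalIdeal.spanSingleton _ D.lam * a * D.cF a ≤ D.Ad) : D.Fr a e := by
  refine ⟨h, fun x => ⟨fun hx => ?_, ?_⟩⟩
  · rw [mul_right_comm, mul_comm] at hl
    exact ⟨fun i => ⟨_, mem_of_le he hl hx i⟩, h.expand x⟩
  · rintro ⟨d, rfl⟩
    exact comb_mem he fun i => (d i).isIntegral_coe

theorem fr_eq {a : D.FI} {e : Fin (n + 3) → D.L} (h : D.Fr a e) :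
    FractionalIdeal.spanSingleton _ D.lam * a * D.cF a = D.Ad := by
  refine le_antisymm (fr_le h) ?_
  have n0 : FractionalIdeal.spanSingleton (𝓞 D.L)⁰ D.lam * D.cF a ≠ 0 :=
    mul_ne_zero (FractionalIdeal.spanSingleton_ne_zero_iff.2 (fr16 D))
      ((map_ne_zero_iff _ D.cF.injective).2 (fr_ne h))
  have e1 := inv_mul_cancel_right₀ n0 D.Ad
  have l1 : D.Ad * (FractionalIdeal.spanSingleton (𝓞 D.L)⁰ D.lam * D.cF a)⁻¹ ≤ a := by
    intro x hx
    change x ∈ a
    rw [Gr.expand h.1 x]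
    exact comb_mem (fr_mem h) (mem_of_le (fr_mem h) e1.le hx)
  rw [mul_right_comm, mul_comm, ← e1]
  exact mul_le_mul_left l1 _

theorem fr_gam {a : D.FI} {e : Fin (n + 3) → D.L} (h : D.Fr a e)
    (γ : Matrix (Fin (n + 3)) (Fin (n + 3)) c.K) (hγ : c.Uni γ) (hi : ∀ i k, IsIntegral ℤ (γ i k)) :
    D.Fr a fun k => ∑ i, algebraMap c.K D.L (γ i k) * e i :=
  crit a _ (fun k l => by rw [Gr.change h.1, hγ, Jm_symm])
    (fun k => comb_mem (fr_mem h) fun i => hi i k) (fr_le h)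

theorem Gr.uni {e e' : Fin (n + 3) → D.L} (h : Gr D e) (h' : Gr D e') :
    c.Uni (Matrix.of fun i k => Algebra.trace c.K D.L (e' k * D.du e i)) := by
  ext l k
  rw [← Gr.change h]
  simp only [of_apply, ← h.expand]
  rw [h', Jm_symm]

theorem Gr.psi {e : Fin (n + 3) → D.L} (h : Gr D e) : (D.Ψm (D.du e))ᵀ * D.Ψm e = 1 := by
  ext i k
  simp only [mul_apply, transpose_apply, Dat.Ψm, of_apply, ← map_mul, ← fr3]
  rw [mul_comm, h.dual, one_apply]
  split_ifs <;> simp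

theorem Gr.phi {e : Fin (n + 3) → D.L} (h : Gr D e) : (D.Φm (D.du e))ᵀ * D.Φm e = 1 := by
  ext i k
  simp only [mul_apply, transpose_apply, Dat.Φm, of_apply, ← map_mul, ← fr4]
  rw [mul_comm, h.dual, one_apply]
  split_ifs <;> simp

theorem lam_real (i : Fin (n + 3)) : D.Φ i D.lam = ((D.Φ i D.lam).re : ℝ) := by
  have := IsCMField.complexEmbedding_complexConj D.L (D.Φ i).toRingHom D.lam
  rw [D.sp.real] at this
  exact (Complex.conj_eq_iff_re.1 this.symm).symm

theorem signs (i : Fin (n + 3)) : (D.Φ i D.lam).im = 0 ∧ (¬ Ng i → 0 < (D.Φ i D.lam).re) := by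
  refine ⟨by rw [lam_real, Complex.ofReal_im], fun hi =>
    lt_of_le_of_ne (not_lt.1 fun h => hi ((D.Φ_neg i).1 h)) fun h => ?_⟩
  have h1 := lam_real (D := D) i
  rw [← h, Complex.ofReal_zero, map_eq_zero] at h1
  exact fr16 D h1

/-- The signs of the diagonal form. -/
def sd (n : ℕ) (i : Fin (n + 3)) : ℂ := if i = 1 then -1 else sg ℂ i

theorem sd_sq (i : Fin (n + 3)) : sd n i * sd n i = 1 := by
  unfold sd
  split_ifs
  · simp
  · exact sg_sq _

theorem norm_sd (i : Fin (n + 3)) : (‖D.Φ i D.lam‖ : ℂ) * sd n i = D.Φ i D.lam := by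
  have h := D.Φ_neg i
  have h0 := (signs (D := D) i).2
  rw [lam_real, Complex.norm_real, Real.norm_eq_abs, sd]
  split_ifs with hi
  · rw [abs_of_neg (h.2 (Or.inl hi))]
    push_cast
    ring
  · rcases sg_cases (R := ℂ) i with ⟨e, e'⟩ | ⟨e, e'⟩
    · rw [e', abs_of_pos (h0 fun hn => hn.elim hi fun h' => by simp [e] at h'), mul_one]
    · rw [e', abs_of_neg (h.2 (Or.inr e))]
      push_cast
      ring

/-- The form in the coordinates given by the embeddings. -/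
theorem Gr.form {e : Fin (n + 3) → D.L} (h : Gr D e) :
    (D.Φm e)ᴴ * diagonal (fun i => D.Φ i D.lam) * D.Φm e = Jm n ℂ := by
  ext k l
  have u := fr4 D (D.lam * e l * D.bar (e k))
  rw [h] at u
  have u2 : ((Jm n c.K l k : c.K) : ℂ) = Jm n ℂ k l := by
    rw [Jm_symm]
    exact congrFun (congrFun (Jm_map (algebraMap c.K ℂ)) k) l
  rw [← u2, u, mul_apply]
  refine Finset.sum_congr rfl fun i _ => ?_
  rw [mul_diagonal, map_mul, map_mul, emb_bar]
  change conj (D.Φ i (e k)) * _ * D.Φ i (e l) = _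
  ring

theorem maj_eq (e : Fin (n + 3) → D.L) :
    (D.Φm e)ᴴ * diagonal (fun i => (‖D.Φ i D.lam‖ : ℂ)) * D.Φm e = maj n c.K D.lam e := by
  ext k l
  rw [mul_apply, maj, of_apply, ← Equiv.sum_comp D.Φ]
  refine Finset.sum_congr rfl fun i _ => ?_
  rw [mul_diagonal]
  change conj (D.Φ i (e k)) * _ * D.Φ i (e l) = _
  ring

open ComplexOrder in
theorem Gr.cone {e : Fin (n + 3) → D.L} (h : Gr D e) :
    ∃ v : Cone n, v.1 = maj n c.K D.lam e := by
  refine ⟨⟨(D.Φm e)ᴴ * diagonal (fun i => (‖D.Φ i D.lam‖ : ℂ)) * D.Φm e, ?_, ?_⟩, maj_eq e⟩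
  · refine PosDef.conjTranspose_mul_mul_same (PosDef.diagonal fun i => ?_) ?_
    · exact_mod_cast norm_pos_iff.2 ((map_ne_zero _).2 (fr16 D))
    · exact mulVec_injective_iff_isUnit.2 ((isUnit_iff_isUnit_det _).2
        (isUnit_det_of_left_inverse h.phi))
  · set Φ := D.Φm e
    set A := diagonal fun i => D.Φ i D.lam with hA
    set B := diagonal fun i => (‖D.Φ i D.lam‖ : ℂ) with hB
    have e1 : Φᴴ * A * Φ = Jm n ℂ := h.form
    have e2 : Φ * (Jm n ℂ * Φᴴ * A) = 1 := by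
      rw [mul_eq_one_comm, mul_assoc, mul_assoc, ← mul_assoc Φᴴ, e1, Jm_mul_Jm]
    have e3 : B = A * diagonal (sd n) := by
      rw [hA, hB, diagonal_mul_diagonal]
      congr 1
      funext i
      rw [← norm_sd i, mul_assoc, sd_sq, mul_one, norm_sd i]
    have e4 : B * diagonal (sd n) = A := by
      rw [hA, hB, diagonal_mul_diagonal]
      exact congrArg _ (funext norm_sd)
    calc _ = Φᴴ * (B * (Φ * (Jm n ℂ * Φᴴ * A)) * diagonal (sd n)) * Φ := by
          simp only [mul_assoc]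
          rw [← mul_assoc A, ← e3]
      _ = _ := by rw [e2, mul_one, e4, e1]

end Pool.Agent.Lib.MP_9177b7_ag.B.U.Frame

namespace Pool.Agent.Lib.MP_9177b7_ag.B.U

variable [Sg]

open _root_.Pool.Agent.Lib.MP_9177b7_ag.B.U.Frame in
theorem frame : FrameStmt := fun _ _ _ _ D =>
  ⟨fr1 D, fr2 D, fr3 D, fr4 D, fr5 D, fr6 D, fr7 D, fr8 D, fr9 D, fr10 D, fr11 D, fr12 D, fr13 D,
    fr14 D, fr15 D, fr16 D, signs, crit, fun _ _ h => ⟨fr_ne h, fr_mem h, Gr.expand h.1,
      Gr.dual h.1, fr_eq h, Gr.psi h.1, Gr.phi h.1, Gr.cone h.1, fr_unit h, fr_gam h,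
      fun _ _ h' => Gr.uni h.1 h'.1⟩⟩

end Pool.Agent.Lib.MP_9177b7_ag.B.U
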