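import Pool.Agent.Lib.MP_9177b7_ag.U.St

/-!
The two opposite unipotent radicals generate `SU(J)`.
-/

open Matrix Complex
open scoped ComplexConjugate ComplexOrder

noncomputable section

namespace Pool.Agent.Lib.MP_9177b7_ag.B.U

variable [Sg]

namespace GenUAux

variable {n : ℕ}

/-- Vectors. -/
abbrev V (n : ℕ) : Type := Fin (n + 3) → ℂ

/-- The standard basis. -/
abbrev e (i : Fin (n + 3)) : V n := Pi.single i 1

/-- The signs. -/
def sc (i : Fin (n + 3)) : ℂ := U.sg ℂ i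

theorem sg0 : sc (0 : Fin (n + 3)) = 1 := sg_zero
theorem sg1 : sc (1 : Fin (n + 3)) = 1 := sg_one
theorem sg_ne (i : Fin (n + 3)) : sc i ≠ 0 := left_ne_zero_of_mul_eq_one (sg_sq i)
theorem sg_conj (i : Fin (n + 3)) : conj (sc i) = sc i := map_sg _ _

/-- The diagonal hermitian form. -/
def h (x y : V n) : ℂ := ∑ i, sc i * (x i * conj (y i))

/-- The form with Gram matrix `J`. -/
def Bf (x y : V n) : ℂ := h x y + (x 0 - x 1) * conj (y 1 - y 0)

theorem h_add (x y w : V n) : h (x + y) w = h x w + h y w := by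
  simp only [h, Pi.add_apply, add_mul, mul_add, Finset.sum_add_distrib]
theorem h_smul (c : ℂ) (x w : V n) : h (c • x) w = c * h x w := by
  simp only [h, Pi.smul_apply, smul_eq_mul, Finset.mul_sum]
  exact Finset.sum_congr rfl fun i _ => by ring
theorem h_add' (x y w : V n) : h w (x + y) = h w x + h w y := by
  simp only [h, Pi.add_apply, map_add, mul_add, Finset.sum_add_distrib]
theorem h_smul' (c : ℂ) (x w : V n) : h w (c • x) = conj c * h w x := by
  simp only [h, Pi.smul_apply, smul_eq_mul, Finset.mul_sum, map_mul]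
  exact Finset.sum_congr rfl fun i _ => by ring
theorem h_e (i : Fin (n + 3)) (w : V n) : h (e i) w = sc i * conj (w i) := by
  simp [h, Pi.single_apply]
theorem h_e' (i : Fin (n + 3)) (w : V n) : h w (e i) = sc i * w i := by
  simp [h, Pi.single_apply, apply_ite conj]
omit [Sg] in
theorem e_ne {i j : Fin (n + 3)} (hh : j ≠ i) : (e i : V n) j = 0 := Pi.single_eq_of_ne hh _
omit [Sg] in
theorem e_self (i : Fin (n + 3)) : (e i : V n) i = 1 := Pi.single_eq_same _ _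
theorem h_zero (w : V n) : h w 0 = 0 := by simp [h]

theorem Bf_eq (x y : V n) : Bf x y = star y ⬝ᵥ Jm n ℂ *ᵥ x := by
  have e1 : ∀ i : Fin (n + 1), Equiv.swap (0 : Fin (n + 3)) 1 i.succ.succ = i.succ.succ := fun i =>
    Equiv.swap_apply_of_ne_of_ne (Fin.succ_ne_zero _) (Fin.succ_succ_ne_one _)
  have e2 : ∀ i : Fin (n + 3), ((Sg.s i : ℤ) : ℂ) = sc i := fun _ => rfl
  simp only [Bf, h, Jm, mulVec, dotProduct, of_apply, ite_mul, zero_mul, e2,
    Finset.sum_ite_eq', Finset.mem_univ, if_true, Pi.star_apply, RCLike.star_def, map_sub]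
  rw [Fin.sum_univ_succ, Fin.sum_univ_succ, Fin.sum_univ_succ (n := n + 2),
    Fin.sum_univ_succ (n := n + 1)]
  simp only [e1, Fin.succ_zero_eq_one, Equiv.swap_apply_left, Equiv.swap_apply_right, sg0, sg1,
    mul_comm, mul_left_comm]
  ring_nf

theorem Bf_inv (g : SU n) (x y : V n) : Bf (g.1.1 *ᵥ x) (g.1.1 *ᵥ y) = Bf x y := by
  have hg : g.1.1ᴴ * Jm n ℂ * g.1.1 = Jm n ℂ := g.2
  rw [Bf_eq, Bf_eq, star_mulVec, mulVec_mulVec, ← dotProduct_mulVec, mulVec_mulVec, ← mul_assoc, hg]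

theorem Bf_smul (c : ℂ) (x w : V n) : Bf w (c • x) = conj c * Bf w x := by
  simp only [Bf, h_smul', Pi.smul_apply, smul_eq_mul, map_sub, map_mul]
  ring

theorem Bf_e0 (x : V n) : Bf x (e 0) = x 1 := by simp [Bf, h_e', sg0]
theorem Bf_e1 (x : V n) : Bf x (e 1) = x 0 := by simp [Bf, h_e', sg1]
theorem Bf_e {k : Fin (n + 3)} (h0 : k ≠ 0) (h1 : k ≠ 1) (x : V n) :
    Bf x (e k) = sc k * x k := by
  simp [Bf, h_e', h0.symm, h1.symm]

/-- The map `f` is given by an element of `S`. -/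
def InS (S : Subgroup (SU n)) (f : V n → V n) : Prop := ∃ g ∈ S, ∀ x, g.1.1 *ᵥ x = f x

theorem act_mul (g g' : SU n) (x : V n) : (g * g').1.1 *ᵥ x = g.1.1 *ᵥ g'.1.1 *ᵥ x :=
  (mulVec_mulVec _ _ _).symm

theorem InS.comp {S : Subgroup (SU n)} {f f' f'' : V n → V n} (h1 : InS S f) (h2 : InS S f')
    (h3 : ∀ x, f (f' x) = f'' x) : InS S f'' := by
  obtain ⟨g, hg, e1⟩ := h1
  obtain ⟨g', hg', e2⟩ := h2
  exact ⟨g * g', S.mul_mem hg hg', fun x => by rw [act_mul, e2, e1, h3]⟩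

/-- Eichler transformations. -/
def E (a b : Fin (n + 3)) (w : V n) (z : ℂ) (x : V n) : V n :=
  x + x b • w + (z * x b - h x w) • e a

/-- The hypothesis on the subgroup. -/
def Hyp (S : Subgroup (SU n)) : Prop :=
  ∀ (a b k : Fin (n + 3)) (w z : ℂ) (g : SU n), Pos a b k →
    z + conj z + sc k * (w * conj w) = 0 → g.1.1 = Ei a b k w (sc k * conj w) z → g ∈ S

variable {S : Subgroup (SU n)}

theorem e_one (hE : EichStmt) (hS : Hyp S) {a b k : Fin (n + 3)} (hp : Pos a b k) {w z : ℂ}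
    (hz : z + conj z + sc k * (w * conj w) = 0) : InS S (E a b (w • e k) z) := by
  obtain ⟨h1, h2, -⟩ := hE n ℂ (starRingEnd ℂ) a b k w z hp
  refine ⟨⟨⟨_, h1 (sc k * conj w)⟩, h2 (conj_conj w) hz⟩, hS a b k w z _ hp hz rfl, fun x => ?_⟩
  change Ei a b k w (sc k * conj w) z *ᵥ x = _
  simp only [Ei, E, add_mulVec, sub_mulVec, one_mulVec, single_mulVec_eq, h_smul', h_e']
  module

theorem e_all (hE : EichStmt) (hS : Hyp S) {a b : Fin (n + 3)}
    (hab : a = 0 ∧ b = 1 ∨ a = 1 ∧ b = 0) (s : Finset (Fin (n + 3))) :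
    ∀ (w : V n) (z : ℂ), (∀ k ∉ s, w k = 0) → w 0 = 0 → w 1 = 0 → z + conj z + h w w = 0 →
      InS S (E a b w z) := by
  induction s using Finset.induction_on with
  | empty =>
    intro w z hw _ _ hz
    obtain rfl : w = 0 := funext fun k => hw k (by simp)
    have := e_one hE hS (k := (0 : Fin (n + 1)).succ.succ)
      ⟨hab, Fin.succ_ne_zero _, Fin.succ_succ_ne_one _⟩
      (w := 0) (z := z) (by simpa [h_zero] using hz)
    rwa [zero_smul] at this
  | insert k s hk ih =>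
    intro w z hw w0 w1 hz
    by_cases hk' : w k = 0
    · exact ih w z (fun l hl => by
        by_cases e1 : l = k
        · rwa [e1]
        · exact hw l (by simp [e1, hl])) w0 w1 hz
    have k0 : k ≠ 0 := fun e1 => hk' (e1 ▸ w0)
    have k1 : k ≠ 1 := fun e1 => hk' (e1 ▸ w1)
    have c1 : -(sc k * (w k * conj (w k))) / 2 + conj (-(sc k * (w k * conj (w k))) / 2) +
        sc k * (w k * conj (w k)) = 0 := by
      simp only [map_div₀, map_neg, map_mul, conj_conj, map_ofNat, sg_conj]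
      ring
    refine (e_one hE hS ⟨hab, k0, k1⟩ c1).comp (ih (w + (-w k) • e k)
      (z + sc k * (w k * conj (w k)) / 2) (fun l hl => ?_) (by simp [w0, k0.symm]) (by simp [w1, k1.symm])
      ?_) fun x => ?_
    · by_cases e1 : l = k
      · simp [e1]
      · simp [e1, hw l (by simp [e1, hl])]
    · simp only [h_add, h_add', h_smul, h_smul', h_e, h_e', map_add, map_div₀, map_mul, map_neg,
        conj_conj, map_ofNat, Pi.single_eq_same, Pi.add_apply, Pi.smul_apply, smul_eq_mul, sg_conj]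
      linear_combination hz
    · rcases hab with ⟨rfl, rfl⟩ | ⟨rfl, rfl⟩ <;>
      · simp only [E, h_add', h_smul', h_e', Pi.add_apply, Pi.smul_apply,
          smul_eq_mul, w0, w1, map_neg, Pi.single_eq_same, Pi.single_eq_of_ne k0,
          Pi.single_eq_of_ne k1, Pi.single_eq_of_ne k0.symm, Pi.single_eq_of_ne k1.symm,
          Pi.single_eq_of_ne (Fin.zero_ne_one (n := n + 1)),
          Pi.single_eq_of_ne (Fin.zero_ne_one (n := n + 1)).symm]
        match_scalars <;> ring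

theorem e_in (hE : EichStmt) (hS : Hyp S) {a b : Fin (n + 3)}
    (hab : a = 0 ∧ b = 1 ∨ a = 1 ∧ b = 0) {w : V n} {z : ℂ} (w0 : w 0 = 0) (w1 : w 1 = 0)
    (hz : z + conj z + h w w = 0) : InS S (E a b w z) :=
  e_all hE hS hab Finset.univ w z (by simp) w0 w1 hz

omit [Sg] in
theorem z01 : (0 : Fin (n + 3)) ≠ 1 := Fin.zero_ne_one

/-- A product of three Eichler transformations. -/
def W (w : V n) (z : ℂ) (x : V n) : V n :=
  x + (z * x 1 - x 0) • e 0 + ((conj z)⁻¹ * x 0 - x 1) • e 1 + (h x w / z) • w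

theorem w_in (hE : EichStmt) (hS : Hyp S) {w : V n} {z : ℂ} (w0 : w 0 = 0) (w1 : w 1 = 0)
    (hz : z + conj z + h w w = 0) (z0 : z ≠ 0) : InS S (W w z) := by
  have z1 : conj z ≠ 0 := (map_ne_zero _).2 z0
  have hw : h w w = -(z + conj z) := by linear_combination hz
  refine ((e_in hE hS (.inr ⟨rfl, rfl⟩) (w := (-z⁻¹) • w) (z := (conj z)⁻¹) (by simp [w0])
    (by simp [w1]) ?_).comp (e_in hE hS (.inl ⟨rfl, rfl⟩) w0 w1 hz) fun _ => rfl).comp
    (e_in hE hS (.inr ⟨rfl, rfl⟩) (w := (-(conj z)⁻¹) • w) (z := (conj z)⁻¹) (by simp [w0])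
      (by simp [w1]) ?_) fun x => ?_
  · simp only [h_smul, h_smul', hw, map_neg, map_inv₀, conj_conj]
    field_simp
    ring
  · simp only [h_smul, h_smul', hw, map_neg, map_inv₀, conj_conj]
    field_simp
    ring
  · simp only [E, W, h_add, h_smul, h_smul', h_e, hw, Pi.add_apply, Pi.smul_apply, smul_eq_mul, w0,
      w1, map_neg, map_inv₀, conj_conj, map_zero, Pi.single_eq_same, Pi.single_eq_of_ne z01]
    match_scalars <;> field_simp <;> ring

/-- Reflections. -/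
def Rf (w : V n) (z : ℂ) (x : V n) : V n :=
  x + ((I * (conj z)⁻¹ - 1) * x 0) • e 0 + ((I * z - 1) * x 1) • e 1 + (h x w / z) • w

theorem r_in (hE : EichStmt) (hS : Hyp S) {w : V n} {z : ℂ} (w0 : w 0 = 0) (w1 : w 1 = 0)
    (hz : z + conj z + h w w = 0) (z0 : z ≠ 0) : InS S (Rf w z) := by
  refine (w_in hE hS (w := 0) (z := I) rfl rfl (by simp [h_zero]) I_ne_zero).comp
    (w_in hE hS w0 w1 hz z0) fun x => ?_
  simp only [Rf, W, Pi.add_apply, Pi.smul_apply, smul_eq_mul, w0, w1, conj_I, inv_neg, inv_I,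
    Pi.single_eq_same, Pi.single_eq_of_ne z01, Pi.single_eq_of_ne z01.symm, smul_zero]
  match_scalars <;> ring

theorem kill (hE : EichStmt) (hS : Hyp S) {a b : Fin (n + 3)}
    (hab : a = 0 ∧ b = 1 ∨ a = 1 ∧ b = 0) {v : V n} (hv : Bf v v = 0) (vb : v b ≠ 0) :
    ∃ s ∈ S, s.1.1 *ᵥ v = v b • e b ∧ s.1.1 *ᵥ e a = e a := by
  have vb' : conj (v b) ≠ 0 := (map_ne_zero _).2 vb
  set u : V n := v + (-v 0) • e 0 + (-v 1) • e 1 with hu
  have u0 : u 0 = 0 := by simp [hu]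
  have u1 : u 1 = 0 := by simp [hu]
  have h1 : h v u = -(v 0 * conj (v 1) + v 1 * conj (v 0)) := by
    simp only [Bf, map_sub] at hv
    simp only [hu, h_add', h_smul', h_e', map_neg, sg0, sg1]
    linear_combination hv
  have h2 : h u u = -(v 0 * conj (v 1) + v 1 * conj (v 0)) := by
    rw [← h1]
    nth_rewrite 1 [hu]
    simp only [h_add, h_smul, h_e, u0, u1, map_zero, mul_zero, add_zero]
  obtain ⟨s, hs, es⟩ := e_in hE hS hab (w := (-(v b)⁻¹) • u)
    (z := (h v ((-(v b)⁻¹) • u) - v a) / v b) (by simp [u0]) (by simp [u1]) (by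
      simp only [h_smul, h_smul', h1, h2, map_neg, map_inv₀, conj_conj, map_div₀, map_sub, map_mul,
        map_add]
      rcases hab with ⟨rfl, rfl⟩ | ⟨rfl, rfl⟩ <;>
      · field_simp
        ring)
  refine ⟨s, hs, ?_, ?_⟩
  · rw [es, E, div_mul_cancel₀ _ vb, smul_smul, mul_neg, mul_inv_cancel₀ vb, hu]
    rcases hab with ⟨rfl, rfl⟩ | ⟨rfl, rfl⟩ <;> module
  · rw [es, E]
    rcases hab with ⟨rfl, rfl⟩ | ⟨rfl, rfl⟩ <;> simp [h_e, u0, u1]

theorem swap (hE : EichStmt) (hS : Hyp S) (g : SU n) (hg : (g.1.1 *ᵥ e 0) 1 ≠ 0) :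
    ∃ s ∈ S, ∃ c c' : ℂ, (s * g).1.1 *ᵥ e 0 = c • e 0 ∧ (s * g).1.1 *ᵥ e 1 = c' • e 1 := by
  obtain ⟨s, hs, e1, -⟩ := kill hE hS (.inl ⟨rfl, rfl⟩)
    (by rw [Bf_inv, Bf_e0]; simp : Bf (g.1.1 *ᵥ e 0) (g.1.1 *ᵥ e 0) = 0) hg
  rw [← act_mul] at e1
  have h1 := Bf_inv (s * g) (e 1) (e 0)
  rw [e1, Bf_smul, Bf_e1, Bf_e0] at h1
  obtain ⟨s', hs', e2, e3⟩ := kill hE hS (.inr ⟨rfl, rfl⟩)
    (by rw [Bf_inv, Bf_e1]; simp : Bf ((s * g).1.1 *ᵥ e 1) ((s * g).1.1 *ᵥ e 1) = 0)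
    (fun h0 => by rw [h0] at h1; simp at h1)
  obtain ⟨t, ht, et⟩ := w_in hE hS (w := 0) (z := I) rfl rfl (by simp [h_zero]) I_ne_zero
  refine ⟨t * s' * s, S.mul_mem (S.mul_mem ht hs') hs, (g.1.1 *ᵥ e 0) 1 * I,
    ((s * g).1.1 *ᵥ e 1) 0 * I, ?_, ?_⟩
  · rw [mul_assoc, mul_assoc, act_mul, act_mul, e1, mulVec_smul, e3, mulVec_smul, et, W]
    simp [smul_smul]
  · rw [mul_assoc, mul_assoc, act_mul, act_mul, e2, mulVec_smul, et, W]
    simp [smul_smul]

theorem diag (hE : EichStmt) (hS : Hyp S) (g : SU n) {c c' : ℂ} (g0 : g.1.1 *ᵥ e 0 = c • e 0)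
    (g1 : g.1.1 *ᵥ e 1 = c' • e 1) (gk : ∀ k, k ≠ 0 → k ≠ 1 → g.1.1 *ᵥ e k = e k) : g ∈ S := by
  have h1 := Bf_inv g (e 0) (e 1)
  rw [g0, g1, Bf_smul, Bf_e1, Bf_e1] at h1
  simp only [Pi.smul_apply, Pi.single_eq_same, smul_eq_mul, mul_one] at h1
  have ed : g.1.1 = diagonal fun i => if i = 0 then c else if i = 1 then c' else 1 := by
    refine ext_of_mulVec_single fun k => ?_
    rw [diagonal_mulVec_single, mul_one]
    split_ifs with k0 k1
    · rw [k0, g0, ← Pi.single_smul, smul_eq_mul, mul_one]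
    · rw [k1, g1, ← Pi.single_smul, smul_eq_mul, mul_one]
    · exact gk k k0 k1
  have h2 := g.1.2
  rw [ed, det_diagonal, Fin.prod_univ_succ, Fin.prod_univ_succ] at h2
  simp only [if_true, Fin.succ_ne_zero, if_false, Fin.succ_succ_ne_one, Fin.succ_zero_eq_one,
    Finset.prod_const_one, mul_one, z01.symm] at h2
  have c0 : c ≠ 0 := left_ne_zero_of_mul_eq_one h2
  have c1 : c' ≠ 0 := right_ne_zero_of_mul_eq_one h2
  have h3 : conj c' = c' := mul_right_cancel₀ c0 (by rw [h1, mul_comm, h2])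
  obtain ⟨s, hs, es⟩ := r_in hE hS (w := 0) (z := -I * c') rfl rfl (by simp [h_zero, h3])
    (mul_ne_zero (neg_ne_zero.2 I_ne_zero) c1)
  have : g = s := by
    refine Subtype.ext (Subtype.ext (ext_of_mulVec_single fun k => ?_))
    have h4 : I * (conj (-I * c'))⁻¹ = c := by
      rw [map_mul, map_neg, conj_I, neg_neg, h3]
      field_simp
      linear_combination -h2
    have h5 : I * (-I * c') = c' := by linear_combination (-c') * I_mul_I
    rw [es, Rf, h4, h5, smul_zero, add_zero]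
    by_cases k0 : k = 0
    · rw [k0, g0]
      simp [sub_smul]
    by_cases k1 : k = 1
    · rw [k1, g1]
      simp [sub_smul]
    · rw [gk k k0 k1]
      simp [Ne.symm k0, Ne.symm k1]
  exact this ▸ hs

theorem flip (hE : EichStmt) (hS : Hyp S) {k : Fin (n + 3)} (k0 : k ≠ 0) (k1 : k ≠ 1) :
    ∃ s ∈ S, ∃ c c' : ℂ, s.1.1 *ᵥ e 0 = c • e 0 ∧ s.1.1 *ᵥ e 1 = c' • e 1 ∧
      (∀ l, l ≠ k → l ≠ 0 → l ≠ 1 → s.1.1 *ᵥ e l = e l) ∧ ∀ y, (s.1.1 *ᵥ y) k = -y k := by
  have z0 : -sc k / 2 ≠ 0 := div_ne_zero (neg_ne_zero.2 (sg_ne k)) two_ne_zero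
  obtain ⟨s, hs, es⟩ := r_in hE hS (w := e k) (z := -sc k / 2) (e_ne k0.symm) (e_ne k1.symm) (by
    simp only [h_e', e_self, map_div₀, map_neg, sg_conj, map_ofNat]
    ring) z0
  refine ⟨s, hs, I * (conj (-sc k / 2))⁻¹, I * (-sc k / 2), ?_, ?_, fun l lk l0 l1 => ?_,
    fun y => ?_⟩
  · rw [es, Rf, h_e', e_ne k0]
    simp [sub_smul]
  · rw [es, Rf, h_e', e_ne k1]
    simp [sub_smul]
  · rw [es, Rf, h_e', e_ne lk.symm, e_ne l0.symm, e_ne l1.symm]
    simp
  · have := sg_ne k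
    rw [es, Rf, h_e']
    simp only [Pi.add_apply, Pi.smul_apply, smul_eq_mul, e_ne k0, e_ne k1, e_self]
    field_simp
    ring

theorem levi (hE : EichStmt) (hS : Hyp S) (t : Finset (Fin (n + 3))) :
    ∀ (g : SU n) (c c' : ℂ), g.1.1 *ᵥ e 0 = c • e 0 → g.1.1 *ᵥ e 1 = c' • e 1 →
      (∀ k ∉ t, k ≠ 0 → k ≠ 1 → g.1.1 *ᵥ e k = e k) → g ∈ S := by
  induction t using Finset.induction_on with
  | empty => exact fun g c c' g0 g1 gk => diag hE hS g g0 g1 fun k => gk k (by simp)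
  | insert k t hk ih =>
    by_cases hc : k = 0 ∨ k = 1
    · exact fun g c c' g0 g1 gk => ih g c c' g0 g1 fun l hl l0 l1 =>
        gk l (by rcases hc with rfl | rfl <;> simp [hl, l0, l1]) l0 l1
    push Not at hc
    obtain ⟨k0, k1⟩ := hc
    have key : ∀ (g : SU n) (c c' : ℂ), g.1.1 *ᵥ e 0 = c • e 0 → g.1.1 *ᵥ e 1 = c' • e 1 →
        (∀ l ∉ insert k t, l ≠ 0 → l ≠ 1 → g.1.1 *ᵥ e l = e l) → (g.1.1 *ᵥ e k) k ≠ 1 →
        g ∈ S := by
      intro g c c' g0 g1 gk hy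
      set y := g.1.1 *ᵥ e k with hyd
      have h1 := Bf_inv g (e 0) (e 1)
      rw [g0, g1, Bf_smul, Bf_e1, Bf_e1] at h1
      simp only [Pi.smul_apply, Pi.single_eq_same, smul_eq_mul, mul_one] at h1
      have y0 : y 0 = 0 := by
        have := Bf_inv g (e k) (e 1)
        rw [g1, Bf_smul, Bf_e1, Bf_e1, e_ne k0.symm] at this
        exact (mul_eq_zero.1 this).resolve_left (left_ne_zero_of_mul_eq_one h1)
      have y1 : y 1 = 0 := by
        have := Bf_inv g (e k) (e 0)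
        rw [g0, Bf_smul, Bf_e0, Bf_e0, e_ne k1.symm] at this
        exact (mul_eq_zero.1 this).resolve_left ((map_ne_zero _).2 (right_ne_zero_of_mul_eq_one h1))
      have yy : h y y = sc k := by
        have := Bf_inv g (e k) (e k)
        rw [Bf_e k0 k1, e_self, Bf, ← hyd, y0, y1] at this
        simpa using this
      set w : V n := y + (-1 : ℂ) • e k with hw
      have w0 : w 0 = 0 := by simp [hw, y0, k0.symm]
      have w1 : w 1 = 0 := by simp [hw, y1, k1.symm]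
      have hz : sc k * (y k - 1) + conj (sc k * (y k - 1)) + h w w = 0 := by
        simp only [hw, h_add, h_add', h_smul, h_smul', h_e, h_e', yy, map_sub, map_neg, map_one,
          Pi.add_apply, Pi.smul_apply, smul_eq_mul, Pi.single_eq_same, map_mul, sg_conj]
        ring
      have z0 : sc k * (y k - 1) ≠ 0 := mul_ne_zero (sg_ne k) (sub_ne_zero.2 hy)
      obtain ⟨s, hs, es⟩ := r_in hE hS w0 w1 hz z0
      refine (S.mul_mem_cancel_left hs).1 (ih (s * g) (c * (I * (conj (sc k * (y k - 1)))⁻¹))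
        (c' * (I * (sc k * (y k - 1)))) ?_ ?_ fun l hl l0 l1 => ?_)
      · rw [act_mul, g0, mulVec_smul, es, Rf, h_e, w0]
        simp [sub_smul, smul_smul]
      · rw [act_mul, g1, mulVec_smul, es, Rf, h_e, w1]
        simp [sub_smul, smul_smul]
      · rw [act_mul, es]
        by_cases e1 : l = k
        · have : h y w / (sc k * (y k - 1)) = -1 := by
            rw [div_eq_iff z0]
            simp only [hw, h_add', h_smul', h_e', yy, map_neg, map_one]
            ring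
          rw [e1, ← hyd, Rf, this, y0, y1, hw]
          module
        · have e2 := gk l (by simp [e1, hl]) l0 l1
          have := Bf_inv g (e k) (e l)
          rw [e2, Bf_e l0 l1, Bf_e l0 l1, e_ne e1, ← hyd, mul_zero] at this
          have := (mul_eq_zero.1 this).resolve_left (sg_ne l)
          rw [e2, Rf, h_e]
          simp [hw, this, e1, l0.symm, l1.symm]
    intro g c c' g0 g1 gk
    by_cases hy : (g.1.1 *ᵥ e k) k = 1
    swap
    · exact key g c c' g0 g1 gk hy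
    obtain ⟨s, hs, d, d', s0, s1, sl, sk⟩ := flip hE hS k0 k1
    refine (S.mul_mem_cancel_left hs).1 (key (s * g) (c * d) (c' * d') ?_ ?_
      (fun l hl l0 l1 => ?_) ?_)
    · rw [act_mul, g0, mulVec_smul, s0, smul_smul]
    · rw [act_mul, g1, mulVec_smul, s1, smul_smul]
    · rw [act_mul, gk l hl l0 l1, sl l (fun e1 => hl (by simp [e1])) l0 l1]
    · rw [act_mul, sk, hy]
      norm_num

end GenUAux

open GenUAux in
theorem genU : EichStmt → GenUStmt := by
  intro hE n S hS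
  have key : ∀ g : SU n, (g.1.1 *ᵥ e 0) 1 ≠ 0 → g ∈ S := fun g hg => by
    obtain ⟨s, hs, c, c', g0, g1⟩ := GenUAux.swap hE hS g hg
    exact (S.mul_mem_cancel_left hs).1 (levi hE hS Finset.univ _ c c' g0 g1 (by simp))
  refine (Subgroup.eq_top_iff' S).2 fun g => ?_
  by_cases hg : (g.1.1 *ᵥ e 0) 1 = 0
  swap
  · exact key g hg
  set v := g.1.1 *ᵥ e 0 with hv
  by_cases v0 : v 0 = 0
  swap
  · obtain ⟨s, hs, es⟩ := e_in hE hS (a := 1) (b := 0) (.inr ⟨rfl, rfl⟩) (w := 0) (z := I) rfl rfl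
      (by simp [h_zero])
    refine (S.mul_mem_cancel_left hs).1 (key _ fun h0 => v0 ?_)
    rw [act_mul, es, E, ← hv] at h0
    simpa [h_zero, hg] using h0
  have h2 : v ≠ 0 := fun h2 => by
    have h3 := Bf_inv g (e 0) (e 1)
    rw [← hv, h2, Bf_e1, Bf_eq] at h3
    simp at h3
  obtain ⟨k, hk⟩ := Function.ne_iff.1 h2
  have k0 : k ≠ 0 := fun e1 => hk (e1 ▸ v0)
  have k1 : k ≠ 1 := fun e1 => hk (e1 ▸ hg)
  obtain ⟨s, hs, es⟩ := e_in hE hS (a := 1) (b := 0) (.inr ⟨rfl, rfl⟩) (w := e k)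
    (z := -sc k / 2) (e_ne k0.symm) (e_ne k1.symm) (by
      simp only [h_e', e_self, map_div₀, map_neg, sg_conj, map_ofNat]
      ring)
  refine (S.mul_mem_cancel_left hs).1 (key _ fun h0 => hk ?_)
  rw [act_mul, es, E, ← hv, h_e'] at h0
  simpa [hg, v0, sg_ne] using h0

end Pool.Agent.Lib.MP_9177b7_ag.B.U
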