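import Pool.Agent.Lib.MP_ca56d1_nt.AR.Ps
import Pool.Agent.Lib.MP_ca56d1_nt.AR.ThW
import Pool.Agent.Lib.MP_ca56d1_nt.AR.UnfW
import Pool.Agent.Lib.MP_ca56d1_nt.AR.Prin
import Pool.Agent.Lib.MP_ca56d1_nt.AR.LBd
import Pool.Agent.Lib.MP_ca56d1_nt.AR.Den
import Pool.Agent.Lib.MP_ca56d1_nt.AR.Sec
import Pool.Agent.Lib.MP_9177b7_ag.B.Iso
import Pool.Agent.Lib.MP_9177b7_ag.U.St

/-! The norm group of the ideal class group has index at most the degree. -/

open NumberField IsDedekindDomain Filter Topology Pool.Agent.Stark Pool.Agent.Stark.AR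
open scoped nonZeroDivisors Classical

namespace Pool.Agent.Lib.MP_9177b7_ag.B.U

namespace Idx

variable {L M : Type} [Field L] [NumberField L] [Field M] [NumberField M] [Algebra L M]

theorem cl_pow {I : Ideal (𝓞 L)} (hI : I ≠ ⊥) (n : ℕ) : LBdAux.cl (I ^ n) = LBdAux.cl I ^ n := by
  induction n with
  | zero => rw [pow_zero, pow_zero, LBdAux.cl_eq_one one_ne_zero]; exact ⟨1, by simp⟩
  | succ n ih => rw [pow_succ, pow_succ, LBdAux.cl_mul (pow_ne_zero n hI) hI, ih]

theorem cl_prod (P : Finset (Pr L)) (n : Pr L → ℕ) :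
    LBdAux.cl (∏ q ∈ P, q.asIdeal ^ n q) = ∏ q ∈ P, LBdAux.cl q.asIdeal ^ n q := by
  induction P using Finset.induction_on with
  | empty => rw [Finset.prod_empty, Finset.prod_empty, LBdAux.cl_eq_one one_ne_zero]
             exact ⟨1, by simp⟩
  | insert a P ha ih =>
    rw [Finset.prod_insert ha, Finset.prod_insert ha, LBdAux.cl_mul (pow_ne_zero _ a.ne_bot)
      (Finset.prod_ne_zero_iff.2 fun q _ => pow_ne_zero _ q.ne_bot), ih, cl_pow a.ne_bot]

theorem ev_int {x : 𝓞 L} (hx : x ≠ 0) :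
    ev (fun q : Pr L => LBdAux.cl q.asIdeal) (dv (x : L)) = 1 := by
  have h0 : ∀ q ∉ (dv (x : L)).support, og q (x : L) = 0 := fun q hq =>
    Finsupp.notMem_support_iff.1 hq
  have h1 : LBdAux.cl (Ideal.span {x}) = 1 :=
    (LBdAux.cl_eq_one (by simpa using hx)).2 ⟨x, rfl⟩
  rw [ComplAux.span_eq_prod hx _ h0, cl_prod] at h1
  rw [ev_eq_prod _ _ _ h0, ← h1]
  refine Finset.prod_congr rfl fun q _ => ?_
  rw [← zpow_natCast, Int.toNat_of_nonneg (og_nonneg q x)]
  rfl

theorem ev_prin {a : L} (ha : a ≠ 0) : ev (fun q : Pr L => LBdAux.cl q.asIdeal) (dv a) = 1 := by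
  obtain ⟨x, y, hy, rfl⟩ := IsFractionRing.div_surjective (A := 𝓞 L) a
  have hy' : y ≠ 0 := nonZeroDivisors.ne_zero hy
  have hx : x ≠ 0 := by rintro rfl; simp at ha
  have h1 := ev_int hx
  have h2 := ev_int hy'
  rw [RingOfIntegers.coe_eq_algebraMap] at h1 h2
  rw [div_eq_mul_inv, dv_mul (by simpa using hx) (by simpa using hy'), dv_inv, ev_add, ev_neg,
    h1, h2, inv_one, mul_one]

theorem gen (A : Subgroup (ClassGroup (𝓞 L))) (h : ∀ q : Pr L, LBdAux.cl q.asIdeal ∈ A) :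
    A = ⊤ := by
  have : ∀ I : Ideal (𝓞 L), I ≠ ⊥ → LBdAux.cl I ∈ A := fun I => by
    induction I using UniqueFactorizationMonoid.induction_on_prime with
    | h₁ => exact fun h => (h rfl).elim
    | h₂ I hI =>
      intro h0
      rw [(LBdAux.cl_eq_one h0).2 ⟨1, by simp [Ideal.isUnit_iff.1 hI]⟩]
      exact one_mem _
    | h₃ I P hI hP ih =>
      intro _
      rw [LBdAux.cl_mul hP.ne_zero hI]
      exact mul_mem (h ⟨P, Ideal.isPrime_of_prime hP, hP.ne_zero⟩) (ih hI)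
  refine eq_top_iff.2 fun x _ => ?_
  obtain ⟨I, rfl⟩ := ClassGroup.mk0_surjective x
  have h0 : I.1 ≠ ⊥ := nonZeroDivisors.ne_zero I.2
  have h1 := this I.1 h0
  rwa [LBdAux.cl, dif_pos h0] at h1

theorem deg_one (Q : Pr M) (h : (Ideal.absNorm Q.asIdeal).Prime) :
    Ideal.relNorm (𝓞 L) Q.asIdeal = (below L Q).asIdeal ∧
      Ideal.absNorm (below L Q).asIdeal = Ideal.absNorm Q.asIdeal := by
  have := SplitAux.lies (F := L) Q
  have := Q.isMaximal
  have := (below L Q).isMaximal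
  have h1 := Ideal.relNorm_eq_pow_of_isMaximal Q.asIdeal (below L Q).asIdeal
  have h2 := congrArg Ideal.absNorm h1
  rw [Ideal.absNorm_relNorm, map_pow] at h2
  have h3 := (h2 ▸ h).eq_one_of_pow
  rw [h3, pow_one] at h1 h2
  exact ⟨h1, h2.symm⟩

set_option linter.deprecated false in
theorem card_le (q : Pr L) : Nat.card ((below L : Pr M → Pr L) ⁻¹' {q}) ≤ Module.finrank L M := by
  have := q.isMaximal
  have : NoZeroSMulDivisors (𝓞 L) (𝓞 M) := ⟨fun h => smul_eq_zero.1 h⟩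
  refine le_trans ?_ (Ideal.card_primesOverFinset_le_finrank (𝓞 M) L M q.ne_bot)
  rw [← Nat.card_eq_finsetCard]
  refine Nat.card_le_card_of_injective (fun Q => ⟨Q.1.asIdeal,
    (IsDedekindDomain.mem_primesOverFinset_iff q.ne_bot _).2 ⟨Q.1.isPrime, SplitAux.lies_of Q.2⟩⟩)
    fun Q Q' e => Subtype.ext (HeightOneSpectrum.ext (congrArg Subtype.val e))

theorem ps_le (P : Set (Pr L)) (hP : ∀ Q : Pr M, (Ideal.absNorm Q.asIdeal).Prime → below L Q ∈ P)
    {s : ℝ} (hs : 1 < s) :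
    ps {Q : Pr M | (Ideal.absNorm Q.asIdeal).Prime} s ≤ Module.finrank L M * ps P s := by
  have h1 := (PsAux.summ' {Q : Pr M | (Ideal.absNorm Q.asIdeal).Prime} hs).hasSum.tsum_fiberwise
    (below L)
  rw [PsAux.ps_eq, ← h1.tsum_eq, PsAux.ps_eq, ← tsum_mul_left]
  refine h1.summable.tsum_le_tsum (fun q => ?_) ((PsAux.summ' P hs).mul_left _)
  have : Finite ((below L : Pr M → Pr L) ⁻¹' {q}) := (below_finite q).to_subtype
  have h0 : 0 ≤ PsAux.tm P s q := by unfold PsAux.tm; positivity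
  have h2 : ∀ Q : (below L : Pr M → Pr L) ⁻¹' {q},
      PsAux.tm {Q : Pr M | (Ideal.absNorm Q.asIdeal).Prime} s Q.1 ≤ PsAux.tm P s q := fun Q => by
    have h3 : below L Q.1 = q := Q.2
    by_cases h : (Ideal.absNorm Q.1.asIdeal).Prime
    · rw [PsAux.tm_pos s (P := {Q : Pr M | (Ideal.absNorm Q.asIdeal).Prime}) h,
        PsAux.tm_pos s (h3 ▸ hP Q.1 h), ← (deg_one (L := L) Q.1 h).2, h3]
    · rwa [PsAux.tm_neg s (P := {Q : Pr M | (Ideal.absNorm Q.asIdeal).Prime}) h]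
  refine (Summable.of_finite.tsum_le_tsum h2 Summable.of_finite).trans ?_
  rw [tsum_const, nsmul_eq_mul]
  exact mul_le_mul_of_nonneg_right (by exact_mod_cast card_le q) h0

end Idx

open Idx in
/-- The second inequality for the ideal class group. -/
theorem idx0 (L M : Type) [Field L] [NumberField L] [Field M] [NumberField M] [Algebra L M]
    (H : Subgroup (ClassGroup (𝓞 L)))
    (hH : ∀ B : (Ideal (𝓞 M))⁰, ClassGroup.mk0 ⟨_, Iso.norm_mem L M B⟩ ∈ H) :
    H.index ≤ Module.finrank L M := by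
  set c : Pr L → ClassGroup (𝓞 L) ⧸ H := fun q => QuotientGroup.mk' H (LBdAux.cl q.asIdeal)
  have hw : WRay ∅ 0 c := fun a ha => by
    rw [← map_ev, ev_prin ha.1, map_one]
  have ht : Subgroup.closure (c '' {q | q ∉ (∅ : Finset (Pr L))}) = ⊤ := by
    have := gen ((Subgroup.closure (c '' {q | q ∉ (∅ : Finset (Pr L))})).comap
      (QuotientGroup.mk' H)) fun q => Subgroup.subset_closure ⟨q, by simp, rfl⟩
    refine eq_top_iff.2 fun x _ => ?_
    obtain ⟨y, rfl⟩ := QuotientGroup.mk'_surjective H x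
    exact (this.ge (Subgroup.mem_top y) :)
  obtain ⟨C, hC⟩ := den (lbd (AR.prin thW unfW) AR.mean) psS L ∅ 0 c hw ht
  have hn : Module.finrank L M ≠ 0 := Module.finrank_pos.ne'
  have hn' : (0 : ℝ) < Module.finrank L M := Nat.cast_pos.2 Module.finrank_pos
  set D : ℝ := 2 * (Module.finrank ℤ (𝓞 M) : ℝ)
  refine SecAux.le_of_lim (f := fun s => (ps (Set.univ : Set (Pr M)) s - D) / Module.finrank L M)
    (C := C) hn ?_ ?_
  · have h4 := ((psS M).lim.sub (SecAux.log_top.const_div_atTop D)).div_const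
      (Module.finrank L M : ℝ)
    rw [sub_zero] at h4
    refine h4.congr fun s => ?_
    ring
  · filter_upwards [hC, self_mem_nhdsWithin] with s h hs
    refine le_trans (mul_le_mul_of_nonneg_left ?_ (Nat.cast_nonneg _)) h
    have h1 := ps_le (M := M) {q | q ∉ (∅ : Finset (Pr L)) ∧ c q = 1} (fun Q hQ => ⟨by simp, by
      have h5 := hH ⟨Q.asIdeal, mem_nonZeroDivisors_of_ne_zero Q.ne_bot⟩
      refine (QuotientGroup.eq_one_iff _).2 ?_
      rw [LBdAux.cl, dif_pos (below L Q).ne_bot]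
      convert h5 using 3
      exact (deg_one Q hQ).1.symm⟩) hs
    have h2 := PsAux.nonprime (F := M) hs
    have h3 := PsAux.union (P := (Set.univ : Set (Pr M)))
      (A := {q | (Ideal.absNorm q.asIdeal).Prime})
      (B := {q | ¬ (Ideal.absNorm q.asIdeal).Prime}) hs fun q _ => em _
    rw [div_le_iff₀ hn']
    linarith

theorem idx : IdxStmt := fun L M _ _ _ _ _ U h => idx0 L M U fun B => h B.1 _ rfl

end Pool.Agent.Lib.MP_9177b7_ag.B.U
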