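import Pool.Agent.Lib.MP_9177b7_ag.U.St
import Pool.Agent.Lib.MP_9177b7_ag.B.Iso

/-! The set of classes is stable under the kernel of the norm. -/

set_option autoImplicit false

open NumberField
open scoped nonZeroDivisors

namespace Pool.Agent.Lib.MP_9177b7_ag.B.U

variable [Sg]

open B.Iso in
theorem iso (_ : FrameStmt) (hC : CycStmt) (hN : NbrStmt) : IsoStmt := by
  intro n p _ c D
  obtain ⟨N, hNm⟩ := exists_norm c.K D.L
  have hm : c.m0 ≠ 0 := by
    rw [Ctx.m0, Ne, Ideal.absNorm_eq_zero_iff, Ideal.span_singleton_eq_bot]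
    exact mul_ne_zero two_ne_zero c.δ_ne
  have st : ∀ y ∈ N.ker, y ∈ D.H → ∀ x : D.Cl, ∃ z : D.Cl, z.1 = y * x.1 := by
    rintro y hy hH ⟨_, hx, a, rfl, e, he⟩
    obtain ⟨b, rfl, h1, h2⟩ := hC D.L c.m0 y hm
    have h0 : b.1 ≠ ⊥ := nonZeroDivisors.ne_zero b.2
    rw [MonoidHom.mem_ker, hNm, ClassGroup.mk0_eq_one_iff, norm_eq c.K h0 h2] at hy
    obtain ⟨e', he'⟩ := hN n p c D _ e b he h0 h2 h1 hy
    refine ⟨⟨_, mul_mem hH hx, b * a, map_mul _ _ _, e', ?_⟩, rfl⟩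
    convert he' using 1
    simp only [Dat.tw, Dat.cI, Submonoid.coe_mul, Ideal.map_mul, FractionalIdeal.coeIdeal_mul,
      mul_inv]
    ring
  refine ⟨?_, fun P P' hH h h' e x => ?_⟩
  · obtain ⟨e, he⟩ := D.sp.frame
    have one : ∃ x : D.Cl, x.1 = 1 := ⟨⟨1, one_mem _, 1, map_one _, e, by
      simpa [Dat.tw, Dat.cI, Ideal.map_top] using he⟩, rfl⟩
    obtain ⟨x, hx⟩ := one
    choose f hf using fun y : (N.ker ⊓ D.H : Subgroup _) => st y.1 y.2.1 y.2.2 x
    have h1 : Nat.card (N.ker ⊓ D.H : Subgroup _) ≤ Nat.card D.Cl :=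
      Nat.card_le_card_of_injective f fun y y' h =>
        Subtype.ext (mul_right_cancel ((hf y).symm.trans (h ▸ hf y')))
    have h2 : N.ker.index ≤ classNumber c.K := by
      rw [Subgroup.index_ker, classNumber, ← Nat.card_eq_fintype_card]
      exact Subgroup.card_le_card_group _
    have h3 : (N.ker ⊓ D.H).index ≤ classNumber c.K ^ 2 * (n + 3).factorial :=
      Subgroup.index_inf_le.trans ((Nat.mul_le_mul h2 D.H_idx).trans_eq (by ring))
    rw [classNumber, ← Nat.card_eq_fintype_card, ← Nat.card_eq_fintype_card (α := D.Cl),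
      ← (N.ker ⊓ D.H).index_mul_card]
    exact Nat.mul_le_mul h3 h1
  · obtain ⟨z, hz⟩ := st (ClassGroup.mk0 P * (ClassGroup.mk0 P')⁻¹) (by
      rw [MonoidHom.mem_ker, map_mul, map_inv, mul_inv_eq_one, hNm, hNm]
      refine congrArg _ (Subtype.ext ?_)
      exact (norm_eq c.K (nonZeroDivisors.ne_zero P.2) h).trans
        (e.trans (norm_eq c.K (nonZeroDivisors.ne_zero P'.2) h').symm)) hH x
    exact ⟨z, by rw [hz, mul_comm, mul_assoc]⟩

end Pool.Agent.Lib.MP_9177b7_ag.B.U
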