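import Pool.Agent.Lib.MP_9177b7_ag.U.St

/-!
Mahler's compactness criterion and Minkowski's theorem for the unitary group.
-/

open NumberField Matrix Module
open scoped ComplexConjugate

noncomputable section

namespace Pool.Agent.Lib.MP_9177b7_ag.B.U

variable [Sg]

namespace Mahler

variable {p : ℕ} [Fact p.Prime] (c : Ctx p) {n : ℕ}

/-- The embedding of the lattice. -/
def io (n : ℕ) : (Fin (n + 3) → 𝓞 c.K) →ₗ[ℤ] (Fin (n + 3) → ℂ) where
  toFun v k := ((v k : c.K) : ℂ)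
  map_add' v w := by funext k; simp
  map_smul' a v := by funext k; simp

lemma mem_OK {z : ℂ} : z ∈ OK c.K ↔ ∃ x : 𝓞 c.K, ((x : c.K) : ℂ) = z := by
  constructor
  · rintro ⟨h1, h2⟩
    refine ⟨⟨⟨z, h1⟩, ?_⟩, rfl⟩
    exact (isIntegral_algHom_iff (IsScalarTower.toAlgHom ℤ c.K ℂ) (algebraMap c.K ℂ).injective).1 h2
  · rintro ⟨x, rfl⟩
    exact ⟨x.1.2, x.isIntegral_coe.map (IsScalarTower.toAlgHom ℤ c.K ℂ)⟩

lemma conj_mem {z : ℂ} (h : z ∈ OK c.K) : conj z ∈ OK c.K := by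
  obtain ⟨x, rfl⟩ := (mem_OK c).1 h
  exact (mem_OK c).2 ⟨c.cjO x, c.cj_coe x⟩

lemma io_mem (v : Fin (n + 3) → 𝓞 c.K) (i : Fin (n + 3)) : io c n v i ∈ OK c.K :=
  (mem_OK c).2 ⟨v i, rfl⟩

lemma io_single (j : Fin (n + 3)) (x : 𝓞 c.K) :
    io c n (Pi.single j x) = Pi.single j ((x : c.K) : ℂ) := by
  funext k
  change (((Pi.single j x : Fin (n + 3) → 𝓞 c.K) k : c.K) : ℂ) = _
  by_cases h : k = j
  · subst h; simp
  · simp [h]

lemma rk : finrank ℤ (Fin (n + 3) → 𝓞 c.K) = (n + 3) * 2 := by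
  rw [finrank_pi_fintype]
  simp [RingOfIntegers.rank, c.dim]

lemma rb {d : ℕ} (b : Basis (Fin d) ℤ (Fin (n + 3) → 𝓞 c.K)) :
    ∃ β : Basis (Fin d) ℝ (Fin (n + 3) → ℂ), ∀ i, β i = io c n (b i) := by
  refine ⟨basisOfTopLeSpanOfCardEqFinrank (fun i => io c n (b i)) (fun x _ => ?_) ?_,
    fun i => congrFun (coe_basisOfTopLeSpanOfCardEqFinrank ..) i⟩
  · have h : ∀ v, io c n v ∈ Submodule.span ℝ (Set.range fun i => io c n (b i)) := fun v => by
      rw [← b.sum_repr v, map_sum]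
      refine Submodule.sum_mem _ fun i _ => ?_
      rw [map_smul]
      exact zsmul_mem (Submodule.subset_span (Set.mem_range_self i)) _
    have e1 : conj ((c.δ : c.K) : ℂ) = -((c.δ : c.K) : ℂ) := by rw [← c.cj_coe, c.δ_cj]; simp
    have e2 : ((c.δ : c.K) : ℂ).re = 0 := by
      have := congrArg Complex.re e1
      simp only [Complex.conj_re, Complex.neg_re] at this
      linarith
    have e3 : ((c.δ : c.K) : ℂ).im ≠ 0 := fun e => c.δ_ne (by
      have : ((c.δ : c.K) : ℂ) = 0 := Complex.ext e2 e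
      simpa using this)
    rw [← Finset.univ_sum_single x]
    refine Submodule.sum_mem _ fun j _ => ?_
    have e : (Pi.single j (x j) : Fin (n + 3) → ℂ) = (x j).re • io c n (Pi.single j 1) +
        ((x j).im / ((c.δ : c.K) : ℂ).im) • io c n (Pi.single j c.δ) := by
      rw [io_single, io_single, ← Pi.single_smul, ← Pi.single_smul, ← Pi.single_add]
      congr 1
      apply Complex.ext <;> simp [e2, e3]
    rw [e]
    exact add_mem (Submodule.smul_mem _ _ (h _)) (Submodule.smul_mem _ _ (h _))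
  · rw [← finrank_eq_card_basis b, rk, finrank_pi_fintype]
    simp

/-- The euclidean scalar product. -/
def q (n : ℕ) : LinearMap.BilinForm ℝ (Fin (n + 3) → ℂ) :=
  LinearMap.mk₂ ℝ (fun x y => (star x ⬝ᵥ y).re) (fun x y z => by simp) (fun a x y => by simp)
    (fun x y z => by simp) (fun a x y => by simp)

lemma q_self (x : Fin (n + 3) → ℂ) : q n x x = ∑ i, ‖x i‖ ^ 2 := by
  change (star x ⬝ᵥ x).re = _
  rw [dotProduct, Complex.re_sum]
  refine Finset.sum_congr rfl fun i _ => ?_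
  rw [Pi.star_apply, Complex.star_def, ← Complex.normSq_eq_conj_mul_self, Complex.ofReal_re,
    Complex.normSq_eq_norm_sq]

lemma q_symm (x y : Fin (n + 3) → ℂ) : q n x y = q n y x := by
  change (star x ⬝ᵥ y).re = (star y ⬝ᵥ x).re
  rw [star_dotProduct, Complex.star_def, Complex.conj_re]

lemma red_g (hR : RedStmt) : ∃ D : ℝ, ∀ g : SU n,
    ∃ b : Basis (Fin ((n + 3) * 2)) ℤ (Fin (n + 3) → 𝓞 c.K),
      ∏ i, ∑ k, ‖(g.1.1 *ᵥ io c n (b i)) k‖ ^ 2 ≤ D := by
  obtain ⟨C, -, hC⟩ := hR ((n + 3) * 2)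
  let b := finBasisOfFinrankEq ℤ (Fin (n + 3) → 𝓞 c.K) (rk c)
  obtain ⟨β, hβ⟩ := rb c b
  refine ⟨C * (LinearMap.BilinForm.toMatrix β (q n)).det, fun g => ?_⟩
  let L : (Fin (n + 3) → ℂ) →ₗ[ℝ] (Fin (n + 3) → ℂ) := (toLin' g.1.1).restrictScalars ℝ
  have hL : L.det = 1 := by
    rw [LinearMap.det_restrictScalars, LinearMap.det_toLin', g.1.2, map_one]
  let Q : (Fin (n + 3) → 𝓞 c.K) →ₗ[ℤ] (Fin (n + 3) → 𝓞 c.K) →ₗ[ℤ] ℝ :=
    LinearMap.mk₂ ℤ (fun v w => q n (L (io c n v)) (L (io c n w))) (fun x y z => by simp)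
      (fun a x y => by simp only [map_zsmul, LinearMap.smul_apply]) (fun x y z => by simp)
      (fun a x y => by simp only [map_zsmul])
  have e : (Matrix.of fun i j => Q (b i) (b j)) =
      LinearMap.BilinForm.toMatrix β ((q n).comp L L) := by
    ext i j
    rw [LinearMap.BilinForm.toMatrix_apply, hβ, hβ]
    rfl
  obtain ⟨b', hb'⟩ := hC _ b Q (fun x y => q_symm _ _) (by
    refine .of_dotProduct_mulVec_pos (by ext i j; exact q_symm _ _) fun x hx => ?_
    have e1 : star x ⬝ᵥ (Matrix.of fun i j => Q (b i) (b j)) *ᵥ x =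
        q n (L (∑ i, x i • β i)) (L (∑ i, x i • β i)) := by
      simp only [map_sum, map_smul, LinearMap.sum_apply, LinearMap.smul_apply, dotProduct, mulVec,
        star_trivial, of_apply, smul_eq_mul, hβ, Finset.mul_sum]
      rw [Finset.sum_comm]
      refine Finset.sum_congr rfl fun i _ => Finset.sum_congr rfl fun j _ => ?_
      change x j * (q n (L _) (L _) * x i) = _
      ring
    have e2 : L (∑ i, x i • β i) ≠ 0 := fun e => hx (funext
      (Fintype.linearIndependent_iff.1 β.linearIndependent x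
        ((LinearMap.equivOfDetNeZero L (by rw [hL]; exact one_ne_zero)).map_eq_zero_iff.1 e)))
    obtain ⟨k, hk⟩ := Function.ne_iff.1 e2
    rw [e1, q_self]
    exact Finset.sum_pos' (fun _ _ => by positivity)
      ⟨k, Finset.mem_univ _, pow_pos (norm_pos_iff.2 hk) 2⟩)
  refine ⟨b', ?_⟩
  rw [e, LinearMap.BilinForm.toMatrix_comp β β, det_mul, det_mul, det_transpose,
    LinearMap.det_toMatrix, hL, one_mul, mul_one] at hb'
  exact (Finset.prod_congr rfl fun i _ => (q_self _).symm).trans_le hb'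

lemma le_prod {d : ℕ} {f : Fin d → ℝ} {ε : ℝ} (h0 : 0 < ε) (h : ∀ i, ε ≤ f i) (k : Fin d) :
    f k * ε ^ (d - 1) ≤ ∏ i, f i := by
  rw [← Finset.mul_prod_erase _ _ (Finset.mem_univ k)]
  refine mul_le_mul_of_nonneg_left ?_ (h0.le.trans (h k))
  have := Finset.prod_le_prod (s := Finset.univ.erase k) (f := fun _ => ε) (fun _ _ => h0.le)
    fun i _ => h i
  simpa using this

/-- The hermitian form. -/
def H (n : ℕ) : (Fin (n + 3) → ℂ) →ₗ[ℝ] (Fin (n + 3) → ℂ) →ₗ[ℝ] ℂ :=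
  LinearMap.mk₂ ℝ (fun x y => star x ⬝ᵥ Jm n ℂ *ᵥ y) (fun x y z => by simp)
    (fun a x y => by simp) (fun x y z => by simp [mulVec_add]) (fun a x y => by simp [mulVec_smul])

lemma H_eq (x y : Fin (n + 3) → ℂ) : 
    H n x y = ∑ i, conj (x i) * (sg ℂ i * y (Equiv.swap 0 1 i)) := by
  change star x ⬝ᵥ Jm n ℂ *ᵥ y = _
  simp [dotProduct, J_mulVec]

lemma H_mul (A B : Matrix (Fin (n + 3)) (Fin (n + 3)) ℂ) (x y : Fin (n + 3) → ℂ) :
    H n (A *ᵥ x) (B *ᵥ y) = star x ⬝ᵥ (Aᴴ * Jm n ℂ * B) *ᵥ y := by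
  change star (A *ᵥ x) ⬝ᵥ Jm n ℂ *ᵥ B *ᵥ y = _
  rw [star_mulVec, mulVec_mulVec, ← dotProduct_mulVec, mulVec_mulVec, ← mul_assoc]

lemma H_nd {y z : Fin (n + 3) → ℂ} (h : ∀ x, H n x y = H n x z) : y = z := by
  funext k
  have hs : sg ℂ (Equiv.swap 0 1 k) ≠ 0 := left_ne_zero_of_mul_eq_one (sg_sq _)
  refine mul_left_cancel₀ hs ?_
  have e := h (Pi.single (Equiv.swap 0 1 k) 1)
  rw [H_eq, H_eq, Finset.sum_eq_single (Equiv.swap 0 1 k), Finset.sum_eq_single (Equiv.swap 0 1 k),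
    Pi.single_eq_same, map_one, one_mul, one_mul, Equiv.swap_apply_self] at e
  · exact e
  all_goals simp +contextual [Pi.single_apply]

lemma sg_norm (i : Fin (n + 3)) : ‖sg ℂ i‖ = 1 := by
  rcases sg_cases (R := ℂ) i with h | h <;> simp [h.2]

lemma ex_gam {d : ℕ} (b b' : Basis (Fin d) ℤ (Fin (n + 3) → 𝓞 c.K))
    (h : ∀ i k, H n (io c n (b' i)) (io c n (b' k)) = H n (io c n (b i)) (io c n (b k))) :
    ∃ γ : Matrix (Fin (n + 3)) (Fin (n + 3)) ℂ, γᴴ * Jm n ℂ * γ = Jm n ℂ ∧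
      (∀ i j, γ i j ∈ OK c.K) ∧ ∀ i, γ *ᵥ io c n (b i) = io c n (b' i) := by
  obtain ⟨β, hβ⟩ := rb c b
  obtain ⟨β', hβ'⟩ := rb c b'
  let Φ := β.equiv β' (Equiv.refl _)
  have h0 : ∀ i, Φ (β i) = β' i := fun i => β.equiv_apply ..
  have h1 : ∀ x y, H n (Φ x) (Φ y) = H n x y := fun x y => by
    have : (H n).compl₁₂ Φ.toLinearMap Φ.toLinearMap = H n := LinearMap.ext_basis β β fun i k => by
      rw [LinearMap.compl₁₂_apply, LinearEquiv.coe_coe, h0, h0, hβ, hβ, hβ', hβ', h]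
    exact LinearMap.congr_fun₂ this x y
  let γ : Matrix (Fin (n + 3)) (Fin (n + 3)) ℂ := Matrix.of fun i j => Φ (Pi.single j 1) i
  have hs : ∀ j, γ *ᵥ Pi.single j 1 = Φ (Pi.single j 1) := fun j => by
    funext i; simp [γ]
  have hH : ∀ y (a : ℂ) x, H n y (a • x) = a * H n y x := fun y a x => by
    simp only [H_eq, Finset.mul_sum, Pi.smul_apply, smul_eq_mul, mul_left_comm]
  have h2 : ∀ x, γ *ᵥ x = Φ x := fun x => H_nd fun y => by
    obtain ⟨y, rfl⟩ := Φ.surjective y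
    rw [h1, pi_eq_sum_univ' x, mulVec_sum, map_sum, map_sum]
    refine Finset.sum_congr rfl fun j _ => ?_
    rw [mulVec_smul, hH, hH, hs, h1]
  refine ⟨γ, ?_, fun i j => ?_, fun i => by rw [h2, ← hβ, h0, hβ']⟩
  · ext i j
    have e := H_mul γ γ (Pi.single i 1) (Pi.single j 1)
    rw [h2, h2, h1] at e
    have e' : H n (Pi.single i 1) (Pi.single j 1) =
      star (Pi.single i (1 : ℂ) : Fin (n + 3) → ℂ) ⬝ᵥ Jm n ℂ *ᵥ Pi.single j 1 := rfl
    rw [e'] at e
    simpa using e.symm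
  · have e : (Φ.toLinearMap.restrictScalars ℤ).comp (io c n) =
        (io c n).comp (b.equiv b' (Equiv.refl _)).toLinearMap := b.ext fun i => by
      change Φ (io c n (b i)) = io c n (b.equiv b' (Equiv.refl _) (b i))
      rw [← hβ, h0, hβ', b.equiv_apply]
      rfl
    have e1 : Φ (io c n (Pi.single j 1)) = io c n _ := LinearMap.congr_fun e (Pi.single j 1)
    rw [io_single] at e1
    change Φ (Pi.single j 1) i ∈ _
    rw [show (1 : ℂ) = (((1 : 𝓞 c.K) : c.K) : ℂ) by simp, e1]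
    exact io_mem c _ _

lemma fix_det {γ : Matrix (Fin (n + 3)) (Fin (n + 3)) ℂ} (hu : γᴴ * Jm n ℂ * γ = Jm n ℂ)
    (hi : ∀ i j, γ i j ∈ OK c.K) : ∃ (γ' : SU n) (a : Fin (n + 3) → ℂ), (∀ i, ‖a i‖ = 1) ∧
      (∀ i j, γ'.1 i j ∈ OK c.K) ∧ γ'.1.1 = γ * diagonal a := by
  have hJ : (Jm n ℂ).det ≠ 0 := left_ne_zero_of_mul_eq_one (by rw [← det_mul, Jm_mul_Jm, det_one])
  have h1 : conj γ.det * γ.det = 1 := mul_right_cancel₀ hJ (by
    have := congrArg det hu
    rw [det_mul, det_mul, det_conjTranspose] at this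
    rw [one_mul, mul_right_comm]
    exact this)
  have h2 : ‖γ.det‖ = 1 := by
    have := congrArg norm h1
    rw [norm_mul, Complex.norm_conj, norm_one] at this
    exact (mul_self_eq_one_iff.1 this).resolve_right (by linarith [norm_nonneg γ.det])
  have h3 : γ.det ∈ OK c.K := by
    rw [det_apply']
    exact Subring.sum_mem _ fun σ _ => mul_mem (intCast_mem _ _) (Subring.prod_mem _ fun i _ => hi _ _)
  let a : Fin (n + 3) → ℂ := fun i => if i = 2 then conj γ.det else 1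
  have s2 : Equiv.swap (0 : Fin (n + 3)) 1 2 = 2 :=
    Equiv.swap_apply_of_ne_of_ne (Fin.ne_of_val_ne (by rw [Fin.val_two]; simp))
      (Fin.ne_of_val_ne (by rw [Fin.val_two]; simp))
  have hD : (diagonal a)ᴴ * Jm n ℂ * diagonal a = Jm n ℂ := by
    ext i j
    rw [diagonal_conjTranspose, mul_diagonal, diagonal_mul, Jm, of_apply]
    split_ifs with h
    · by_cases e : i = 2
      · simp [a, h, e, s2, mul_comm γ.det, mul_assoc, h1]
      · have : Equiv.swap 0 1 i ≠ 2 := fun e' => e ((Equiv.swap 0 1).injective (e'.trans s2.symm))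
        simp [a, h, e, this]
    · simp
  refine ⟨⟨⟨γ * diagonal a, ?_⟩, ?_⟩, a, fun i => ?_, fun i j => ?_, rfl⟩
  · rw [det_mul, det_diagonal, Finset.prod_ite_eq', if_pos (Finset.mem_univ _), mul_comm, h1]
  · change (γ * diagonal a)ᴴ * Jm n ℂ * (γ * diagonal a) = Jm n ℂ
    calc _ = (diagonal a)ᴴ * (γᴴ * Jm n ℂ * γ) * diagonal a := by
          simp only [conjTranspose_mul, mul_assoc]
      _ = _ := by rw [hu, hD]
  · simp only [a]
    split_ifs <;> simp [h2]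
  · change (γ * diagonal a) i j ∈ _
    rw [mul_diagonal]
    refine mul_mem (hi _ _) ?_
    simp only [a]
    split_ifs
    exacts [conj_mem c h3, one_mem _]

lemma cpt (R : ℝ) : IsCompact {h : SU n | ∀ i j, ‖h.1 i j‖ ≤ R} := by
  have e1 : Topology.IsClosedEmbedding
      (Subtype.val : SpecialLinearGroup (Fin (n + 3)) ℂ → Matrix (Fin (n + 3)) (Fin (n + 3)) ℂ) :=
    (isClosed_eq continuous_id.matrix_det continuous_const).isClosedEmbedding_subtypeVal
  have e2 := (e1.comp (suClosed n).isClosedEmbedding_subtypeVal).isCompact_preimage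
    (isCompact_univ_pi fun _ : Fin (n + 3) => isCompact_univ_pi fun _ : Fin (n + 3) =>
      isCompact_closedBall (0 : ℂ) R)
  refine (congrArg IsCompact (Set.ext fun h => ?_)).mp e2
  exact ⟨fun e i j => mem_closedBall_zero_iff.1 (e i trivial j trivial),
    fun e i _ j _ => mem_closedBall_zero_iff.2 (e i j)⟩

lemma ent {d : ℕ} (b : Basis (Fin d) ℤ (Fin (n + 3) → 𝓞 c.K)) (R : ℝ) : ∃ R' : ℝ,
    ∀ h : Matrix (Fin (n + 3)) (Fin (n + 3)) ℂ, (∀ i k, ‖(h *ᵥ io c n (b i)) k‖ ≤ R) →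
      ∀ i j, ‖h i j‖ ≤ R' := by
  refine ⟨∑ j, ∑ k, |(b.repr (Pi.single j 1) k : ℝ)| * |R|, fun h hh i j => ?_⟩
  have e : h i j = ∑ k, b.repr (Pi.single j 1) k • (h *ᵥ io c n (b k)) i := by
    have e1 := congrArg (fun v => (h *ᵥ io c n v) i) (b.sum_repr (Pi.single j 1))
    simp only [map_sum, map_zsmul, mulVec_sum, mulVec_smul, Finset.sum_apply, Pi.smul_apply] at e1
    rw [e1, io_single]
    simp
  refine le_trans ?_ (Finset.single_le_sum (f := fun j => ∑ k, |(b.repr (Pi.single j 1) k : ℝ)| * |R|)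
    (fun _ _ => by positivity) (Finset.mem_univ j))
  rw [e]
  refine norm_sum_le_of_le _ fun k _ => ?_
  rw [norm_zsmul ℝ, Real.norm_eq_abs]
  exact mul_le_mul_of_nonneg_left ((hh k i).trans (le_abs_self R)) (abs_nonneg _)

lemma fin_OK (B : ℝ) : {z : ℂ | z ∈ OK c.K ∧ ‖z‖ ≤ B}.Finite := by
  let b := finBasisOfFinrankEq ℤ (Fin (0 + 3) → 𝓞 c.K) (rk c)
  obtain ⟨β, hβ⟩ := rb c b
  refine ((ZSpan.setFinite_inter β (Metric.isBounded_closedBall (x := 0) (r := B))).preimage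
    (f := fun (z : ℂ) (_ : Fin (0 + 3)) => z) (Function.const_injective.injOn)).subset ?_
  rintro z ⟨h1, h2⟩
  obtain ⟨x, rfl⟩ := (mem_OK c).1 h1
  refine ⟨by simpa using h2, ?_⟩
  change io c 0 (fun _ => x) ∈ Submodule.span ℤ (Set.range β)
  rw [← b.sum_repr fun _ => x, map_sum]
  refine Submodule.sum_mem _ fun i _ => ?_
  rw [map_smul, ← hβ]
  exact Submodule.smul_mem _ _ (Submodule.subset_span ⟨i, rfl⟩)

end Mahler

open Mahler

theorem mahler (hR : RedStmt) (hD : DiscStmt) : MahlerStmt := by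
  intro n p _ c
  obtain ⟨D, hb⟩ := red_g c (n := n) hR
  choose b hb using hb
  have h0 : ∀ g i, (fun k => (b g i k : c.K)) ≠ 0 := fun g i e => (b g).ne_zero i
    (funext fun k => by simpa using congrFun e k)
  refine ⟨fun ε hε => ?_, max 1 D, fun g => ?_⟩
  · let R := √(D / ε ^ ((n + 3) * 2 - 1))
    let T : Set (SU n) := {g | ∀ i k, ‖(g.1.1 *ᵥ io c n (b g i)) k‖ ≤ R}
    let s : SU n → Fin ((n + 3) * 2) → Fin ((n + 3) * 2) → ℂ := fun g i k =>
      H n (io c n (b g i)) (io c n (b g k))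
    have hs : (s '' T).Finite := by
      refine (Set.Finite.pi' fun _ => Set.Finite.pi' fun _ =>
        fin_OK c (∑ _i : Fin (n + 3), R * R)).subset ?_
      rintro _ ⟨g, hg, rfl⟩ i k
      refine ⟨?_, ?_⟩
      · simp only [s, H_eq]
        exact Subring.sum_mem _ fun l _ => mul_mem (conj_mem c (io_mem c _ _))
          (mul_mem (intCast_mem _ _) (io_mem c _ _))
      · have e : s g i k = H n (g.1.1 *ᵥ io c n (b g i)) (g.1.1 *ᵥ io c n (b g k)) := by
          rw [H_mul, show g.1.1ᴴ * Jm n ℂ * g.1.1 = Jm n ℂ from g.2]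
          rfl
        rw [e, H_eq]
        refine norm_sum_le_of_le _ fun l _ => ?_
        rw [norm_mul, Complex.norm_conj, norm_mul, sg_norm, one_mul]
        exact mul_le_mul (hg _ _) (hg _ _) (norm_nonneg _) (Real.sqrt_nonneg _)
    obtain ⟨T', -, hT', hT⟩ := Set.exists_subset_image_finite_and.1
      (show ∃ t ⊆ s '' T, t.Finite ∧ s '' T ⊆ t from ⟨_, subset_rfl, hs, subset_rfl⟩)
    choose R' hR' using fun g => ent c (b g) R
    refine ⟨_, hT'.isCompact_biUnion fun g _ => cpt (R' g), fun g hg => ?_⟩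
    have hgT : g ∈ T := fun i k => by
      have e := (le_prod hε (fun i => hg _ (h0 g i) fun k => (b g i k).isIntegral_coe) i).trans (hb g)
      refine Real.le_sqrt_of_sq_le (le_trans ?_ ((le_div_iff₀ (by positivity)).2 e))
      exact Finset.single_le_sum (f := fun k => ‖(g.1.1 *ᵥ io c n (b g i)) k‖ ^ 2)
        (fun _ _ => by positivity) (Finset.mem_univ k)
    obtain ⟨g', hg', e⟩ := hT ⟨g, hgT, rfl⟩
    obtain ⟨γ, h1, h2, h3⟩ := ex_gam c (b g') (b g) fun i k => (congrFun₂ e i k).symm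
    obtain ⟨γ', a, h4, h5, h6⟩ := fix_det c h1 h2
    refine ⟨γ', ((hD n p c).2.2.2.2.1 γ').2 h5, Set.mem_biUnion hg' fun i j => ?_⟩
    change ‖(g.1.1 * γ'.1.1) i j‖ ≤ _
    rw [h6, ← mul_assoc, mul_diagonal, norm_mul, h4, mul_one]
    refine hR' g' _ (fun i k => ?_) i j
    rw [← mulVec_mulVec, h3]
    exact hgT i k
  · by_contra! h
    have h1 := fun i => h _ (h0 g i) fun k => (b g i k).isIntegral_coe
    have e := (le_prod one_pos (fun i => (le_max_left _ _).trans (h1 i).le) ⟨0, by omega⟩).trans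
      (hb g)
    rw [one_pow, mul_one] at e
    exact ((le_max_right _ _).trans_lt (h1 _)).not_ge e

end Pool.Agent.Lib.MP_9177b7_ag.B.U
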