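import Pool.Agent.Lib.MP_9177b7_ag.U.St
import Pool.Agent.Lib.MP_9177b7_ag.B.Meas

/-!
The measure attached to a CM datum.
-/

open NumberField Matrix MeasureTheory Filter Topology
open scoped nonZeroDivisors ComplexConjugate ENNReal BoundedContinuousFunction

noncomputable section

namespace Pool.Agent.Lib.MP_9177b7_ag.B.U

variable [Sg]

namespace MeasU

variable {n p : ℕ} [Fact p.Prime] {c : Ctx p}

theorem tw_mul (hF : FrameStmt) (D : Dat n c) (P b : Ideal (𝓞 D.L)) :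
    D.tw (P * b) = (P : D.FI) * (D.cF P)⁻¹ * D.tw b := by
  obtain ⟨-, -, -, -, -, -, -, -, -, -, -, h, -⟩ := hF n p c D
  simp only [Dat.tw, ← h, FractionalIdeal.coeIdeal_mul, map_mul, mul_inv]
  ring

/-- The neighbour of a class and its lattice. -/
theorem nbr (hP : PadStmt) (hF : FrameStmt) (hA : AmbStmt) (hI : IsoStmt) (D : Dat n c)
    (S : D.Sys) (i l : Fin (n + 3)) : ∃ σ : D.Cl → D.Cl, Function.Injective σ ∧ ∀ x, ∃ u : D.L,
      u * D.bar u = 1 ∧ D.tw (S.b (σ x)) =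
        FractionalIdeal.spanSingleton _ u * D.quo l i * (D.cF (D.quo l i))⁻¹ * D.tw (S.b x) := by
  have nz : ∀ r, Pp (D.ψ r) ≠ ⊥ := fun r e => by
    have := ((hP D.L p).1 (D.ψ r)).2.2.1
    rw [e, Ideal.absNorm_bot] at this
    exact (Fact.out : p.Prime).ne_zero this.symm
  let P : Fin (n + 3) → (Ideal (𝓞 D.L))⁰ := fun r =>
    ⟨Pp (D.ψ r), mem_nonZeroDivisors_of_ne_zero (nz r)⟩
  have cm : (P l).1.comap (algebraMap (𝓞 c.K) (𝓞 D.L)) =
      (P i).1.comap (algebraMap (𝓞 c.K) (𝓞 D.L)) := by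
    ext x
    change ‖D.ψ l (algebraMap c.K D.L x)‖ < 1 ↔ ‖D.ψ i (algebraMap c.K D.L x)‖ < 1
    rw [D.ψ_j, D.ψ_j]
  choose σ hσ using (hI n p c D).2 (P l) (P i) (D.H_P l i _ _ rfl rfl)
    ((hP D.L p).1 _).2.2.2.1 ((hP D.L p).1 _).2.2.2.1 cm
  refine ⟨σ, fun x y e => Subtype.ext ?_, fun x => ?_⟩
  · have := hσ x
    rw [e, hσ y] at this
    exact (mul_right_cancel (mul_right_cancel this)).symm
  · obtain ⟨C, hC⟩ := hA n p c
    obtain ⟨u, hu, e⟩ := ((hC D).1 (P l * S.b x) (P i * S.b (σ x))).2 (by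
      rw [map_mul, map_mul, S.hb, S.hb, hσ]
      convert D.Amb.one_mem using 1
      rw [inv_mul_eq_one, mul_comm (ClassGroup.mk0 (P i)), inv_mul_cancel_right, mul_comm])
    refine ⟨u, hu, ?_⟩
    rw [Submonoid.coe_mul, Submonoid.coe_mul, tw_mul hF, tw_mul hF] at e
    have n1 : ∀ r, ((P r).1 : D.FI) ≠ 0 := fun r => FractionalIdeal.coeIdeal_ne_zero.2 (nz r)
    have n2 : ∀ r, D.cF ((P r).1 : D.FI) ≠ 0 := fun r => (map_ne_zero D.cF).2 (n1 r)
    have q : D.quo l i = ((P l).1 : D.FI) * ((P i).1 : D.FI)⁻¹ := rfl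
    rw [q, map_mul, map_inv₀]
    have a1 := n1 i
    have a2 := n2 i
    have a3 := n2 l
    calc _ = (((P i).1 : D.FI)⁻¹ * D.cF (P i).1) *
          (((P i).1 : D.FI) * (D.cF (P i).1)⁻¹ * D.tw (S.b (σ x))) := by field_simp
      _ = _ := by rw [e]; field_simp

end MeasU

open MeasU B.Meas in
theorem meas (hP : PadStmt) (hF : FrameStmt) (hA : AmbStmt) (hO : OrbStmt) (hI : IsoStmt)
    (hL : LiftStmt) (hM : MoveStmt) (hJ : ProjStmt) (hT : TubeStmt) : MeasStmt := by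
  intro n p _ c _ π hπ hπ1 D S
  classical
  have : Fintype (Units.torsion c.K) := Fintype.ofFinite _
  obtain ⟨⟨M, hM0, hMc, hMd⟩, L2⟩ := hL n p
  obtain ⟨μ, hμ, h1, h2⟩ := Cond.exists_haar M (hM0 ▸ hMc)
  have hmem : ∀ g, g ∈ M ↔ g ∈ M0 n p := fun g => by rw [← hM0]; rfl
  simp only [hmem] at h1 h2
  obtain ⟨M1, M2⟩ := hM n p c D
  have fr : ∀ y : D.Cl × Units.torsion c.K, D.Fr (D.tw (S.b y.1)) (D.rot (S.e y.1) y.2) :=
    fun y => M1 _ _ _ (S.he _)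
  choose g hg using fun y => (L2 c D _ _ (fr y)).1
  have FL := (hF n p c D).2.2.2.2.2.2.2.2.2.2.2.2.2.2.2.2.2.2
  choose v hv using fun y => (FL _ _ (fr y)).2.2.2.2.2.2.2.1
  have orbz := fun ζ : Units.torsion c.K => hO n p c D
    ⟨S.b, fun x => D.rot (S.e x) ζ, S.hb, fun x => fr (x, ζ)⟩ (fun x => v (x, ζ))
    fun x => hv (x, ζ)
  have := (orbz 1).2.1
  have tz : (Fintype.card (Units.torsion c.K) : ℝ) ≠ 0 := Nat.cast_ne_zero.2 Fintype.card_ne_zero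
  refine ⟨avg (c.Gp n) μ g, avg_prob _ _ _, ainv (c.sp n) _ fun i l hk hil => ?_, (orbz 1).1,
    fun f => ?_, fun I c₀ k R => ?_⟩
  · obtain ⟨σ, hσ, hu⟩ := nbr hP hF hA hI D S i l
    choose u hu eu using hu
    choose η hη using fun x => M2 i l _ (S.e x) (S.e (σ x)) (u x) _ hk hil rfl (hu x) (S.he x)
      (eu x ▸ S.he (σ x))
    refine avg_move (d := ((dgp p _ hk, 1) : GG n p)) (fun y => (σ y.1, y.2 * η y.1)) ?_ fun y => ?_
    · rintro ⟨x, ζ⟩ ⟨x', ζ'⟩ e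
      obtain ⟨e1, e2⟩ := Prod.mk.inj e
      obtain rfl := hσ e1
      exact Prod.ext rfl (mul_right_cancel e2)
    · obtain ⟨m, hm, γ, hγ, e⟩ := hη y.1 y.2 _ _ (hg y) (hg (σ y.1, y.2 * η y.1))
      exact orb_move h1 h2 (fun m hm => hMd m hm _ hk) hm hγ e
  · obtain ⟨-, hpr, J3⟩ := hJ n p c
    have := avg_int h1 g (f.compContinuous ⟨fun x => proj n c.K (π x), hpr.comp hπ⟩)
      (fun y => f (Quot.mk _ (v y))) fun y m hm => by
        have l := ((L2 c D _ _ (fr y)).2 _ (hg y)).1 m hm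
        change f (proj n c.K (π _)) = _
        rw [hπ1 _ l.1, J3 _ (v y) ((hv y).trans ((L2 c D _ _ (fr y)).2 _ l).2.1)]
    refine Eq.trans ?_ this.symm
    have e : ∀ ζ, ∑ x, f (Quot.mk _ (v (x, ζ))) =
        mean D.orb f * Fintype.card D.Cl := fun ζ => by
      rw [(orbz ζ).2.2 f, div_mul_cancel₀ _ (Nat.cast_ne_zero.2 Fintype.card_ne_zero)]
    have cz : (Fintype.card D.Cl : ℝ) ≠ 0 := Nat.cast_ne_zero.2 Fintype.card_ne_zero
    rw [Fintype.sum_prod_type_right]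
    simp only [e, Finset.sum_const, Finset.card_univ, nsmul_eq_mul, Fintype.card_prod, Nat.cast_mul]
    field_simp
  · obtain ⟨T1, T2⟩ := (hT n p c).1 I c₀ k R
    refine (avg_le h1 g T1
      ((Finset.univ.filter fun x => D.Ev (D.tw (S.b x)) I c₀ k R) ×ˢ Finset.univ)
      fun y m hm hy => ?_).trans (le_of_eq ?_)
    · have l := ((L2 c D _ _ (fr y)).2 _ (hg y)).1 m hm
      simpa using ((L2 c D _ _ (fr y)).2 _ l).2.2 I c₀ k R ((T2 _).1 hy)
    · rw [Dat.pr, ENNReal.ofReal_div_of_pos (Nat.cast_pos.2 Fintype.card_pos),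
        ENNReal.ofReal_natCast, ENNReal.ofReal_natCast, Finset.card_product, Finset.card_univ,
        Fintype.card_prod, Nat.cast_mul, Nat.cast_mul, mul_comm, ← div_eq_mul_inv,
        ENNReal.mul_div_mul_right _ _ (by simp) (by simp)]

end Pool.Agent.Lib.MP_9177b7_ag.B.U
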