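import Mathlib

/-!
Two frames with the same majorant are proportional.
-/

open Matrix
open scoped ComplexConjugate

noncomputable section

namespace Pool.Agent.Lib.MP_9177b7_ag.B.U.Orb0

variable {ι : Type} [Fintype ι] [DecidableEq ι]

/-- A matrix that preserves a diagonal form and its majorant respects the signs. -/
theorem entry_zero (A A' B : Matrix ι ι ℂ) (d : ι → ℝ) (hB : B * A = 1)
    (h1 : A'ᴴ * diagonal (fun i => (d i : ℂ)) * A' = Aᴴ * diagonal (fun i => (d i : ℂ)) * A)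
    (h2 : A'ᴴ * diagonal (fun i => ((|d i| : ℝ) : ℂ)) * A' =
      Aᴴ * diagonal (fun i => ((|d i| : ℝ) : ℂ)) * A) {i j : ι} (hi : 0 < d i) (hj : d j < 0) :
    (A' * B) i j = 0 := by
  have hB' : A * B = 1 := mul_eq_one_comm.1 hB
  have key : ∀ E : Matrix ι ι ℂ, A'ᴴ * E * A' = Aᴴ * E * A → (A' * B)ᴴ * E * (A' * B) = E :=
    fun E h => by
      calc _ = Bᴴ * (A'ᴴ * E * A') * B := by simp only [conjTranspose_mul, mul_assoc]
        _ = (A * B)ᴴ * E * (A * B) := by rw [h]; simp only [conjTranspose_mul, mul_assoc]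
        _ = E := by rw [hB', conjTranspose_one, one_mul, mul_one]
  have ent : ∀ f : ι → ℝ, ((A' * B)ᴴ * diagonal (fun i => (f i : ℂ)) * (A' * B)) j j =
      ((∑ l, f l * ‖(A' * B) l j‖ ^ 2 : ℝ) : ℂ) := fun f => by
    generalize A' * B = T
    rw [mul_apply]
    push_cast
    refine Finset.sum_congr rfl fun l _ => ?_
    rw [mul_diagonal, conjTranspose_apply, ← Complex.conj_mul', Complex.star_def]
    ring
  have a1 := congrFun (congrFun (key _ h1) j) j
  have a2 := congrFun (congrFun (key _ h2) j) j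
  rw [ent, diagonal_apply_eq] at a1
  rw [ent fun i => |d i|, diagonal_apply_eq] at a2
  have b1 := Complex.ofReal_injective a1
  have b2 := Complex.ofReal_injective a2
  have s : ∑ l, (d l + |d l|) * ‖(A' * B) l j‖ ^ 2 = 0 := by
    simp only [add_mul, Finset.sum_add_distrib, b1, b2, abs_of_neg hj, add_neg_cancel]
  have z := (Finset.sum_eq_zero_iff_of_nonneg fun l _ =>
    mul_nonneg (by linarith [neg_abs_le (d l)]) (sq_nonneg _)).1 s i (Finset.mem_univ _)
  have : 0 < d i + |d i| := by positivity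
  simpa [this.ne'] using z

/-- One vanishing entry off the diagonal makes two frames proportional. -/
theorem prop_of {K L : Type} [Field K] [Field L] [Algebra K L] [Algebra K ℂ]
    (Φ : ι ≃ (L →ₐ[K] ℂ))
    (gal : ∀ π : Equiv.Perm (L →ₐ[K] ℂ), ∃ σ : ℂ ≃ₐ[K] ℂ, ∀ ψ x, π ψ x = σ (ψ x))
    (e e' du : ι → L)
    (hdu : (Matrix.of fun i k => Φ i (du k))ᵀ * (Matrix.of fun i k => Φ i (e k)) = 1)
    {i j : ι} (hij : i ≠ j)
    (h0 : ((Matrix.of fun i k => Φ i (e' k)) * (Matrix.of fun i k => Φ i (du k))ᵀ) i j = 0) :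
    ∃ z : ℂ, ∀ k, Φ i (e' k) = z * Φ i (e k) := by
  classical
  set T := (Matrix.of fun i k => Φ i (e' k)) * (Matrix.of fun i k => Φ i (du k))ᵀ with hT
  have off : ∀ l, l ≠ i → T i l = 0 := fun l hl => by
    obtain ⟨σ, hσ⟩ := gal (Equiv.swap (Φ j) (Φ l))
    have s1 : ∀ x, σ (Φ i x) = Φ i x := fun x => by
      rw [← hσ, Equiv.swap_apply_of_ne_of_ne (Φ.injective.ne hij) (Φ.injective.ne hl.symm)]
    have s2 : ∀ x, σ (Φ j x) = Φ l x := fun x => by rw [← hσ, Equiv.swap_apply_left]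
    have := congrArg σ h0
    rw [map_zero] at this
    rw [← this]
    simp only [hT, mul_apply, of_apply, transpose_apply, map_sum, map_mul, s1, s2]
  refine ⟨T i i, fun k => ?_⟩
  have e1 : T * (Matrix.of fun i k => Φ i (e k)) = Matrix.of fun i k => Φ i (e' k) := by
    rw [hT, mul_assoc, hdu, mul_one]
  have e2 := congrFun (congrFun e1 i) k
  rw [mul_apply, Finset.sum_eq_single i (fun l _ hl => by rw [off l hl, zero_mul])
    (fun h => (h (Finset.mem_univ _)).elim)] at e2
  exact e2.symm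

end Pool.Agent.Lib.MP_9177b7_ag.B.U.Orb0
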