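import Pool.Agent.Lib.MP_9177b7_ag.U.St
import Pool.Agent.Lib.MP_9177b7_ag.U.Orb0

/-!
The mean over the orbit of a CM point is the mean over the admissible ideal classes.
-/

open NumberField Matrix
open scoped nonZeroDivisors ComplexConjugate

noncomputable section

namespace Pool.Agent.Lib.MP_9177b7_ag.B.U

namespace OrbU

/-- A map all of whose nonempty fibres have the same size transports means. -/
theorem mean_range {X Y : Type} [Fintype X] (π : X → Y) (A : ℕ) (hA : A ≠ 0)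
    (h : ∀ x, Nat.card {y // π y = π x} = A) (f : Y → ℝ) :
    mean (Set.range π) f = (∑ x, f (π x)) / Fintype.card X := by
  classical
  have e : Set.range π = (Finset.univ.image π : Finset Y) := by simp
  have hf : ∀ o ∈ Finset.univ.image π, (Finset.univ.filter fun y => π y = o).card = A := by
    intro o ho
    obtain ⟨x, -, rfl⟩ := Finset.mem_image.1 ho
    rw [← h x, Nat.card_eq_fintype_card, Fintype.card_subtype]
  have h1 : ∑ x, f (π x) = A * ∑ o ∈ Finset.univ.image π, f o := by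
    rw [Finset.sum_comp f π, Finset.mul_sum]
    exact Finset.sum_congr rfl fun o ho => by rw [hf o ho, nsmul_eq_mul]
  have h2 : Fintype.card X = A * (Finset.univ.image π).card := by
    rw [← Finset.card_univ, Finset.card_eq_sum_card_image π, Finset.sum_congr rfl hf,
      Finset.sum_const, smul_eq_mul, mul_comm]
  rw [mean, e, finsum_mem_coe_finset, Set.ncard_coe_finset, h1, h2, Nat.cast_mul,
    mul_div_mul_left _ _ (Nat.cast_ne_zero.2 hA)]

variable [Sg] {n : ℕ}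

/-- The adjoint of a matrix for the form `J`. -/
def adj (g : Matrix (Fin (n + 3)) (Fin (n + 3)) ℂ) : Matrix (Fin (n + 3)) (Fin (n + 3)) ℂ :=
  Jm n ℂ * gᴴ * Jm n ℂ

theorem adj_mul {g : Matrix (Fin (n + 3)) (Fin (n + 3)) ℂ} (h : gᴴ * Jm n ℂ * g = Jm n ℂ) :
    adj g * g = 1 := by
  rw [adj, mul_assoc, mul_assoc, ← mul_assoc gᴴ, h, Jm_mul_Jm]

theorem adj_conj {g : Matrix (Fin (n + 3)) (Fin (n + 3)) ℂ} (h : gᴴ * Jm n ℂ * g = Jm n ℂ)
    (Q : Matrix (Fin (n + 3)) (Fin (n + 3)) ℂ) : (adj g)ᴴ * (gᴴ * Q * g) * adj g = Q := by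
  have e : g * adj g = 1 := mul_eq_one_comm.1 (adj_mul h)
  calc _ = (g * adj g)ᴴ * Q * (g * adj g) := by simp only [conjTranspose_mul, mul_assoc]
    _ = _ := by rw [e, conjTranspose_one, one_mul, mul_one]

variable {p : ℕ} [Fact p.Prime] (c : Ctx p)

omit [Sg] in
theorem mem_OK (x : c.K) : (x : ℂ) ∈ OK c.K ↔ IsIntegral ℤ x := by
  have : IsIntegral ℤ (x : ℂ) ↔ IsIntegral ℤ x :=
    isIntegral_algHom_iff (algebraMap c.K ℂ).toIntAlgHom (algebraMap c.K ℂ).injective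
  rw [← this]
  exact ⟨fun h => h.2, fun h => ⟨x.2, h⟩⟩

omit [Sg] in
theorem conj_OK {z : ℂ} (h : z ∈ OK c.K) : conj z ∈ OK c.K := by
  refine ⟨?_, IsIntegral.map (starRingEnd ℂ).toIntAlgHom h.2⟩
  have := c.cj_coe ⟨z, h.1⟩
  change conj ((⟨z, h.1⟩ : c.K) : ℂ) ∈ c.K
  rw [← this]
  exact (c.cj _).2

theorem adj_OK {g : Matrix (Fin (n + 3)) (Fin (n + 3)) ℂ} (h : ∀ i j, g i j ∈ OK c.K) (i j) :
    adj g i j ∈ OK c.K := by
  rw [adj, mul_J, J_mul, conjTranspose_apply]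
  exact mul_mem (mul_mem (intCast_mem _ _) (conj_OK c (h _ _))) (intCast_mem _ _)

/-- The relation that defines the quotient. -/
abbrev Rel (v w : Cone n) : Prop :=
  ∃ g : Matrix (Fin (n + 3)) (Fin (n + 3)) ℂ,
    gᴴ * Jm n ℂ * g = Jm n ℂ ∧ (∀ i j, g i j ∈ OK c.K) ∧ w.1 = gᴴ * v.1 * g

theorem rel_equiv : Equivalence (Rel (n := n) c) where
  refl v := ⟨1, by simp, fun i j => by
    rw [one_apply]
    split_ifs
    exacts [one_mem _, zero_mem _], by simp⟩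
  symm := by
    rintro v w ⟨g, h, hi, e⟩
    refine ⟨adj g, ?_, adj_OK c hi, by rw [e, adj_conj h]⟩
    have := adj_conj h (Jm n ℂ)
    rwa [h] at this
  trans := by
    rintro u v w ⟨g, h, hi, e⟩ ⟨g', h', hi', e'⟩
    refine ⟨g * g', ?_, fun i j => ?_, ?_⟩
    · calc _ = g'ᴴ * (gᴴ * Jm n ℂ * g) * g' := by simp only [conjTranspose_mul, mul_assoc]
        _ = _ := by rw [h, h']
    · rw [mul_apply]
      exact sum_mem fun k _ => mul_mem (hi _ _) (hi' _ _)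
    · rw [e', e]
      simp only [conjTranspose_mul, mul_assoc]

theorem mk_eq (v w : Cone n) : (Quot.mk _ v : SS n c.K) = Quot.mk _ w ↔ Rel c v w :=
  Quot.eq.trans (rel_equiv c).eqvGen_iff

theorem uni_iff (γ : Matrix (Fin (n + 3)) (Fin (n + 3)) c.K) :
    c.Uni γ ↔ (γ.map (algebraMap c.K ℂ))ᴴ * Jm n ℂ * γ.map (algebraMap c.K ℂ) = Jm n ℂ := by
  have hJ : (Jm n c.K).map (algebraMap c.K ℂ) = Jm n ℂ := Jm_map _
  have hγ : ((γ.map c.cj)ᵀ).map (algebraMap c.K ℂ) = (γ.map (algebraMap c.K ℂ))ᴴ := by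
    ext i j
    exact c.cj_coe _
  rw [← hγ, ← hJ, ← Matrix.map_mul, ← Matrix.map_mul, Ctx.Uni]
  exact (Matrix.map_injective (algebraMap c.K ℂ).injective).eq_iff.symm

variable {c} (D : Dat n c)

theorem phi_bar (φ : D.L →ₐ[c.K] ℂ) (x : D.L) : φ (D.bar x) = conj (φ x) :=
  IsCMField.complexEmbedding_complexConj D.L φ.toRingHom x

theorem sand (d : Fin (n + 3) → ℂ) (e : Fin (n + 3) → D.L) (k l : Fin (n + 3)) :
    ((D.Φm e)ᴴ * diagonal d * D.Φm e) k l = ∑ i, d i * (conj (D.Φ i (e k)) * D.Φ i (e l)) := by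
  rw [mul_apply]
  refine Finset.sum_congr rfl fun i _ => ?_
  rw [mul_diagonal, conjTranspose_apply, Dat.Φm, of_apply, of_apply, Complex.star_def]
  ring

theorem maj_eq (e : Fin (n + 3) → D.L) :
    maj n c.K D.lam e = (D.Φm e)ᴴ * diagonal (fun i => (‖D.Φ i D.lam‖ : ℂ)) * D.Φm e := by
  ext k l
  rw [sand, maj, of_apply, ← D.Φ.sum_comp]

theorem maj_mul {u : D.L} (hu : u * D.bar u = 1) (e : Fin (n + 3) → D.L) :
    maj n c.K D.lam (fun i => u * e i) = maj n c.K D.lam e := by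
  ext k l
  simp only [maj, of_apply, map_mul]
  refine Finset.sum_congr rfl fun φ _ => ?_
  have := congrArg φ hu
  rw [map_mul, map_one, phi_bar] at this
  linear_combination (‖φ D.lam‖ : ℂ) * (conj (φ (e k)) * φ (e l)) * this

theorem maj_mat (γ : Matrix (Fin (n + 3)) (Fin (n + 3)) c.K) (e : Fin (n + 3) → D.L) :
    maj n c.K D.lam (fun k => ∑ i, algebraMap c.K D.L (γ i k) * e i) =
      (γ.map (algebraMap c.K ℂ))ᴴ * maj n c.K D.lam e * γ.map (algebraMap c.K ℂ) := by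
  have : D.Φm (fun k => ∑ i, algebraMap c.K D.L (γ i k) * e i) =
      D.Φm e * γ.map (algebraMap c.K ℂ) := by
    ext i k
    simp only [Dat.Φm, mul_apply, of_apply, map_apply, map_sum, map_mul, AlgHom.commutes, mul_comm]
  rw [maj_eq, maj_eq, this]
  simp only [conjTranspose_mul, mul_assoc]

/-- A frame determines its lattice. -/
theorem lat_eq {a a' : D.FI} {e : Fin (n + 3) → D.L} (h : D.Fr a e) (h' : D.Fr a' e) : a = a' :=
  FractionalIdeal.ext fun x => (h.2 x).trans (h'.2 x).symm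

theorem ne_zero {a : D.FI} {e : Fin (n + 3) → D.L} (h : D.Fr a e) : e 0 ≠ 0 := by
  intro h0
  have := h.1 0 1
  rw [h0, mul_zero, zero_mul, map_zero, Jm_apply, Equiv.swap_apply_left, if_pos rfl,
    sg_zero] at this
  exact zero_ne_one this

theorem gram (hF : FrameStmt) {a : D.FI} {e : Fin (n + 3) → D.L} (h : D.Fr a e) :
    (D.Φm e)ᴴ * diagonal (fun i => D.Φ i D.lam) * D.Φm e = (Jm n ℂ)ᵀ := by
  ext k l
  have e1 := (hF n p c D).2.2.2.1 (D.lam * e l * D.bar (e k))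
  rw [h.1] at e1
  rw [sand, transpose_apply, ← Jm_map (algebraMap c.K ℂ), map_apply]
  refine Eq.trans (Finset.sum_congr rfl fun i _ => ?_) e1.symm
  rw [map_mul, map_mul, phi_bar]
  ring

/-- Frames of isometric lattices give equivalent points. -/
theorem rel_of (hF : FrameStmt) {a : D.FI} {e e' : Fin (n + 3) → D.L} {u : D.L}
    (hu : u * D.bar u = 1) (h : D.Fr a e) (h' : D.Fr (FractionalIdeal.spanSingleton _ u * a) e')
    {v w : Cone n} (hv : v.1 = maj n c.K D.lam e) (hw : w.1 = maj n c.K D.lam e') : Rel c v w := by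
  obtain ⟨-, -, -, -, -, -, -, -, -, -, -, -, -, -, -, -, -, -, H⟩ := hF n p c D
  have h1 := (H a e h).2.2.2.2.2.2.2.2.1 u hu
  obtain ⟨-, -, hx, hd, -, -, -, -, -, -, hU⟩ := H _ _ h1
  refine ⟨_, (uni_iff c _).1 (hU _ _ h'), fun i k => ?_, ?_⟩
  · obtain ⟨y, hy⟩ := (h1.2 _).1 ((H _ _ h').2.1 k)
    refine (mem_OK c _).2 ?_
    rw [of_apply, hy, Finset.sum_mul, map_sum]
    refine IsIntegral.sum _ fun l _ => ?_
    rw [mul_assoc, ← Algebra.smul_def, map_smul, hd, smul_eq_mul]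
    split_ifs
    · simpa using (y l).isIntegral_coe
    · simpa using isIntegral_zero
  · rw [hv, hw, ← maj_mul D hu e, ← maj_mat]
    congr 1
    funext k
    exact hx _

/-- Two frames with the same majorant are proportional. -/
theorem prop (hF : FrameStmt) {a a' : D.FI} {e e' : Fin (n + 3) → D.L} (h : D.Fr a e)
    (h' : D.Fr a' e') (hm : maj n c.K D.lam e' = maj n c.K D.lam e) :
    ∃ z : ℂ, ∀ k, D.Φ 0 (e' k) = z * D.Φ 0 (e k) := by
  have g1 := (gram D hF h').trans (gram D hF h).symm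
  obtain ⟨-, -, -, -, -, -, -, -, -, -, -, -, -, -, -, -, hs, -, H⟩ := hF n p c D
  have hd := (H a e h).2.2.2.2.2.2.1
  have r1 : (fun i => D.Φ i D.lam) = fun i => (((D.Φ i D.lam).re : ℝ) : ℂ) :=
    funext fun i => Complex.ext rfl (hs i).1
  have r2 : (fun i => (‖D.Φ i D.lam‖ : ℂ)) = fun i => ((|(D.Φ i D.lam).re| : ℝ) : ℂ) :=
    funext fun i => by rw [congrFun r1 i, Complex.norm_real, Complex.ofReal_re, Real.norm_eq_abs]
  rw [maj_eq, maj_eq, r2] at hm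
  rw [r1] at g1
  have n0 : ¬ Ng (0 : Fin (n + 3)) := by
    rintro (h0 | h0)
    · exact zero_ne_one h0
    · change Sg.s 0 = -1 at h0
      rw [Sg.s0] at h0
      exact absurd h0 (by decide)
  exact Orb0.prop_of D.Φ D.sp.gal e e' (D.du e) hd zero_ne_one
    (Orb0.entry_zero _ _ _ (fun i => (D.Φ i D.lam).re) hd g1 hm ((hs 0).2 n0)
      ((D.Φ_neg 1).2 (Or.inl rfl)))

/-- Equivalent points come from isometric lattices. -/
theorem of_rel (hF : FrameStmt) {a a' : D.FI} {e e' : Fin (n + 3) → D.L} (h : D.Fr a e)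
    (h' : D.Fr a' e') {v w : Cone n} (hv : v.1 = maj n c.K D.lam e)
    (hw : w.1 = maj n c.K D.lam e') (hr : Rel c v w) :
    ∃ u : D.L, u * D.bar u = 1 ∧ a' = FractionalIdeal.spanSingleton _ u * a := by
  have H := (hF n p c D).2.2.2.2.2.2.2.2.2.2.2.2.2.2.2.2.2.2
  obtain ⟨g, hg, hi, hz⟩ := hr
  let γ : Matrix (Fin (n + 3)) (Fin (n + 3)) c.K := Matrix.of fun i k => ⟨g i k, (hi i k).1⟩
  have hγ : γ.map (algebraMap c.K ℂ) = g := rfl
  have h2 := (H a e h).2.2.2.2.2.2.2.2.2.1 γ ((uni_iff c γ).2 (hγ ▸ hg))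
    fun i k => (mem_OK c _).1 (hi i k)
  have hV := maj_mat D γ e
  generalize (fun k => ∑ i, algebraMap c.K D.L (γ i k) * e i) = e'' at h2 hV
  rw [hγ, ← hv, ← hz, hw] at hV
  obtain ⟨z, h3⟩ := prop D hF h2 h' hV.symm
  have h0 := ne_zero D h2
  have h0' : D.Φ 0 (e'' 0) ≠ 0 := (map_ne_zero (D.Φ 0)).2 h0
  obtain ⟨u, hu⟩ : ∃ u : D.L, e' = fun k => u * e'' k := by
    refine ⟨e' 0 / e'' 0, funext fun k => (D.Φ 0).toRingHom.injective ?_⟩
    change D.Φ 0 _ = D.Φ 0 _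
    rw [map_mul, map_div₀, h3, h3, mul_div_cancel_right₀ _ h0']
  obtain ⟨-, -, hx, -, -, -, -, -, hs, -⟩ := H _ _ h2
  have hu1 : u * D.bar u = 1 := by
    refine mul_right_cancel₀ h0 ?_
    rw [one_mul, hx (u * D.bar u * e'' 0)]
    conv_rhs => rw [hx (e'' 0)]
    refine Finset.sum_congr rfl fun i _ => ?_
    have e1 := h'.1 0 (Equiv.swap 0 1 i)
    rw [← h2.1 0 (Equiv.swap 0 1 i), hu] at e1
    have e2 : ∀ x : D.L, Algebra.trace c.K D.L (sg D.L i * x) =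
        sg c.K i * Algebra.trace c.K D.L x := fun x => by
      rw [← map_sg (algebraMap c.K D.L), ← Algebra.smul_def, map_smul, smul_eq_mul]
    have e3 := congrArg (sg c.K i * ·) e1
    simp only [← e2] at e3
    congr 2
    convert e3 using 2 <;> simp only [Dat.du, Dat.bar, map_mul] <;> ring
  exact ⟨u, hu1, lat_eq D h' (hu ▸ hs u hu1)⟩

theorem amb_le {x : ClassGroup (𝓞 D.L)} (h : x ∈ D.Amb) : x ∈ D.H := by
  obtain ⟨g, rfl, hg⟩ := h
  exact D.H_amb g hg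

end OrbU

variable [Sg]

open OrbU in
theorem same : FrameStmt → AmbStmt → SameStmt := by
  intro hF hA n p _ c D b b' e hb he
  obtain ⟨C, hC⟩ := hA n p c
  obtain ⟨u, hu, h⟩ := ((hC D).1 b b').2 hb
  have H := (hF n p c D).2.2.2.2.2.2.2.2.2.2.2.2.2.2.2.2.2.2
  exact ⟨_, h ▸ (H _ _ he).2.2.2.2.2.2.2.2.1 u hu, maj_mul D hu e⟩

open OrbU in
theorem orb : FrameStmt → AmbStmt → OrbStmt := by
  intro hF hA n p _ c D S v hv
  obtain ⟨C, hC⟩ := hA n p c
  have hA1 := (hC D).1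
  have hR : D.orb = Set.range fun x => (Quot.mk _ (v x) : SS n c.K) := by
    ext o
    constructor
    · rintro ⟨b, e, w, hb, he, hw, rfl⟩
      let x : D.Cl := ⟨ClassGroup.mk0 b, hb, b, rfl, e, he⟩
      obtain ⟨u, hu, hb'⟩ := (hA1 (S.b x) b).2 (by rw [S.hb, inv_mul_cancel]; exact one_mem _)
      exact ⟨x, (mk_eq c _ _).2 (rel_of D hF hu (S.he x) (hb' ▸ he) (hv x) hw)⟩
    · rintro ⟨x, rfl⟩
      exact ⟨S.b x, S.e x, v x, S.hb x ▸ x.2.1, S.he x, hv x, rfl⟩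
  have hE : ∀ x y, (Quot.mk _ (v y) : SS n c.K) = Quot.mk _ (v x) ↔ x.1⁻¹ * y.1 ∈ D.Amb := by
    intro x y
    rw [eq_comm, mk_eq, ← S.hb x, ← S.hb y, ← hA1]
    exact ⟨of_rel D hF (S.he x) (S.he y) (hv x) (hv y), fun ⟨u, hu, h⟩ =>
      rel_of D hF hu (S.he x) (h ▸ S.he y) (hv x) (hv y)⟩
  have hS : ∀ (x : D.Cl) (t : D.Amb), ∃ y : D.Cl, y.1 = x.1 * t.1 := by
    intro x t
    obtain ⟨b, hb⟩ := ClassGroup.mk0_surjective (x.1 * t.1)
    obtain ⟨e', he', -⟩ := same hF hA n p c D (S.b x) b (S.e x)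
      (by rw [S.hb, hb, inv_mul_cancel_left]; exact t.2) (S.he x)
    exact ⟨⟨x.1 * t.1, mul_mem x.2.1 (amb_le D t.2), b, hb, e', he'⟩, rfl⟩
  refine ⟨hR ▸ Set.finite_range _, ?_, fun f => ?_⟩
  · obtain ⟨e, he⟩ := D.sp.frame
    refine ⟨⟨1, one_mem _, 1, map_one _, e, ?_⟩⟩
    convert he
    simp [Dat.tw, Dat.cI, Ideal.map_top]
  · rw [hR]
    refine mean_range _ (Nat.card D.Amb) Nat.card_pos.ne' (fun x => ?_) f
    refine Nat.card_congr (Equiv.ofBijective (fun y => ⟨x.1⁻¹ * y.1.1, (hE x y.1).1 y.2⟩)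
      ⟨fun y y' h => Subtype.ext (Subtype.ext (mul_left_cancel (congrArg Subtype.val h))),
        fun t => ?_⟩)
    obtain ⟨y, hy⟩ := hS x t
    have ht : x.1⁻¹ * y.1 = t.1 := by rw [hy, inv_mul_cancel_left]
    exact ⟨⟨y, (hE x y).2 (ht ▸ t.2)⟩, Subtype.ext ht⟩

end Pool.Agent.Lib.MP_9177b7_ag.B.U
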