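import Pool.Agent.Lib.MP_9177b7_ag.U.St

/-!
The bound for the number of ideals of given relative norm.
-/

open NumberField Matrix Pool.Agent.Shared.PrimeZeta
open scoped nonZeroDivisors

noncomputable section

namespace Pool.Agent.Lib.MP_9177b7_ag.B.U

variable [Sg]

namespace Rep

open Ideal FractionalIdeal

section cnt

variable {L : Type} [Field L] [NumberField L]

/-- The part of an ideal above `q`. -/
def part (q : ℕ) (g : Ideal (𝓞 L)) : Ideal (𝓞 L) :=
  g ⊔ span {((q ^ (Ideal.absNorm g).factorization q : ℕ) : 𝓞 L)}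

theorem norm_part {q : ℕ} (hq : q.Prime) {g : Ideal (𝓞 L)} (hg : Ideal.absNorm g ≠ 0) :
    Ideal.absNorm (part q g) = q ^ (Ideal.absNorm g).factorization q := by
  have hb := Nat.coprime_ordCompl hq hg
  have hab := Nat.ordProj_mul_ordCompl_eq_self (Ideal.absNorm g) q
  unfold part
  generalize Ideal.absNorm g / q ^ (Ideal.absNorm g).factorization q = b at hb hab
  generalize (Ideal.absNorm g).factorization q = v at hab ⊢
  have hc : (q ^ v).Coprime b := hb.pow_left v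
  generalize q ^ v = u at hc hab ⊢
  have h1 : (g ⊔ span {(u : 𝓞 L)}) ⊔ (g ⊔ span {(b : 𝓞 L)}) = ⊤ := by
    have h := (Ideal.isCoprime_span_singleton_iff _ _).2 (hc.cast (R := 𝓞 L))
    rw [Ideal.isCoprime_iff_sup_eq] at h
    exact top_le_iff.1 (h ▸ sup_le_sup le_sup_right le_sup_right)
  have h2 : (g ⊔ span {(u : 𝓞 L)}) * (g ⊔ span {(b : 𝓞 L)}) = g := by
    refine le_antisymm ?_ ?_
    · rw [Ideal.sup_mul, Ideal.mul_sup (span _), Ideal.span_singleton_mul_span_singleton,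
        ← Nat.cast_mul, hab]
      exact sup_le Ideal.mul_le_left (sup_le Ideal.mul_le_right (span_singleton_absNorm_le g))
    · rw [Ideal.mul_eq_inf_of_isCoprime (Ideal.isCoprime_iff_sup_eq.2 h1)]
      exact le_inf le_sup_left le_sup_left
  have h3 := congrArg Ideal.absNorm h2
  rw [map_mul, ← hab] at h3
  have h4 : Ideal.absNorm (g ⊔ span {(u : 𝓞 L)}) ∣ u ^ Module.finrank ℤ (𝓞 L) :=
    absNorm_span_natCast (S := 𝓞 L) u ▸ absNorm_dvd_absNorm_of_le le_sup_right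
  have h5 : Ideal.absNorm (g ⊔ span {(b : 𝓞 L)}) ∣ b ^ Module.finrank ℤ (𝓞 L) :=
    absNorm_span_natCast (S := 𝓞 L) b ▸ absNorm_dvd_absNorm_of_le le_sup_right
  refine Nat.dvd_antisymm ?_ ?_
  · exact ((hc.pow_left _).coprime_dvd_left h4).dvd_of_dvd_mul_right (h3 ▸ dvd_mul_right _ _)
  · exact ((hc.pow_right _).coprime_dvd_right h5).dvd_of_dvd_mul_right (h3 ▸ dvd_mul_right _ _)

theorem le_of_part {g h : Ideal (𝓞 L)} (hh : Ideal.absNorm h ≠ 0)
    (H : ∀ q ∈ (Ideal.absNorm h).primeFactors, part q g = part q h) : g ≤ h := by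
  have h1 : Ideal.absNorm h ∣ Ideal.absNorm (g ⊔ h) := by
    refine (Nat.dvd_iff_prime_pow_dvd_dvd _ _).2 fun q k hq hk => ?_
    rcases Nat.eq_zero_or_pos k with rfl | h0
    · simp
    have h2 : g ⊔ h ≤ part q h :=
      sup_le (H q (Nat.mem_primeFactors.2 ⟨hq, (dvd_pow_self q h0.ne').trans hk, hh⟩) ▸
        le_sup_left) le_sup_left
    refine .trans ?_ (absNorm_dvd_absNorm_of_le h2)
    rw [norm_part hq hh]
    exact pow_dvd_pow q ((hq.pow_dvd_iff_le_factorization hh).1 hk)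
  obtain ⟨k, hk⟩ := Ideal.dvd_iff_le.2 (le_sup_right : h ≤ g ⊔ h)
  have h2 := congrArg Ideal.absNorm hk
  rw [map_mul] at h2
  obtain ⟨m, hm⟩ := h1
  rw [hm, mul_assoc] at h2
  have h3 : m * Ideal.absNorm k = 1 := mul_left_cancel₀ hh (by rw [← h2, mul_one])
  rw [absNorm_eq_one_iff.1 (Nat.eq_one_of_mul_eq_one_left h3), Ideal.mul_top] at hk
  exact hk ▸ le_sup_left

theorem card_le (𝒢 : Ideal (𝓞 L) → Prop) (S : Finset ℕ) (b : ℕ → ℝ)
    (h0 : ∀ g, 𝒢 g → Ideal.absNorm g ≠ 0 ∧ (Ideal.absNorm g).primeFactors ⊆ S)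
    (hO : ∀ q ∈ S, ∃ O : Set (Ideal (𝓞 L)), O.Finite ∧ (Nat.card O : ℝ) ≤ b q ∧
      ∀ g, 𝒢 g → part q g ∈ O) : (Nat.card {g // 𝒢 g} : ℝ) ≤ ∏ q ∈ S, b q := by
  choose! O hO using hO
  have : ∀ q : S, Finite (O q) := fun q => (hO q q.2).1
  have h1 : Nat.card {g // 𝒢 g} ≤ Nat.card (∀ q : S, O q) := by
    refine Nat.card_le_card_of_injective
      (fun g q => ⟨part q g.1, (hO q q.2).2.2 g.1 g.2⟩) fun g h H => Subtype.ext ?_
    have H' : ∀ q ∈ S, part q g.1 = part q h.1 := fun q hq =>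
      congrArg Subtype.val (congrFun H ⟨q, hq⟩)
    exact le_antisymm (le_of_part (h0 _ h.2).1 fun q hq => H' q ((h0 _ h.2).2 hq))
      (le_of_part (h0 _ g.2).1 fun q hq => (H' q ((h0 _ g.2).2 hq)).symm)
  rw [Nat.card_pi, Finset.prod_coe_sort S fun q => Nat.card (O q)] at h1
  refine (Nat.cast_le.2 h1).trans ?_
  rw [Nat.cast_prod]
  exact Finset.prod_le_prod (fun _ _ => Nat.cast_nonneg _) fun q hq => (hO q hq).2.1

theorem opt (hI : IdcStmt) {q : ℕ} (hq : q.Prime) (j M : ℕ) :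
    ∃ O : Set (Ideal (𝓞 L)), O.Finite ∧ Nat.card O ≤
      (2 * M + 1) ^ (Module.finrank ℚ L + 1) * (j + 1) ^ Module.finrank ℚ L ∧
      ∀ I v, Ideal.absNorm I = q ^ v → v ≤ j + M → j ≤ v + M → I ∈ O := by
  classical
  have hf := fun i => finite_setOfPred_absNorm_eq (S := 𝓞 L) (q ^ (j - M + i))
  refine ⟨((Finset.range (2 * M + 1)).biUnion fun i => (hf i).toFinset : Finset _),
    Finset.finite_toSet _, ?_, fun I v h h1 h2 => ?_⟩
  · rw [Finset.coe_sort_coe, Nat.card_eq_fintype_card, Fintype.card_coe, pow_succ', mul_assoc,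
      ← mul_pow]
    refine (Finset.card_biUnion_le_card_mul _ _ _ fun i hi => ?_).trans_eq
      (by rw [Finset.card_range])
    rw [← Set.ncard_eq_toFinset_card _ (hf i)]
    refine (hI L q _ hq).1.trans (Nat.pow_le_pow_left ?_ _)
    have := Finset.mem_range.1 hi
    have := Nat.sub_le j M
    nlinarith [Nat.zero_le (M * j)]
  · simp only [Finset.coe_biUnion, Set.mem_iUnion, Set.Finite.coe_toFinset, Finset.mem_coe,
      Finset.mem_range]
    exact ⟨v - (j - M), by omega, by rw [Set.mem_ofPred_eq, h]; congr 1; omega⟩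

end cnt

section alg

theorem mem1 {M : Type} [Field M] [NumberField M] {x : M} :
    x ∈ (1 : FractionalIdeal (𝓞 M)⁰ M) ↔ IsIntegral ℤ x := by
  rw [mem_one_iff]
  exact ⟨fun ⟨y, hy⟩ => hy ▸ y.isIntegral_coe, fun h => ⟨⟨x, h⟩, rfl⟩⟩

theorem memF {M : Type} [Field M] [NumberField M] {x : M} :
    x ∈ dual ℤ ℚ (1 : FractionalIdeal (𝓞 M)⁰ M) ↔
      ∀ a : M, IsIntegral ℤ a → IsIntegral ℤ (Algebra.trace ℚ M (x * a)) := by
  rw [mem_dual (by simp)]
  refine forall_congr' fun a => imp_congr mem1 ?_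
  rw [IsIntegrallyClosed.isIntegral_iff]
  rfl

theorem coe_nId {M : Type} [Field M] [NumberField M] {τ : M}
    (h : τ ∈ dual ℤ ℚ (1 : FractionalIdeal (𝓞 M)⁰ M)) :
    (nId τ : FractionalIdeal (𝓞 M)⁰ M) * dual ℤ ℚ (1 : FractionalIdeal (𝓞 M)⁰ M) =
      spanSingleton _ τ := by
  have h0 : dual ℤ ℚ (1 : FractionalIdeal (𝓞 M)⁰ M) ≠ 0 := dual_ne_zero ℤ ℚ one_ne_zero
  have h1 : spanSingleton (𝓞 M)⁰ τ * (dual ℤ ℚ (1 : FractionalIdeal (𝓞 M)⁰ M))⁻¹ ≤ 1 := by
    exact (mul_le_mul_left (spanSingleton_le_iff_mem.2 h) _).trans_eq (mul_inv_cancel₀ h0)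
  obtain ⟨J, hJ⟩ := le_one_iff_exists_coeIdeal.1 h1
  have h2 : nId τ = J := by
    ext x
    rw [nId, ← hJ, Submodule.mem_comap, mem_coe, mem_coeIdeal]
    exact ⟨fun ⟨y, hy, e⟩ => IsFractionRing.injective (𝓞 M) M e ▸ hy, fun hx => ⟨x, hx, rfl⟩⟩
  rw [h2, hJ, inv_mul_cancel_right₀ h0]

variable {n p : ℕ} [Fact p.Prime] {c : Ctx p} (D : Dat n c)

theorem memA {x : D.L} : x ∈ D.Ad ↔
    ∀ a : D.L, IsIntegral ℤ a → IsIntegral ℤ (Algebra.trace c.K D.L (x * a)) := by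
  rw [Dat.Ad, mem_dual (by simp)]
  refine forall_congr' fun a => imp_congr mem1 ?_
  exact ⟨fun ⟨y, hy⟩ => by rw [Algebra.traceForm_apply] at hy; exact hy ▸ y.isIntegral_coe,
    fun h => ⟨⟨_, h⟩, rfl⟩⟩

theorem intF {x : D.F} : IsIntegral ℤ (x : D.L) ↔ IsIntegral ℤ x :=
  isIntegral_algebraMap_iff (algebraMap D.F D.L).injective

theorem dec (h1 : ∀ x : c.K, D.bar (algebraMap c.K D.L x) = algebraMap c.K D.L (c.cj x))
    (x : D.L) : ∃ u w : D.F, (u : D.L) = x + D.bar x ∧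
      (w : D.L) = algebraMap c.K D.L c.δ * (x - D.bar x) := by
  refine ⟨⟨_, (IsCMField.complexConj_eq_self_iff _ _).1 ?_⟩,
    ⟨_, (IsCMField.complexConj_eq_self_iff _ _).1 ?_⟩, rfl, rfl⟩
  · rw [map_add, IsCMField.complexConj_apply_apply, add_comm]
  · have h := h1 c.δ
    rw [c.δ_cj, map_neg] at h
    rw [map_mul, map_sub, IsCMField.complexConj_apply_apply, show IsCMField.complexConj D.L
      (algebraMap c.K D.L c.δ) = _ from h]
    ring

theorem intδ : IsIntegral ℤ (algebraMap c.K D.L c.δ) :=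
  c.δ.isIntegral_coe.map (algebraMap c.K D.L).toIntAlgHom

theorem intbar {x : D.L} (h : IsIntegral ℤ x) : IsIntegral ℤ (D.bar x) :=
  h.map (IsCMField.complexConj D.L).toRingEquiv.toRingHom.toIntAlgHom

theorem smulA {x y : D.L} (hx : IsIntegral ℤ x) (hy : y ∈ D.Ad) : x * y ∈ D.Ad :=
  (memA D).2 fun a ha => by rw [mul_comm x, mul_assoc]; exact (memA D).1 hy _ (hx.mul ha)

theorem dual_of_Ad (h5 : ∀ τ : D.F, Algebra.trace c.K D.L τ = (Algebra.trace ℚ D.F τ : ℚ))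
    {s : D.F} (h : (s : D.L) ∈ D.Ad) :
    s ∈ dual ℤ ℚ (1 : FractionalIdeal (𝓞 D.F)⁰ D.F) := by
  refine memF.2 fun a ha => ?_
  have h1 := (memA D).1 h a ((intF D).2 ha)
  rw [← Subfield.coe_mul, h5] at h1
  exact (isIntegral_algebraMap_iff (algebraMap ℚ c.K).injective).1 h1

theorem Ad_of_dual (h1 : ∀ x : c.K, D.bar (algebraMap c.K D.L x) = algebraMap c.K D.L (c.cj x))
    (h5 : ∀ τ : D.F, Algebra.trace c.K D.L τ = (Algebra.trace ℚ D.F τ : ℚ))
    {s : D.F} (h : s ∈ dual ℤ ℚ (1 : FractionalIdeal (𝓞 D.F)⁰ D.F)) :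
    2 * algebraMap c.K D.L c.δ * s ∈ D.Ad := by
  refine (memA D).2 fun y hy => ?_
  obtain ⟨u, w, hu, hw⟩ := dec D h1 y
  have e : 2 * algebraMap c.K D.L c.δ * s * y =
      (c.δ : c.K) • ((s * u : D.F) : D.L) + ((s * w : D.F) : D.L) := by
    rw [Algebra.smul_def, Subfield.coe_mul, Subfield.coe_mul, hu, hw]; ring
  have t : ∀ a : D.F, IsIntegral ℤ (a : D.L) →
      IsIntegral ℤ (Algebra.trace c.K D.L ((s * a : D.F) : D.L)) := fun a ha => by
    rw [h5]
    exact (isIntegral_algebraMap_iff (algebraMap ℚ c.K).injective).2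
      (memF.1 h a ((intF D).1 ha))
  rw [e, map_add, map_smul, smul_eq_mul]
  exact (c.δ.isIntegral_coe.mul (t u (hu ▸ hy.add (intbar D hy)))).add
    (t w (hw ▸ (intδ D).mul (hy.sub (intbar D hy))))

/-- The extension of the inverse different of the real subfield. -/
def EE : D.FI := extendedHom D.L (𝓞 D.L) (dual ℤ ℚ (1 : FractionalIdeal (𝓞 D.F)⁰ D.F))

theorem memE {x : D.L} : x ∈ EE D ↔ x ∈ Submodule.span (𝓞 D.L) (algebraMap D.F D.L ''
    (dual ℤ ℚ (1 : FractionalIdeal (𝓞 D.F)⁰ D.F) : FractionalIdeal (𝓞 D.F)⁰ D.F)) := by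
  rw [← mem_coe, EE, coe_extendedHom_eq_span]

theorem alg (hF : FrameStmt) {τ : D.F} {G : Ideal (𝓞 D.L)}
    (hG : (G : D.FI) * D.Ad = spanSingleton _ (τ : D.L)) :
    τ ∈ dual ℤ ℚ (1 : FractionalIdeal (𝓞 D.F)⁰ D.F) ∧
      span {(c.m0 : 𝓞 D.L)} * G ≤ (nId τ).map (algebraMap _ _) ∧
      span {(c.m0 : 𝓞 D.L)} * (nId τ).map (algebraMap _ _) ≤ G := by
  obtain ⟨h1, -, -, -, h5, -, -, -, -, -, h11, -, -, -, h15, -⟩ := hF n p c D
  have hb : ∀ x ∈ D.Ad, D.bar x ∈ D.Ad := fun x hx => (h11 _ _).1 (h15.symm ▸ hx)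
  obtain ⟨k, hk⟩ : ∃ k : D.L, IsIntegral ℤ k ∧
      algebraMap (𝓞 D.L) D.L c.m0 = k * (2 * algebraMap c.K D.L c.δ) := by
    obtain ⟨k, hk⟩ := Ideal.mem_span_singleton'.1 (absNorm_mem (span {2 * c.δ}))
    refine ⟨algebraMap c.K D.L k, k.isIntegral_coe.map (algebraMap c.K D.L).toIntAlgHom, ?_⟩
    have := congrArg (fun x : 𝓞 c.K => algebraMap c.K D.L (algebraMap _ c.K x)) hk
    simp only [map_mul, map_natCast, map_ofNat] at this
    rw [map_natCast, Ctx.m0, ← this]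
  have I1 : spanSingleton _ (algebraMap (𝓞 D.L) D.L c.m0) * EE D ≤ D.Ad := by
    refine spanSingleton_mul_le_iff.2 fun z hz => ?_
    rw [hk.2, mul_assoc]
    refine smulA D hk.1 ?_
    refine Submodule.span_induction (fun x ⟨s, hs, e⟩ => e ▸ Ad_of_dual D h1 h5 hs) ?_
      (fun x y _ _ hx hy => ?_) (fun a x _ hx => ?_) ((memE D).1 hz)
    · rw [mul_zero]; exact zero_mem _
    · rw [mul_add]; exact D.Ad.1.add_mem hx hy
    · rw [Algebra.smul_def, mul_left_comm]; exact smulA D a.isIntegral_coe hx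
  have I2 : spanSingleton _ (algebraMap (𝓞 D.L) D.L c.m0) * D.Ad ≤ EE D := by
    refine spanSingleton_mul_le_iff.2 fun z hz => (memE D).2 ?_
    obtain ⟨u, w, hu, hw⟩ := dec D h1 z
    have e : algebraMap (𝓞 D.L) D.L c.m0 * z = (⟨k, hk.1⟩ : 𝓞 D.L) •
        ((⟨_, intδ D⟩ : 𝓞 D.L) • algebraMap D.F D.L u + algebraMap D.F D.L w) := by
      change _ = k * (algebraMap c.K D.L c.δ * u + w)
      rw [hk.2, hu, hw]; ring
    rw [e]
    refine Submodule.smul_mem _ _ (add_mem (Submodule.smul_mem _ _ ?_) ?_)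
    · exact Submodule.subset_span ⟨u, dual_of_Ad D h5 (hu ▸ D.Ad.1.add_mem hz (hb z hz)), rfl⟩
    · exact Submodule.subset_span
        ⟨w, dual_of_Ad D h5 (hw ▸ smulA D (intδ D) (D.Ad.1.sub_mem hz (hb z hz))), rfl⟩
  have hτ : τ ∈ dual ℤ ℚ (1 : FractionalIdeal (𝓞 D.F)⁰ D.F) := by
    refine dual_of_Ad D h5 (spanSingleton_le_iff_mem.1 (hG ▸ ?_))
    exact (mul_le_mul_left coeIdeal_le_one _).trans_eq (one_mul _)
  have hE : (((nId τ).map (algebraMap _ (𝓞 D.L)) : Ideal (𝓞 D.L)) : D.FI) * EE D =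
      (G : D.FI) * D.Ad := by
    rw [hG, EE, ← extendedHom_coeIdeal_eq_map (K := D.F), ← map_mul, coe_nId hτ,
      extendedHom_spanSingleton]
    congr 1
    exact (RingHom.congr_fun
      (IsLocalization.algebraMap_eq_map_map_submonoid (𝓞 D.F)⁰ (𝓞 D.L) D.F D.L) τ).symm
  have hE0 : EE D ≠ 0 := fun h =>
    dual_ne_zero ℤ ℚ (by simp) ((extendedHom_eq_zero_iff _ _).1 h)
  have hA0 : D.Ad ≠ 0 := dual_ne_zero (𝓞 c.K) c.K one_ne_zero
  refine ⟨hτ, (coeIdeal_le_coeIdeal D.L).1 ?_, (coeIdeal_le_coeIdeal D.L).1 ?_⟩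
  · rw [coeIdeal_mul, coeIdeal_span_singleton, ← mul_inv_cancel_right₀ hE0 (_ * _),
      ← mul_inv_cancel_right₀ hE0 (coeIdeal (Ideal.map _ _)), hE, mul_comm _ (G : D.FI),
      mul_assoc (G : D.FI)]
    exact mul_le_mul_left (mul_le_mul_right I1 _) _
  · rw [coeIdeal_mul, coeIdeal_span_singleton, ← mul_inv_cancel_right₀ hA0 (_ * _),
      ← mul_inv_cancel_right₀ hA0 (G : D.FI), ← hE, mul_comm (spanSingleton _ _),
      mul_assoc (coeIdeal _)]
    exact mul_le_mul_left (mul_le_mul_right I2 _) _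

theorem norm_cI (g : Ideal (𝓞 D.L)) : Ideal.absNorm (D.cI g) = Ideal.absNorm g := by
  rw [absNorm_apply, absNorm_apply, Submodule.cardQuot_apply, Submodule.cardQuot_apply]
  exact (Nat.card_congr (Ideal.quotientEquiv g _
    (IsCMField.ringOfIntegersComplexConj D.L).toRingEquiv rfl).toEquiv).symm

theorem norm_ext (I : Ideal (𝓞 D.F)) :
    Ideal.absNorm (I.map (algebraMap _ (𝓞 D.L))) = Ideal.absNorm I ^ 2 := by
  rw [absNorm_algebraMap, ← IsFractionRing.finrank_eq (𝓞 D.F) D.F (𝓞 D.L) D.L,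
    Algebra.IsQuadraticExtension.finrank_eq_two]

end alg

end Rep

open U.Rep Ideal FractionalIdeal in
theorem rep : FrameStmt → IdcStmt → DenStmt → RepStmt := by
  classical
  intro hF hI _ n p _ c
  have hm : c.m0 ≠ 0 := by
    rw [Ctx.m0, Ne, Ideal.absNorm_eq_zero_iff, Ideal.span_singleton_eq_bot]
    exact mul_ne_zero two_ne_zero c.δ_ne
  obtain ⟨e, he⟩ : ∃ e, e = 2 * (n + 3) := ⟨_, rfl⟩
  obtain ⟨M, hM⟩ : ∃ M, M = c.m0 ^ e := ⟨_, rfl⟩
  have hM0 : M ≠ 0 := hM ▸ pow_ne_zero _ hm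
  refine ⟨((2 * M + 1) ^ (e + 1) : ℕ) ^ c.m0.primeFactors.card, by positivity,
    fun D τ hτ hr => ?_⟩
  have hL : Module.finrank ℚ D.L = e := he ▸ (hF n p c D).2.2.2.2.2.2.2.2.1
  have hN : Ideal.absNorm (span {(c.m0 : 𝓞 D.L)}) = M := by
    rw [absNorm_span_natCast, RingOfIntegers.rank, hL, hM]
  obtain ⟨g₀, hg₀⟩ := (Nat.card_ne_zero.1 hr).1
  have hd := (alg D hF hg₀).1
  refine ⟨hd, ?_⟩
  have hN0 : NN τ ≠ 0 := fun h => by
    have h1 := coe_nId hd
    rw [Ideal.absNorm_eq_zero_iff.1 h, coeIdeal_bot, zero_mul, eq_comm,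
      spanSingleton_eq_zero_iff] at h1
    exact hτ h1
  have key : ∀ g : Ideal (𝓞 D.L), ((g * D.cI g : Ideal (𝓞 D.L)) : D.FI) * D.Ad =
      spanSingleton _ (τ : D.L) → Ideal.absNorm g ≠ 0 ∧ ∀ q, ∃ r ≤ M, (¬ q ∣ c.m0 → r = 0) ∧
        (Ideal.absNorm g).factorization q ≤ (NN τ).factorization q + r ∧
        (NN τ).factorization q ≤ (Ideal.absNorm g).factorization q + r := by
    intro g hg
    obtain ⟨-, h1, h2⟩ := alg D hF hg
    replace h1 := absNorm_dvd_absNorm_of_le h1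
    replace h2 := absNorm_dvd_absNorm_of_le h2
    rw [map_mul, map_mul, norm_cI, norm_ext, hN, ← sq] at h1 h2
    change NN τ ^ 2 ∣ _ at h1
    change _ ∣ M * NN τ ^ 2 at h2
    have ha : Ideal.absNorm g ≠ 0 := fun h => by
      rw [h, zero_pow two_ne_zero, zero_dvd_iff] at h2
      exact mul_ne_zero hM0 (pow_ne_zero _ hN0) h2
    refine ⟨ha, fun q => ⟨M.factorization q, (Nat.factorization_lt q hM0).le, fun hq => ?_, ?_⟩⟩
    · rw [hM, Nat.factorization_pow, Finsupp.smul_apply,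
        Nat.factorization_eq_zero_of_not_dvd hq, smul_zero]
    · have k1 := (Nat.factorization_le_iff_dvd (pow_ne_zero _ hN0)
        (mul_ne_zero hM0 (pow_ne_zero _ ha))).2 h1 q
      have k2 := (Nat.factorization_le_iff_dvd (pow_ne_zero _ ha)
        (mul_ne_zero hM0 (pow_ne_zero _ hN0))).2 h2 q
      rw [Nat.factorization_mul hM0 (pow_ne_zero _ (by assumption))] at k1 k2
      simp only [Nat.factorization_pow, Finsupp.add_apply, Finsupp.smul_apply, smul_eq_mul] at k1 k2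
      omega
  refine (card_le _ (c.m0.primeFactors ∪ (NN τ).primeFactors) (fun q =>
    (if q ∣ c.m0 then (((2 * M + 1) ^ (e + 1) : ℕ) : ℝ) else 1) *
      wt D.L (c.m0 * p) e q ((NN τ).factorization q) τ) (fun g hg => ⟨(key g hg).1, ?_⟩)
    fun q hq => ?_).trans_eq ?_
  · intro q hq
    obtain ⟨r, -, h1, h2, -⟩ := (key g hg).2 q
    have hp := Nat.prime_of_mem_primeFactors hq
    have h3 := hp.factorization_pos_of_dvd (key g hg).1 (Nat.dvd_of_mem_primeFactors hq)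
    by_cases h : q ∣ c.m0
    · exact Finset.mem_union_left _ (Nat.mem_primeFactors.2 ⟨hp, h, hm⟩)
    · exact Finset.mem_union_right _ (Nat.mem_primeFactors.2
        ⟨hp, Nat.dvd_of_factorization_pos (by have := h1 h; omega), hN0⟩)
  · have hp : q.Prime := (Finset.mem_union.1 hq).elim Nat.prime_of_mem_primeFactors
      Nat.prime_of_mem_primeFactors
    by_cases h : q ∣ c.m0
    · obtain ⟨O, h1, h2, h3⟩ := opt (L := D.L) hI hp ((NN τ).factorization q) M
      refine ⟨O, h1, ?_, fun g hg => ?_⟩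
      · rw [if_pos h, wt, if_neg fun h' => h'.2 (h.mul_right _)]
        rw [hL] at h2
        exact_mod_cast h2
      · obtain ⟨r, h4, -, h5, h6⟩ := (key g hg).2 q
        exact h3 _ _ (norm_part hp (key g hg).1) (by omega) (by omega)
    rw [if_neg h, one_mul, wt]
    have hv : ∀ g : Ideal (𝓞 D.L), ((g * D.cI g : Ideal (𝓞 D.L)) : D.FI) * D.Ad =
        spanSingleton _ (τ : D.L) → Ideal.absNorm (part q g) = q ^ (NN τ).factorization q := by
      intro g hg
      obtain ⟨r, -, h4, h5, h6⟩ := (key g hg).2 q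
      rw [norm_part hp (key g hg).1]
      have := h4 h
      congr 1
      omega
    split_ifs with h'
    · refine ⟨{Q | Ideal.absNorm Q = q ∧ nId τ ≤ Q.comap (algebraMap (𝓞 D.F) (𝓞 D.L))},
        (finite_setOfPred_absNorm_eq q).subset fun _ hQ => hQ.1, le_rfl, fun g hg => ?_⟩
      have h1 := hv g hg
      rw [h'.1, pow_one] at h1
      refine ⟨h1, Ideal.map_le_iff_le_comap.1 ?_⟩
      have h2 := isPrime_of_irreducible_absNorm (h1.symm ▸ (Nat.irreducible_iff_nat_prime _).2 hp)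
      refine (h2.mul_le.1 ((alg D hF hg).2.2.trans
        (Ideal.mul_le_left.trans le_sup_left))).resolve_left fun h3 => h ?_
      have h4 := absNorm_dvd_absNorm_of_le h3
      rw [h1, hN, hM] at h4
      exact hp.dvd_of_dvd_pow h4
    · refine ⟨_, finite_setOfPred_absNorm_eq (q ^ (NN τ).factorization q), ?_, hv⟩
      have h2 := (hI D.L q ((NN τ).factorization q) hp).1
      rw [hL] at h2
      exact_mod_cast h2
  · rw [Finset.prod_mul_distrib, wtP, ← he]
    congr 1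
    · rw [← Finset.prod_subset Finset.subset_union_left fun q hq hq' => if_neg fun h => hq' ?_,
        Finset.prod_congr rfl fun q hq => if_pos (Nat.dvd_of_mem_primeFactors hq),
        Finset.prod_const]
      exact Nat.mem_primeFactors.2
        ⟨Nat.prime_of_mem_primeFactors ((Finset.mem_union.1 hq).resolve_left hq'), h, hm⟩
    · refine (Finset.prod_subset Finset.subset_union_right fun q _ hq' => ?_).symm
      rw [← Nat.support_factorization, Finsupp.notMem_support_iff] at hq'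
      simp [wt, hq']

end Pool.Agent.Lib.MP_9177b7_ag.B.U
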