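import Pool.Agent.Lib.MP_9177b7_ag.U.St
import Pool.Agent.Lib.MP_9177b7_ag.B.Trans

/-! Integral unitary matrices act transitively on hyperplanes modulo a split ideal. -/

open NumberField Matrix

namespace Pool.Agent.Lib.MP_9177b7_ag.B.U

variable [Sg]

namespace Trans

open B.Trans

/-- The monoid of unitary matrices. -/
def UU (n : ℕ) {R : Type} [CommRing R] (σ : R →+* R) :
    Submonoid (Matrix (Fin (n + 3)) (Fin (n + 3)) R) where
  carrier := {g | (g.map σ)ᵀ * Jm n R * g = Jm n R}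
  one_mem' := by simp
  mul_mem' {g h} hg hh := by
    change ((g * h).map σ)ᵀ * Jm n R * (g * h) = Jm n R
    calc _ = (h.map σ)ᵀ * ((g.map σ)ᵀ * Jm n R * g) * h := by
          simp only [Matrix.map_mul, transpose_mul, mul_assoc]
      _ = _ := by rw [hg, hh]

theorem ring (hE : EichStmt) (n : ℕ) {R : Type} [CommRing R] (σ : R →+* R)
    (hσ : ∀ x, σ (σ x) = x) (m : Ideal R) (l : Fin (n + 3) → R) (hc : Cyc m)
    (h1 : m ⊔ m.map σ = ⊤) (h2 : m ⊔ Ideal.span {2} = ⊤) :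
    ∃ γ ∈ UU n σ, ∀ k, k ≠ 0 → ∑ i, l i * γ i k ∈ m := by
  obtain ⟨e1, he1, e2, he2, he⟩ := Submodule.mem_sup.1 ((Ideal.eq_top_iff_one _).1 h1)
  obtain ⟨u, hu, v, hv, huv⟩ := Submodule.mem_sup.1 ((Ideal.eq_top_iff_one _).1 h2)
  obtain ⟨h, rfl⟩ := Ideal.mem_span_singleton'.1 hv
  have hle : m.map σ ≤ m.comap σ :=
    Ideal.map_le_iff_le_comap.2 fun x hx => by simpa [Ideal.mem_comap, hσ] using hx
  have z1 : Ideal.Quotient.mk m (σ e2) = 0 := Ideal.Quotient.eq_zero_iff_mem.2 (hle he2)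
  have z2 : Ideal.Quotient.mk m e2 = 1 := by
    rw [← map_one (Ideal.Quotient.mk m), ← he, map_add, Ideal.Quotient.eq_zero_iff_mem.2 he1,
      zero_add]
  have z3 : Ideal.Quotient.mk m (h * 2) = 1 := by
    rw [← map_one (Ideal.Quotient.mk m), ← huv, map_add, Ideal.Quotient.eq_zero_iff_mem.2 hu,
      zero_add]
  have hS : ∀ i j s, i ≠ j →
      transvection i j s ∈ (UU n σ).map (Ideal.Quotient.mk m).mapMatrix.toMonoidHom := by
    refine (hE n (R ⧸ m) (RingHom.id _) 0 1 ⟨2, by omega⟩ 0 0 ⟨Or.inl ⟨rfl, rfl⟩, ?_, ?_⟩).2.2 _ ?_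
    · exact fun e => absurd (congrArg Fin.val e) (by simp)
    · exact fun e => absurd (congrArg Fin.val e) (by simp)
    intro a b k s hp
    obtain ⟨t, rfl⟩ := Ideal.Quotient.mk_surjective s
    have sk : sg R k * sg R k = 1 := sg_sq k
    have a1 : Ideal.Quotient.mk m (2 * (t * h * e2)) = Ideal.Quotient.mk m t := by
      rw [show 2 * (t * h * e2) = t * (h * 2) * e2 by ring, map_mul, map_mul, z2, z3, mul_one,
        mul_one]
    have a2 : Ideal.Quotient.mk m (σ (2 * (t * h * e2))) = 0 := by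
      simp only [map_mul, z1, mul_zero]
    have a3 : Ideal.Quotient.mk m (-2 * (t * h * e2) * σ (t * h * e2)) = 0 := by
      simp only [map_mul, z1, mul_zero]
    refine ⟨⟨_, (hE n R σ a b k (2 * (t * h * e2))
      (sg R k * (-2 * (t * h * e2) * σ (t * h * e2))) hp).2.1
      (hσ _) ?_, ?_⟩, ⟨_, (hE n R σ a b k (sg R k * σ (2 * (t * h * e2)))
        (sg R k * (-2 * (t * h * e2) * σ (t * h * e2))) hp).2.1 (hσ _) ?_, ?_⟩⟩
    · simp only [map_mul, map_neg, map_ofNat, map_intCast, hσ]; ring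
    · exact (Ei_map _ _ _ _ _ _ _).trans (by
        rw [a1, map_mul _ (sg R k), map_mul _ (sg R k), a2, a3, mul_zero])
    · simp only [map_mul, map_neg, map_ofNat, map_intCast, hσ]
      linear_combination (4 * sg R k * (t * h * e2) * (σ t * σ h * σ e2)) * sk
    · exact (Ei_map _ _ _ _ _ _ _).trans (by
        rw [map_mul σ (sg R k), map_intCast, hσ, ← mul_assoc (sg R k), sk, one_mul, a1,
          map_mul _ (sg R k), map_mul _ (sg R k), a2, a3, mul_zero])
  choose z hz using fun i => hc (l i)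
  obtain ⟨_, ⟨γ, hγ, rfl⟩, hg⟩ := move 0 _ hS z
  refine ⟨γ, hγ, fun k hk => Ideal.Quotient.eq_zero_iff_mem.1 ?_⟩
  rw [← hg k hk, map_sum]
  refine Finset.sum_congr rfl fun i _ => ?_
  rw [map_mul, Ideal.Quotient.eq.2 (hz i), map_intCast]
  rfl

end Trans

theorem trans : EichStmt → TransStmt := by
  intro hE n p _ c m l hc h1 h2
  have hσ : ∀ x : 𝓞 c.K, c.cjO (c.cjO x) = x := fun x => by
    apply RingOfIntegers.ext
    apply Subtype.ext
    change ((c.cj (c.cj x) : c.K) : ℂ) = _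
    rw [c.cj_coe, c.cj_coe, Complex.conj_conj]
  obtain ⟨γ, hγ, h⟩ := Trans.ring hE n (c.cjO : 𝓞 c.K →+* 𝓞 c.K) hσ m l hc h1 h2
  refine ⟨γ, ?_, h⟩
  have e := congrArg (fun A => A.map (algebraMap (𝓞 c.K) c.K))
    (show (γ.map (c.cjO : 𝓞 c.K →+* 𝓞 c.K))ᵀ * Jm n _ * γ = Jm n _ from hγ)
  simp only [Matrix.map_mul, Jm_map] at e
  exact e

end Pool.Agent.Lib.MP_9177b7_ag.B.U
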