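import Pool.Agent.Lib.MP_9177b7_ag.U.St

/-!
Tubes and neighbourhoods of the cusps are covered by the sets `WW`.
-/

open NumberField Matrix Filter Topology
open scoped ComplexConjugate

noncomputable section

namespace Pool.Agent.Lib.MP_9177b7_ag.B.U

variable [Sg]

namespace TubeAux

variable {n p : ℕ} [Fact p.Prime]

theorem norm_le_of_int {x : ℚ_[p]} (h : IsIntegral ℤ x) : ‖x‖ ≤ 1 := by
  obtain ⟨z, hz⟩ := (IsIntegrallyClosed.isIntegral_iff (R := ℤ_[p]) (K := ℚ_[p])).1 h.tower_top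
  rw [← hz]
  exact z.2

theorem norm_mulVec {A : Matrix (Fin (n + 3)) (Fin (n + 3)) ℚ_[p]} {v : Fin (n + 3) → ℚ_[p]}
    (hA : ∀ i j, ‖A i j‖ ≤ 1) (hv : ∀ i, ‖v i‖ ≤ 1) (i : Fin (n + 3)) : ‖(A *ᵥ v) i‖ ≤ 1 := by
  change ‖∑ k, A i k * v k‖ ≤ 1
  refine IsUltrametricDist.norm_sum_le_of_forall_le_of_nonneg zero_le_one fun k _ => ?_
  rw [norm_mul]
  exact mul_le_one₀ (hA _ _) (norm_nonneg _) (hv _)

theorem intg_mul {g h : HP n p} (hg : Intg g) (hh : Intg h) : Intg (g * h) := fun i j =>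
  norm_mulVec (A := g.1) (v := fun k => h k j) hg (fun k => hh k j) i

theorem intg_inv {h : HP n p} (hh : Intg h) : Intg h⁻¹ := by
  intro i j
  let B : Matrix (Fin (n + 3)) (Fin (n + 3)) ℤ_[p] := Matrix.of fun i j => ⟨h i j, hh i j⟩
  have e : h.1 = (PadicInt.Coe.ringHom (p := p)).mapMatrix B := by ext i j; rfl
  have e2 : h⁻¹ i j = ((B.adjugate i j : ℤ_[p]) : ℚ_[p]) := by
    change h.1.adjugate i j = _
    rw [e, ← RingHom.map_adjugate]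
    rfl
  rw [e2]
  exact (B.adjugate i j).2

theorem Jm_norm (i j : Fin (n + 3)) : ‖Jm n ℚ_[p] i j‖ ≤ 1 := by
  rw [Jm_apply]
  split_ifs
  · rcases sg_cases (R := ℚ_[p]) i with h | h <;> simp [h.2]
  · simp

variable (c : Ctx p)

theorem xp_int {g : GG n p} (hg : Intg g.1) {v : Fin (n + 3) → c.K}
    (hv : ∀ i, IsIntegral ℤ (v i)) (i : Fin (n + 3)) : ‖c.xp g v i‖ ≤ 1 :=
  norm_mulVec hg (fun k => norm_le_of_int ((hv k).map c.j.toIntAlgHom)) i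

theorem xq_int {g : GG n p} (hg : Intg g.1) {v : Fin (n + 3) → c.K}
    (hv : ∀ i, IsIntegral ℤ (v i)) (i : Fin (n + 3)) : ‖c.xq g v i‖ ≤ 1 :=
  norm_mulVec (fun a b => intg_inv hg b a) (norm_mulVec Jm_norm fun k => norm_le_of_int
    ((hv k).map (c.j.comp c.cj.toRingHom).toIntAlgHom)) i

theorem mem_RK {x : c.K} (h : IsIntegral ℤ x) : x ∈ c.RK := ⟨0, by simpa using h⟩

theorem xp_mul (a g : GG n p) (v : Fin (n + 3) → c.K) :
    c.xp (a * g) v = a.1.1 *ᵥ c.xp g v := by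
  simp only [Ctx.xp, mulVec_mulVec]
  rfl

theorem xq_mul (a g : GG n p) (v : Fin (n + 3) → c.K) :
    c.xq (a * g) v = (a.1⁻¹.1)ᵀ *ᵥ c.xq g v := by
  have e : (a * g).1⁻¹.1 = g.1⁻¹.1 * a.1⁻¹.1 := by
    rw [Prod.fst_mul, _root_.mul_inv_rev]; rfl
  simp only [Ctx.xq, e, transpose_mul, mulVec_mulVec, mul_assoc]

theorem Wg_mul (hD : DiscStmt) {I : Finset (Fin (n + 3))} {c₀ : ℚ_[p]} {k : ℕ} {R : ℝ}
    {g γ : GG n p} (hg : g ∈ c.Wg I c₀ k R) (hγ : γ ∈ c.Gp n) : g * γ ∈ c.Wg I c₀ k R := by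
  obtain ⟨v, hv0, hvR, h1, h2, h3, h4⟩ := hg
  obtain ⟨β, hβ, e1, e2⟩ := ((hD n p c).2.2.1 γ⁻¹).1 (inv_mem hγ)
  have m1 : (fun i => c.j ((β *ᵥ v) i)) = γ⁻¹.1.1 *ᵥ fun i => c.j (v i) := by
    funext i; rw [e1]; exact RingHom.map_mulVec c.j β v i
  have m2 : (fun i => (((β *ᵥ v) i : c.K) : ℂ)) = γ⁻¹.2.1.1 *ᵥ fun i => (v i : ℂ) := by
    funext i; rw [e2]; exact RingHom.map_mulVec (algebraMap c.K ℂ) β v i
  have m3 : (fun i => c.j (c.cj ((β *ᵥ v) i))) =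
      β.map (c.j.comp c.cj.toRingHom) *ᵥ fun i => c.j (c.cj (v i)) := by
    funext i; exact RingHom.map_mulVec (c.j.comp c.cj.toRingHom) β v i
  have u1 : (β.map c.cj)ᵀ * Jm n c.K * β = Jm n c.K := by
    have hu : γ⁻¹.2.1.1ᴴ * Jm n ℂ * γ⁻¹.2.1.1 = Jm n ℂ := γ⁻¹.2.2
    apply Matrix.map_injective (algebraMap c.K ℂ).injective
    have e3 : ((β.map c.cj)ᵀ).map (algebraMap c.K ℂ) = (β.map (algebraMap c.K ℂ))ᴴ := by
      ext a b
      exact c.cj_coe _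
    simp only [Matrix.map_mul, Jm_map]
    rw [e3, ← e2, hu]
  have u2 : (β.map c.j)ᵀ * Jm n ℚ_[p] * β.map (c.j.comp c.cj.toRingHom) = Jm n ℚ_[p] := by
    have := congrArg (fun A => Aᵀ.map c.j) u1
    simp only [transpose_mul, transpose_transpose, Jm_transpose, Matrix.map_mul, Jm_map] at this
    rw [mul_assoc]
    exact this
  have x1 : c.xp (g * γ) (β *ᵥ v) = c.xp g v := by
    have e : (g * γ).1.1 * γ⁻¹.1.1 = g.1.1 :=
      congrArg (fun a : GG n p => a.1.1) (mul_inv_cancel_right g γ)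
    simp only [Ctx.xp]
    rw [m1, mulVec_mulVec, e]
  have x2 : c.xq (g * γ) (β *ᵥ v) = c.xq g v := by
    have e : (g * γ).1⁻¹.1 = β.map c.j * g.1⁻¹.1 := by
      rw [Prod.fst_mul, _root_.mul_inv_rev, ← e1]; rfl
    simp only [Ctx.xq]
    rw [m3, e, transpose_mul]
    simp only [mulVec_mulVec]
    rw [mul_assoc, ← mul_assoc _ (Jm n ℚ_[p]), u2]
  have x3 : c.xr (g * γ).2 (β *ᵥ v) = c.xr g.2 v := by
    have e : (g * γ).2.1.1 * γ⁻¹.2.1.1 = g.2.1.1 :=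
      congrArg (fun a : GG n p => a.2.1.1) (mul_inv_cancel_right g γ)
    simp only [Ctx.xr]
    rw [m2, mulVec_mulVec, e]
  refine ⟨β *ᵥ v, fun h0 => hv0 ?_, fun i => ?_, ?_, ?_, ?_, ?_⟩
  · have e : γ.1.1 * γ⁻¹.1.1 = 1 := congrArg (fun a : GG n p => a.1.1) (mul_inv_cancel γ)
    have := congrArg (fun w => γ.1.1 *ᵥ w) m1
    simp only [mulVec_mulVec, e, one_mulVec, h0, Pi.zero_apply, map_zero] at this
    funext i
    apply c.j.injective
    rw [← congrFun this i]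
    simp [mulVec, dotProduct]
  · exact sum_mem fun a _ => mul_mem (hβ i a) (hvR a)
  · rwa [x1]
  · rwa [x2]
  · rwa [x3]
  · rwa [x1, x2]

theorem mem_WW (hD : DiscStmt) {I : Finset (Fin (n + 3))} {c₀ : ℚ_[p]} {k : ℕ} {R : ℝ}
    (g : GG n p) : QuotientGroup.mk g ∈ c.WW I c₀ k R ↔ g ∈ c.Wg I c₀ k R := by
  refine ⟨?_, fun h => ⟨g, h, rfl⟩⟩
  rintro ⟨g', h, e⟩
  have := Wg_mul c hD h (QuotientGroup.eq.1 e)
  rwa [mul_inv_cancel_left] at this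

theorem isOpen_le {X : Type} [TopologicalSpace X] {f : X → ℚ_[p]} (hf : Continuous f) {r : ℝ}
    (hr : r ≠ 0) : IsOpen {x | ‖f x‖ ≤ r} := by
  have := (IsUltrametricDist.isOpen_closedBall (0 : ℚ_[p]) hr).preimage hf
  simpa [Set.preimage] using this

theorem cont_xp (v : Fin (n + 3) → c.K) (i : Fin (n + 3)) :
    Continuous fun g : GG n p => c.xp g v i := by
  have h1 : Continuous fun g : GG n p => g.1.1 := continuous_subtype_val.comp continuous_fst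
  exact (continuous_apply i).comp (h1.matrix_mulVec continuous_const)

theorem cont_xq (v : Fin (n + 3) → c.K) (i : Fin (n + 3)) :
    Continuous fun g : GG n p => c.xq g v i := by
  have h0 : Continuous fun g : GG n p => g.1⁻¹ := continuous_fst.inv
  have h1 : Continuous fun g : GG n p => g.1⁻¹.1 := continuous_subtype_val.comp h0
  exact (continuous_apply i).comp (h1.matrix_transpose.matrix_mulVec continuous_const)

theorem cont_xr (v : Fin (n + 3) → c.K) : Continuous fun g : GG n p => c.xr g.2 v := by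
  have h0 : Continuous fun g : GG n p => g.2.1 := continuous_subtype_val.comp continuous_snd
  have h1 : Continuous fun g : GG n p => g.2.1.1 := continuous_subtype_val.comp h0
  have h2 : ∀ i, Continuous fun g : GG n p => (g.2.1.1 *ᵥ fun k => (v k : ℂ)) i := fun i =>
    (continuous_apply i).comp (h1.matrix_mulVec continuous_const)
  unfold Ctx.xr
  exact continuous_finsetSum _ fun i _ => (h2 i).norm.pow 2

theorem isOpen_Wg (I : Finset (Fin (n + 3))) (c₀ : ℚ_[p]) (k : ℕ) (R : ℝ) :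
    IsOpen (c.Wg I c₀ k R) := by
  have hp : (p : ℝ) ≠ 0 := Nat.cast_ne_zero.2 (Fact.out : p.Prime).ne_zero
  rw [isOpen_iff_mem_nhds]
  rintro g ⟨v, hv0, hvR, h1, h2, h3, h4⟩
  have o1 : ∀ᶠ g' in 𝓝 g, ∀ i, ‖c.xp g' v i‖ ≤ 1 := eventually_all.2 fun i =>
    (isOpen_le (cont_xp c v i) one_ne_zero).mem_nhds (h1 i)
  have o2 : ∀ᶠ g' in 𝓝 g, ∀ i, ‖c.xq g' v i‖ ≤ 1 := eventually_all.2 fun i =>
    (isOpen_le (cont_xq c v i) one_ne_zero).mem_nhds (h2 i)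
  have o3 : ∀ᶠ g' in 𝓝 g, c.xr g'.2 v < R :=
    (isOpen_lt (cont_xr c v) continuous_const).mem_nhds h3
  have c4 : Continuous fun g : GG n p => ∑ i ∈ I, c.xp g v i * c.xq g v i - c₀ :=
    (continuous_finsetSum I fun i _ => (cont_xp c v i).mul (cont_xq c v i)).sub continuous_const
  have o4 : ∀ᶠ g' in 𝓝 g, ‖∑ i ∈ I, c.xp g' v i * c.xq g' v i - c₀‖ ≤ ((p : ℝ) ^ k)⁻¹ :=
    (isOpen_le c4 (inv_ne_zero (pow_ne_zero k hp))).mem_nhds h4
  filter_upwards [o1, o2, o3, o4] with g' a1 a2 a3 a4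
  exact ⟨v, hv0, hvR, a1, a2, a3, a4⟩

theorem exists_intg (hP : DensPStmt) (x : c.XX n) :
    ∃ g : GG n p, Intg g.1 ∧ QuotientGroup.mk g = x := by
  obtain ⟨g, rfl⟩ := QuotientGroup.mk_surjective x
  obtain ⟨γ, hγ, h⟩ := hP n p c g.1
  exact ⟨g * γ, h, QuotientGroup.mk_mul_of_mem g hγ⟩

theorem cong {I : Finset (Fin (n + 3))} {k : ℕ} {h : HP n p} (hh : h ∈ KI p I k)
    {a b : Fin (n + 3) → ℚ_[p]} (ha : ∀ i, ‖a i‖ ≤ 1) (hb : ∀ i, ‖b i‖ ≤ 1) :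
    ‖∑ i ∈ I, (h.1 *ᵥ a) i * ((h⁻¹.1)ᵀ *ᵥ b) i - ∑ i ∈ I, a i * b i‖ ≤ ((p : ℝ) ^ k)⁻¹ := by
  have hd : ∀ i, ‖((h⁻¹.1)ᵀ *ᵥ b) i‖ ≤ 1 := norm_mulVec (fun i j => intg_inv hh.1 j i) hb
  have e : b = h.1ᵀ *ᵥ ((h⁻¹.1)ᵀ *ᵥ b) := by
    have : h⁻¹.1 * h.1 = 1 := congrArg Subtype.val (inv_mul_cancel h)
    rw [mulVec_mulVec, ← transpose_mul, this, transpose_one, one_mulVec]
  generalize (h⁻¹.1)ᵀ *ᵥ b = d at hd e
  subst e
  have key : ∑ i ∈ I, (h.1 *ᵥ a) i * d i - ∑ i ∈ I, a i * (h.1ᵀ *ᵥ d) i =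
      ∑ i, ∑ m, h i m * a m * d i * ((if i ∈ I then 1 else 0) - if m ∈ I then 1 else 0) := by
    have k1 : ∀ f : Fin (n + 3) → ℚ_[p], ∑ i ∈ I, f i = ∑ i, f i * if i ∈ I then 1 else 0 := by
      intro f; simp
    simp only [mul_sub, Finset.sum_sub_distrib, mulVec, dotProduct, transpose_apply]
    congr 1
    · rw [k1]
      simp only [Finset.sum_mul]
    · rw [k1, Finset.sum_comm]
      simp only [Finset.sum_mul, Finset.mul_sum]
      exact Finset.sum_congr rfl fun m _ => Finset.sum_congr rfl fun i _ => by ring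
  rw [key]
  have h0 : (0 : ℝ) ≤ ((p : ℝ) ^ k)⁻¹ := by positivity
  refine IsUltrametricDist.norm_sum_le_of_forall_le_of_nonneg h0 fun i _ =>
    IsUltrametricDist.norm_sum_le_of_forall_le_of_nonneg h0 fun m _ => ?_
  have hb : ¬ (i ∈ I ↔ m ∈ I) → ‖h i m * a m * d i‖ ≤ ((p : ℝ) ^ k)⁻¹ := fun hne => by
    rw [norm_mul, norm_mul, mul_assoc]
    exact (mul_le_of_le_one_right (norm_nonneg _)
      (mul_le_one₀ (ha m) (norm_nonneg _) (hd i))).trans (hh.2 i m hne)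
  by_cases h1 : i ∈ I <;> by_cases h2 : m ∈ I
  · simp [h1, h2]
  · simpa [h1, h2] using hb (by simp [h1, h2])
  · simpa [h1, h2] using hb (by simp [h1, h2])
  · simp [h1, h2]

theorem xr_mul (u g : SU n) (hu : ∀ i j, ‖u.1 i j‖ < 2) (v : Fin (n + 3) → c.K) :
    c.xr (u * g) v ≤ 4 * (n + 3 : ℝ) ^ 2 * c.xr g v := by
  have e : (u * g).1.1 = u.1.1 * g.1.1 := rfl
  simp only [Ctx.xr, e, ← mulVec_mulVec]
  generalize (g.1.1 *ᵥ fun k => (v k : ℂ)) = w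
  have h1 : ∀ i, ‖(u.1.1 *ᵥ w) i‖ ^ 2 ≤ 4 * (n + 3 : ℝ) * ∑ k, ‖w k‖ ^ 2 := by
    intro i
    have h2 : ‖(u.1.1 *ᵥ w) i‖ ≤ 2 * ∑ k, ‖w k‖ := by
      rw [Finset.mul_sum]
      change ‖∑ k, u.1.1 i k * w k‖ ≤ _
      refine (norm_sum_le _ _).trans (Finset.sum_le_sum fun k _ => ?_)
      rw [norm_mul]
      exact mul_le_mul_of_nonneg_right (hu i k).le (norm_nonneg _)
    have h3 : (∑ k, ‖w k‖) ^ 2 ≤ (n + 3 : ℝ) * ∑ k, ‖w k‖ ^ 2 := by
      simpa using sq_sum_le_card_mul_sum_sq (s := Finset.univ) (f := fun k => ‖w k‖)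
    calc _ ≤ (2 * ∑ k, ‖w k‖) ^ 2 := pow_le_pow_left₀ (norm_nonneg _) h2 2
      _ ≤ _ := by nlinarith
  calc _ ≤ ∑ _i : Fin (n + 3), 4 * (n + 3 : ℝ) * ∑ k, ‖w k‖ ^ 2 :=
        Finset.sum_le_sum fun i _ => h1 i
    _ = _ := by simp; ring

theorem isCompact_intg : IsCompact {h : HP n p | Intg h} := by
  have hK : IsCompact {A : Matrix (Fin (n + 3)) (Fin (n + 3)) ℚ_[p] | ∀ i j, ‖A i j‖ ≤ 1} := by
    have := isCompact_univ_pi fun _ : Fin (n + 3) => isCompact_univ_pi fun _ : Fin (n + 3) =>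
      isCompact_closedBall (0 : ℚ_[p]) 1
    have e : (Set.univ.pi fun _ : Fin (n + 3) => Set.univ.pi fun _ : Fin (n + 3) =>
        Metric.closedBall (0 : ℚ_[p]) 1) = {A | ∀ i j, ‖A i j‖ ≤ 1} := by
      ext A; simp
    rw [e] at this
    exact this
  exact Matrix.SpecialLinearGroup.isClosedEmbedding_val.isCompact_preimage hK

end TubeAux

open TubeAux in
theorem tube : DiscStmt → DensPStmt → MahlerStmt → TubeStmt := by
  intro hD hP hM n p _ c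
  refine ⟨fun I c₀ k R => ⟨QuotientGroup.isOpenMap_coe _ (isOpen_Wg c I c₀ k R), mem_WW c hD⟩,
    ?_, fun ε hε => ?_⟩
  · obtain ⟨R₀, hR⟩ := (hM n p c).2
    refine ⟨4 * (n + 3 : ℝ) ^ 2 * R₀ + 1, {u | ∀ i j, ‖u.1 i j‖ < 2}, ?_, fun I k x => ?_⟩
    · refine eventually_all.2 fun i => eventually_all.2 fun j => ?_
      have hc : Continuous fun u : SU n => ‖u.1.1 i j‖ :=
        ((continuous_subtype_val.comp continuous_subtype_val).matrix_elem i j).norm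
      refine (isOpen_lt hc continuous_const).mem_nhds ?_
      change ‖(1 : Matrix (Fin (n + 3)) (Fin (n + 3)) ℂ) i j‖ < 2
      rw [one_apply]
      split_ifs <;> simp
    · obtain ⟨g, hg, rfl⟩ := exists_intg c hP x
      obtain ⟨v, hv0, hv, hr⟩ := hR g.2
      refine ⟨∑ i ∈ I, c.xp g v i * c.xq g v i, ?_⟩
      rintro _ ⟨h, hh, u, hu, rfl⟩
      have hi : Intg ((h, u) * g : GG n p).1 := intg_mul hh.1 hg
      refine ⟨(h, u) * g, ⟨v, hv0, fun i => mem_RK c (hv i), xp_int c hi hv, xq_int c hi hv,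
        ?_, ?_⟩, rfl⟩
      · have h1 := xr_mul c u g.2 hu v
        have h2 : 4 * (n + 3 : ℝ) ^ 2 * c.xr g.2 v ≤ 4 * (n + 3 : ℝ) ^ 2 * R₀ :=
          mul_le_mul_of_nonneg_left hr (by positivity)
        exact (h1.trans h2).trans_lt (lt_add_one _)
      · rw [xp_mul, xq_mul]
        exact cong hh (xp_int c hg hv) (xq_int c hg hv)
  · obtain ⟨Ω, hΩ, h⟩ := (hM n p c).1 ε hε
    refine ⟨QuotientGroup.mk '' ({h : HP n p | Intg h} ×ˢ Ω),
      (isCompact_intg.prod hΩ).image QuotientGroup.continuous_mk, fun I x => ?_⟩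
    obtain ⟨g, hg, rfl⟩ := exists_intg c hP x
    by_cases hv : ∀ v : Fin (n + 3) → c.K, v ≠ 0 → (∀ i, IsIntegral ℤ (v i)) → ε ≤ c.xr g.2 v
    · obtain ⟨γ, hγ, hm⟩ := h g.2 hv
      obtain ⟨h', hi, hG⟩ := (hD n p c).2.2.2.2.2.2.1 γ hγ
      exact Or.inl ⟨g * (h', γ), ⟨intg_mul hg hi, hm⟩, QuotientGroup.mk_mul_of_mem g hG⟩
    · push Not at hv
      obtain ⟨v, hv0, hv, hr⟩ := hv
      have hs : ‖∑ i ∈ I, c.xp g v i * c.xq g v i‖ ≤ 1 :=
        IsUltrametricDist.norm_sum_le_of_forall_le_of_nonneg zero_le_one fun i _ => by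
          rw [norm_mul]
          exact mul_le_one₀ (xp_int c hg hv i) (norm_nonneg _) (xq_int c hg hv i)
      let s : ℤ_[p] := ⟨_, hs⟩
      refine Or.inr ⟨s.appr 2, Finset.mem_range.2 (s.appr_lt 2), g, ⟨v, hv0,
        fun i => mem_RK c (hv i), xp_int c hg hv, xq_int c hg hv, hr, ?_⟩, rfl⟩
      have := (PadicInt.norm_le_pow_iff_mem_span_pow _ 2).2 (PadicInt.appr_spec 2 s)
      rw [_root_.zpow_neg, zpow_natCast] at this
      exact this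

end Pool.Agent.Lib.MP_9177b7_ag.B.U
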