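import Pool.Agent.Lib.MP_9177b7_ag.U.Typ0

/-! Type norms in the normal closure inside `ℂ`. -/

open NumberField IntermediateField
open scoped nonZeroDivisors Classical Pointwise

noncomputable section

namespace Pool.Agent.Lib.MP_9177b7_ag.B.U

namespace Typ

section closure

variable {K L M : Type} [Field K] [NumberField K] [Field L] [NumberField L] [Field M]
  [NumberField M] [Algebra K L] [Algebra K M] [h : IsNormalClosure K L M]

variable (L) in
include h in
omit [NumberField L] [NumberField M] in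
theorem galois : IsGalois K M :=
  have := h.normal
  {}

omit [NumberField M] in
theorem card_emb : Fintype.card (L →ₐ[K] M) = Module.finrank K L :=
  AlgHom.card_of_splits K L M h.splits

theorem rank_le : Module.finrank K M ≤ (Module.finrank K L).factorial := by
  have := galois (K := K) L (M := M)
  rw [← IsGalois.card_aut_eq_finrank, ← card_emb (M := M), ← Fintype.card_perm,
    ← Nat.card_eq_fintype_card]
  refine Nat.card_le_card_of_injective (MulAction.toPermHom (M ≃ₐ[K] M) (L →ₐ[K] M))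
    ((injective_iff_map_eq_one _).2 fun τ hτ => AlgEquiv.ext fun x => ?_)
  have h1 : normalClosure K L M ≤ fixedField (Subgroup.zpowers τ) :=
    normalClosure_le_iff.2 fun φ => by
      rintro _ ⟨y, rfl⟩ ⟨g, hg⟩
      have h2 : g ∈ (MulAction.toPermHom (M ≃ₐ[K] M) (L →ₐ[K] M)).ker :=
        Subgroup.zpowers_le.2 hτ hg
      exact AlgHom.congr_fun (Equiv.congr_fun h2 φ) y
  rw [(Algebra.IsAlgebraic.isNormalClosure_iff.1 h).2] at h1
  exact h1 mem_top ⟨τ, Subgroup.mem_zpowers τ⟩

omit [NumberField M] in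
theorem exists_chi {Ω ι : Type} [Field Ω] [CharZero Ω] [Fintype ι] (j : K →+* Ω)
    (ψ : ι → (L →+* Ω)) (hψ : Function.Injective ψ) (hj : ∀ i x, ψ i (algebraMap K L x) = j x)
    (hc : Fintype.card ι = Module.finrank K L) :
    ∃ χ : M →+* Ω, ∀ i, ∃ φ : L →ₐ[K] M, χ.comp φ = ψ i := by
  let := j.toAlgebra
  let ψ' : ι → (L →ₐ[K] Ω) := fun i => ⟨ψ i, hj i⟩
  have h1 : Function.Injective ψ' := fun i l e => hψ (congrArg AlgHom.toRingHom e)
  let u := IsScalarTower.toAlgHom K Ω (AlgebraicClosure Ω)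
  have h2 : Function.Bijective fun i => u.comp (ψ' i) :=
    (Fintype.bijective_iff_injective_and_card _).2 ⟨fun i l e => h1 (AlgHom.ext fun x =>
      u.injective (AlgHom.congr_fun e x)), hc.trans (AlgHom.card K L _).symm⟩
  let χ : M →ₐ[K] Ω := IsNormalClosure.lift (K := L) fun x =>
    Polynomial.Splits.of_splits_map (algebraMap Ω (AlgebraicClosure Ω)) (IsAlgClosed.splits _)
      fun a ha => by
        rw [Polynomial.map_map, ← IsScalarTower.algebraMap_eq] at ha
        have h3 : a ∈ (minpoly K x).rootSet (AlgebraicClosure Ω) := Multiset.mem_toFinset.2 ha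
        rw [← Algebra.IsAlgebraic.range_eval_eq_rootSet_minpoly] at h3
        obtain ⟨φ, rfl⟩ := h3
        obtain ⟨i, rfl⟩ := h2.2 φ
        exact ⟨ψ i x, rfl⟩
  have h4 : Function.Bijective fun φ : L →ₐ[K] M => χ.comp φ :=
    Function.Injective.bijective_of_nat_card_le (fun φ φ' e => AlgHom.ext fun x =>
      χ.injective (AlgHom.congr_fun e x)) (by
        rw [Nat.card_eq_fintype_card (α := L →ₐ[K] M), card_emb]
        exact card_algHom_le_finrank K L Ω)
  exact ⟨χ, fun i => (h4.2 (ψ' i)).imp fun φ e => congrArg AlgHom.toRingHom e⟩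

/-- The subgroup of type norms. -/
theorem typ0 (hg : ∀ π : Equiv.Perm (L →ₐ[K] M), ∃ τ : M ≃ₐ[K] M, ∀ φ, π φ = τ • φ)
    (T : Finset (L →ₐ[K] M)) (h0 : 0 < T.card) (h1 : T.card < Module.finrank K L)
    (hc : T.card.Coprime (Module.finrank K L)) : ∃ H : Subgroup (ClassGroup (𝓞 L)),
      (∀ x, x ∈ H ↔ ∃ (c : (Ideal (𝓞 L))⁰) (B : Ideal (𝓞 M)), B ≠ ⊥ ∧
        TN (T : Set (L →ₐ[K] M)) c.1 B ∧ ClassGroup.mk0 c = x) ∧
      H.index ≤ classNumber K * (Module.finrank K L).factorial ∧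
      ∀ (p : ℕ) [Fact p.Prime] (ι : Type) [Fintype ι] (j : K →+* ℚ_[p]) (ψ : ι → (L →+* ℚ_[p])),
        Function.Injective ψ → (∀ i x, ψ i (algebraMap K L x) = j x) →
        Fintype.card ι = Module.finrank K L → ∀ (i l : ι) (P P' : (Ideal (𝓞 L))⁰),
          P.1 = Pp (ψ i) → P'.1 = Pp (ψ l) → ClassGroup.mk0 P * (ClassGroup.mk0 P')⁻¹ ∈ H := by
  have := galois (K := K) L (M := M)
  obtain ⟨φ, -⟩ := Finset.card_pos.1 h0
  let := (φ : L →+* M).toAlgebra
  have : IsScalarTower K L M := IsScalarTower.of_algebraMap_eq fun x => (φ.commutes x).symm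
  rw [← card_emb (M := M)] at h1 hc
  refine ⟨HH T, mem_HH T, (index_le hg h0 h1 hc).trans (Nat.mul_le_mul_left _ ?_), ?_⟩
  · refine le_trans ?_ (rank_le (M := M))
    rw [← Module.finrank_mul_finrank K L M]
    exact Nat.le_mul_of_pos_left _ Module.finrank_pos
  · intro p _ ι _ j ψ a1 a2 a3 i l P P' e e'
    obtain ⟨χ, hχ⟩ := exists_chi (M := M) j ψ a1 a2 a3
    obtain ⟨φi, hi⟩ := hχ i
    obtain ⟨φl, hl⟩ := hχ l
    have b0 : Pp χ ∈ (Ideal (𝓞 M))⁰ := mem_nonZeroDivisors_of_ne_zero fun h => by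
      have := ((pad M p).1 χ).2.2.1
      rw [h, map_zero] at this
      exact (Fact.out : p.Prime).ne_zero this.symm
    convert quo_mem hg h0 h1 φi φl ⟨_, b0⟩ using 3
    · exact congrArg ClassGroup.mk0 (Subtype.ext (by rw [e, ← hi]; exact (cN_Pp χ φi).symm))
    · exact congrArg ClassGroup.mk0 (Subtype.ext (by rw [e', ← hl]; exact (cN_Pp χ φl).symm))

end closure

section complex

variable (K L : Type) [Field K] [NumberField K] [Field L] [NumberField L] [Algebra K L]
  [Algebra K ℂ]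

theorem nc : IsNormalClosure K L (normalClosure K L ℂ) :=
  Algebra.IsAlgebraic.isNormalClosure_normalClosure fun _ => IsAlgClosed.splits _

theorem nf : NumberField (normalClosure K L ℂ) := NumberField.of_module_finite K _

variable {K L} in
theorem perm (hg : ∀ π : Equiv.Perm (L →ₐ[K] ℂ), ∃ σ : ℂ ≃ₐ[K] ℂ, ∀ ψ x, π ψ x = σ (ψ x))
    (π : Equiv.Perm (L →ₐ[K] normalClosure K L ℂ)) :
    ∃ τ : normalClosure K L ℂ ≃ₐ[K] normalClosure K L ℂ, ∀ φ, π φ = τ • φ := by
  have := (nc K L).normal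
  obtain ⟨σ, hσ⟩ := hg ((normalClosure.algHomEquiv K L ℂ).permCongr π)
  refine ⟨σ.restrictNormal _, fun φ => AlgHom.ext fun x => Subtype.ext ?_⟩
  have h1 := hσ (normalClosure.algHomEquiv K L ℂ φ) x
  rw [Equiv.permCongr_apply, Equiv.symm_apply_apply] at h1
  exact h1.trans (σ.restrictNormal_commutes _ (φ x)).symm

end complex

end Typ

open Typ in
theorem typ (_ : IdxStmt) : TypStmt := by
  intro N K _ L _ _ _ lam hN hg h2 hc
  have := nc K L
  have := nf K L
  set T : Finset (L →ₐ[K] MM K L) := Finset.univ.filter fun φ => ((φ lam : MM K L) : ℂ).re < 0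
  have hT : Nat.card {φ : L →ₐ[K] ℂ // (φ lam).re < 0} = T.card := by
    rw [← Fintype.card_subtype, ← Nat.card_eq_fintype_card]
    exact Nat.card_congr ((normalClosure.algHomEquiv K L ℂ).subtypeEquiv fun _ => Iff.rfl).symm
  have hle : T.card ≤ N := by
    rw [← hN, ← card_emb (M := MM K L)]
    exact Finset.card_le_univ T
  rw [hT] at hc
  have h0 : 0 < T.card := Nat.pos_of_ne_zero fun h => by
    rw [h, Nat.coprime_zero_left] at hc
    omega
  have h1 : T.card < N := lt_of_le_of_ne hle fun h => by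
    rw [h, Nat.coprime_self] at hc
    omega
  have key : ∀ B c, TypeNorm K lam B c ↔ TN (T : Set (L →ₐ[K] MM K L)) c B := fun B c =>
    forall_congr' fun φ => Eq.congr_right (Finset.prod_congr
      (Finset.ext fun τ => by simp [T, act_apply]) fun _ _ => rfl)
  subst hN
  obtain ⟨H, a1, a2, a3⟩ := typ0 (perm hg) T h0 h1 hc
  refine ⟨H, fun x => (a1 x).trans ?_, fun B b hB h hb => ?_, a2, fun p _ j ψ b1 b2 =>
    a3 p _ j ψ b1 b2 (Fintype.card_fin _)⟩
  · simp only [key]
    exact exists_comm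
  · obtain ⟨φ, -⟩ := Finset.card_pos.1 h0
    have e := (key B b).1 h φ
    rw [hb, mp, Ideal.map_bot, Pd, eq_comm] at e
    obtain ⟨τ, -, e⟩ := Finset.prod_eq_zero_iff.1 e
    exact nonZeroDivisors.ne_zero (smul_mem τ ⟨B, mem_nonZeroDivisors_of_ne_zero hB⟩) e

end Pool.Agent.Lib.MP_9177b7_ag.B.U
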