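import Pool.Agent.Lib.MP_9177b7_ag.U.St
import Pool.Agent.Lib.MP_9177b7_ag.B.Unimod

/-!
The groups `SL_N(ℚ_p)`, `SU(J)` and their product are unimodular.
-/

open Matrix MeasureTheory
open scoped ComplexConjugate NNReal

noncomputable section

namespace Pool.Agent.Lib.MP_9177b7_ag.B.U

variable [Sg]

namespace Unimod

open B.Unimod

section su

variable {n : ℕ} {a b k : Fin (n + 3)}

/-- The real diagonal element. -/
def dd (h : Pos a b k) : SU n :=
  ⟨SpecialLinearGroup.diag2n (pos_ne h).1 2 two_ne_zero, by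
    change (SpecialLinearGroup.diag2n (pos_ne h).1 (2 : ℂ) two_ne_zero).1ᴴ * Jm n ℂ *
      (SpecialLinearGroup.diag2n (pos_ne h).1 (2 : ℂ) two_ne_zero).1 = Jm n ℂ
    rw [SpecialLinearGroup.diag2n_coe, diagonal_conjTranspose]
    ext i j
    rw [mul_diagonal, diagonal_mul]
    simp only [Jm, of_apply, Pi.star_apply]
    by_cases e : j = Equiv.swap 0 1 i
    · subst e
      rw [if_pos rfl]
      by_cases h0 : i = 0
      · subst h0
        obtain ⟨h | h, -⟩ := h <;> simp [h.1, h.2, Sg.s0]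
      · by_cases h1 : i = 1
        · subst h1
          obtain ⟨h | h, -⟩ := h <;> simp [h.1, h.2, Sg.s1]
        · rw [Equiv.swap_apply_of_ne_of_ne h0 h1]
          obtain ⟨h | h, -⟩ := h <;> simp [h.1, h.2, h0, h1]
    · simp [e]⟩

theorem dd_mul (h : Pos a b k) (w w' z : ℂ) :
    (dd h).1.1 * Ei a b k w w' z = Ei a b k (2 * w) (2 * w') (4 * z) * (dd h).1.1 := by
  obtain ⟨h1, h2, h3⟩ := pos_ne h
  simp only [dd, SpecialLinearGroup.diag2n_coe, Ei, mul_add, add_mul, mul_sub, sub_mul, mul_one,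
    one_mul]
  rw [diag_single _ k b w (2 * w), diag_single _ a k w' (2 * w'), diag_single _ a b z (4 * z)]
  · simp only [if_true, if_neg h1.symm]
    ring
  · simp only [if_true, if_neg h2, if_neg h3]
    ring
  · simp only [if_true, if_neg h1.symm, if_neg h2, if_neg h3]
    ring

theorem ex_ei (he : EichStmt) (h : Pos a b k) (w z : ℂ) 
    (hz : z + conj z + sg ℂ k * (w * conj w) = 0) :
    ∃ g : SU n, g.1.1 = Ei a b k w (sg ℂ k * conj w) z := by
  obtain ⟨h1, h2, -⟩ := he n ℂ (starRingEnd ℂ) a b k w z h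
  exact ⟨⟨⟨_, h1 _⟩, h2 (by simp) hz⟩, rfl⟩

theorem su_ext {g g' : SU n} (h : g.1.1 = g'.1.1) : g = g' := Subtype.ext (Subtype.ext h)

theorem su_mul (g g' : SU n) : (g * g').1.1 = g.1.1 * g'.1.1 := rfl

/-- Positive characters of `SU(J)` are trivial. -/
theorem su_triv (he : EichStmt) (hu : GenUStmt) (χ : SU n →* ℝ≥0) (g : SU n) : χ g = 1 := by
  have h := hu n χ.ker fun a b k w z g hp hz hg => by
    obtain ⟨g₁, h₁⟩ := ex_ei he hp (2 * w) (4 * z) (by
      simp only [map_mul, map_ofNat]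
      linear_combination 4 * hz)
    obtain ⟨g₂, h₂⟩ := ex_ei he hp 0 (conj z - z) (by simp)
    have e₂ : χ g₂ = 1 := chi_four χ (d := dd hp) (su_ext (by
      simp only [su_mul, h₂, dd_mul, ei_mul hp]
      congr 2 <;> simp
      ring))
    have e₁ : χ g = χ g₁ := chi_conj χ (d := dd hp) (su_ext (by
      simp only [su_mul, hg, h₁, dd_mul, map_mul, map_ofNat, mul_left_comm]))
    have e : g * g = g₁ * g₂ := su_ext (by
      simp only [su_mul, hg, h₁, h₂, ei_mul hp, map_mul, map_ofNat, map_zero]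
      congr 1
      · ring
      · ring
      · linear_combination -hz)
    have e' := congrArg χ e
    rw [map_mul, map_mul, e₂, ← e₁] at e'
    exact mul_left_cancel₀ (chi_ne χ g) e'
  exact MonoidHom.mem_ker.1 (h ▸ Subgroup.mem_top g)

end su

end Unimod

open B.Unimod Unimod

theorem unimod : EichStmt → GenStmt → GenUStmt → UnimodStmt := fun he hg hu _ _ _ =>
  ⟨fun m _ => right_inv (sl_triv hg) m, fun m _ => right_inv (su_triv he hu) m,
    fun m _ => right_inv (hom_prod (sl_triv hg) (su_triv he hu)) m⟩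

end Pool.Agent.Lib.MP_9177b7_ag.B.U
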