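import Mathlib
import Pool.Agent.Lib.MP_9177b7_ag.U.St
import Pool.Agent.Lib.MP_9177b7_ag.B.ZAsm2

/-!
The lower bound for the quotient of the residues.
-/

open NumberField Pool.Agent.Shared.PrimeZeta Pool.Agent.Shared.FrobeniusDensity

noncomputable section

namespace Pool.Agent.Lib.MP_9177b7_ag.B.U

variable [Sg]

open Pool.Agent.Lib.MP_9177b7_ag.B.ZAsm

namespace ZAsmU

theorem psum_sub (L F : Type) [Field L] [NumberField L] [Field F] [NumberField F] {b : ℝ}
    (hb : 0 < b) : psum (fun q => (nI L q : ℝ) - nI F q) (1 + b) = Pz L b - Pz F b := by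
  have := psum_add (bdd_nI L) ((bdd_nI F).mul (-1)) (s := 1 + b) (by linarith)
  rw [psum_mul] at this
  simp only [neg_mul, one_mul, ← sub_eq_add_neg] at this
  exact this

theorem tsumP_ge {c : ℕ → ℝ} {N : ℝ} (h : ∀ q, q.Prime → -N ≤ c q) (x : ℝ) :
    -(N * tsumP (fun _ => 1) x) ≤ tsumP c x := by
  rw [tsumP, tsumP, Finset.mul_sum, ← Finset.sum_neg_distrib]
  refine Finset.sum_le_sum fun q hq => ?_
  have h1 := h q (Finset.mem_filter.1 hq).2
  have h2 : (0 : ℝ) ≤ q := Nat.cast_nonneg q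
  rw [mul_one_div, ← neg_div]
  gcongr

theorem one_le_discr (M : Type) [Field M] [NumberField M] : (1 : ℝ) ≤ |(discr M : ℝ)| := by
  rw [← Int.cast_abs]
  exact_mod_cast Int.one_le_abs (discr_ne_zero M)

end ZAsmU

open ZAsmU in
theorem zAsm : ZeroStmt → FrobStmt → GrpStmt → MertStmt → FrameStmt → CNFStmt → GalStmt →
    ZStmt := by
  intro hZ hF hG hM hFr hC hGal n p _ c δ hδ
  obtain ⟨g, A, C₁, hC₁, hgal⟩ := hGal n p c
  obtain ⟨C₃, -, hcnf⟩ := hC n p c
  set d : ℕ := max g (2 * (n + 3)) with hd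
  have hd2 : 2 * (n + 3) ≤ d := le_max_right _ _
  obtain ⟨c₀, C₀, hc₀, hcore⟩ := core hZ hF hG c.K d (by rw [c.dim]; omega)
  have hl2 : 0 ≤ Real.log (2 * C₁) := Real.log_nonneg (by linarith)
  set κ : ℝ := d ^ 2 * (Real.log (2 * C₁) + A) + 2 with hκ
  have hκ0 : 0 < κ := by positivity
  obtain ⟨CM, hCM⟩ := hM.1 ((2 * (n + 3) : ℕ) : ℝ) (c₀ * δ / κ) 1 (by positivity)
  obtain ⟨C₂, hC₂⟩ := hM.2
  refine ⟨Real.exp (C₀ + CM + (n + 3 : ℕ) * |C₂|), max (Real.exp 1) (2 ^ δ⁻¹), Real.exp_pos _, ?_⟩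
  intro D hD x hx1 hx2
  obtain ⟨E, _, _, _, Θ, G₀, H₀, ρ, hE, hΘ, hΘR, hH₀, eK, eL⟩ := hgal D
  obtain ⟨-, -, -, -, -, -, -, hrF, hrL, -⟩ := hFr n p c D
  obtain ⟨-, hFL, -⟩ := hcnf D
  set X : ℝ := |(discr D.L : ℝ)| with hX
  have hX1 : 1 ≤ X := one_le_discr _
  have hX0 : 0 < X := by linarith
  have hlX : 1 ≤ Real.log X := by
    rw [Real.le_log_iff_exp_le hX0]
    exact (le_max_left _ _).trans hD
  have hx3 : 2 ≤ x := by
    refine le_trans ?_ hx1
    calc (2 : ℝ) = (2 ^ δ⁻¹) ^ δ := (Real.rpow_inv_rpow (by norm_num) hδ.ne').symm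
      _ ≤ X ^ δ := Real.rpow_le_rpow (by positivity) ((le_max_right _ _).trans hD) hδ.le
  have hlx1 : δ * Real.log X ≤ Real.log x := by
    rw [← Real.log_rpow hX0]
    exact Real.log_le_log (by positivity) hx1
  have hlx2 : Real.log x ≤ Real.log X := Real.log_le_log (by linarith) hx2
  have hlx0 : 0 < Real.log x := Real.log_pos (by linarith)
  have hR : 1 ≤ C₁ * X ^ A := one_le_mul_of_one_le_of_one_le hC₁ (one_le_pow₀ hX1)
  have hlR : Real.log (2 * (C₁ * X ^ A)) = Real.log (2 * C₁) + A * Real.log X := by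
    rw [← mul_assoc, Real.log_mul (by positivity) (by positivity), Real.log_pow]
  set Lg : ℝ := d ^ 2 * Real.log (2 * (C₁ * X ^ A)) + Real.log X + 1 with hLg
  have h0 : 0 ≤ d ^ 2 * Real.log (2 * (C₁ * X ^ A)) :=
    mul_nonneg (by positivity) (Real.log_nonneg (by linarith))
  have hLg1 : Real.log X + 1 ≤ Lg := by linarith
  have hLg2 : Lg ≤ κ * Real.log X := by
    rw [hLg, hlR, hκ]
    have h1 : Real.log (2 * C₁) ≤ Real.log (2 * C₁) * Real.log X := le_mul_of_one_le_right hl2 hlX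
    have h2 : (0 : ℝ) ≤ d ^ 2 := by positivity
    nlinarith [mul_le_mul_of_nonneg_left h1 h2]
  have hLF : LL D.F ≤ Lg := by
    have h1 := one_le_discr D.F
    have h2 : |(discr D.F : ℝ)| ≤ X := le_trans (by nlinarith) hFL
    have := Real.log_le_log (by linarith) h2
    rw [LL]
    linarith
  obtain ⟨b, hb1, hb2, hb3⟩ := hcore E (Fin (n + 3)) G₀ H₀ ρ 0 Θ (C₁ * X ^ A) Lg D.L D.F
    (hE.trans (le_max_left _ _)) (by omega) (by omega) (by simp) hH₀ eK eL hR hΘ hΘR hLF hLg1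
    (by linarith)
  have hLg0 : 0 < Lg := by linarith
  have hb0 : 0 < b := lt_of_lt_of_le (by positivity) hb1
  have hnL : ∀ q : ℕ, q.Prime → (nI D.L q : ℝ) ≤ (2 * (n + 3) : ℕ) := fun q hq =>
    Nat.cast_le.2 (hrL ▸ nI_le' D.L hq)
  have hnF : ∀ q : ℕ, q.Prime → (nI D.F q : ℝ) ≤ (n + 3 : ℕ) := fun q hq =>
    Nat.cast_le.2 (hrF ▸ nI_le' D.F hq)
  have hm := hCM (fun q => (nI D.L q : ℝ) - nI D.F q) x b (fun q hq => by
      have h1 := hnL q hq
      have h2 := hnF q hq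
      have h3 : (0 : ℝ) ≤ nI D.L q := Nat.cast_nonneg _
      have h4 : (0 : ℝ) ≤ nI D.F q := Nat.cast_nonneg _
      push_cast at h1 h2 ⊢
      rw [abs_le]
      constructor <;> linarith) hx3
    (by
      calc c₀ * δ / κ = c₀ / (κ * Real.log X) * (δ * Real.log X) := by field_simp
        _ ≤ c₀ / Lg * Real.log x := by gcongr
        _ ≤ b * Real.log x := by gcongr)
    (by
      calc b * Real.log x ≤ 1 / Lg * Lg := by gcongr; linarith
        _ = 1 := by field_simp)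
  rw [psum_sub _ _ hb0, abs_le] at hm
  have kF := dedekindZeta_residue_pos D.F
  have kL := dedekindZeta_residue_pos D.L
  have hN : (0 : ℝ) ≤ (n + 3 : ℕ) * |C₂| := by positivity
  have main : tsumP (fun q => (nI D.L q : ℝ) - nI D.F q) x + Real.log (dedekindZeta_residue D.F) ≤
      C₀ + CM + Real.log (dedekindZeta_residue D.L) := by linarith [hm.1]
  constructor
  · rw [← Real.exp_log kF, ← Real.exp_log kL, ← Real.exp_add, ← Real.exp_add]
    exact Real.exp_le_exp.2 (by linarith)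
  · have h1 := tsumP_ge (c := fun q => (nI D.L q : ℝ) - nI D.F q) (N := (n + 3 : ℕ))
      (fun q hq => by
        have h2 := hnF q hq
        have h3 : (0 : ℝ) ≤ nI D.L q := Nat.cast_nonneg _
        linarith) x
    have h2 : tsumP (fun _ => 1) x ≤ Real.log (Real.log X) + |C₂| :=
      (hC₂ x hx3).trans (add_le_add (Real.log_le_log hlx0 hlx2) (le_abs_self _))
    have h3 := mul_le_mul_of_nonneg_left h2 (Nat.cast_nonneg (α := ℝ) (n + 3))
    rw [← Real.exp_log kF, ← Real.exp_log kL, ← Real.exp_log (show 0 < Real.log X by linarith),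
      ← Real.exp_nat_mul, ← Real.exp_add, ← Real.exp_add]
    exact Real.exp_le_exp.2 (by linarith)

end Pool.Agent.Lib.MP_9177b7_ag.B.U
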