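import Pool.Agent.Lib.MP_9177b7_ag.B.All
import Pool.Agent.Lib.MP_9177b7_ag.U.Amb
import Pool.Agent.Lib.MP_9177b7_ag.U.CNF
import Pool.Agent.Lib.MP_9177b7_ag.U.Count
import Pool.Agent.Lib.MP_9177b7_ag.U.DensP
import Pool.Agent.Lib.MP_9177b7_ag.U.DensR
import Pool.Agent.Lib.MP_9177b7_ag.U.Disc
import Pool.Agent.Lib.MP_9177b7_ag.U.Eich
import Pool.Agent.Lib.MP_9177b7_ag.U.Fib
import Pool.Agent.Lib.MP_9177b7_ag.U.Fin
import Pool.Agent.Lib.MP_9177b7_ag.U.Frame
import Pool.Agent.Lib.MP_9177b7_ag.U.Gal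
import Pool.Agent.Lib.MP_9177b7_ag.U.GenU
import Pool.Agent.Lib.MP_9177b7_ag.U.Geo
import Pool.Agent.Lib.MP_9177b7_ag.U.Idx
import Pool.Agent.Lib.MP_9177b7_ag.U.Iso
import Pool.Agent.Lib.MP_9177b7_ag.U.Lift
import Pool.Agent.Lib.MP_9177b7_ag.U.Mahler
import Pool.Agent.Lib.MP_9177b7_ag.U.Main
import Pool.Agent.Lib.MP_9177b7_ag.U.Meas
import Pool.Agent.Lib.MP_9177b7_ag.U.Move
import Pool.Agent.Lib.MP_9177b7_ag.U.Nbr
import Pool.Agent.Lib.MP_9177b7_ag.U.Orb
import Pool.Agent.Lib.MP_9177b7_ag.U.Proj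
import Pool.Agent.Lib.MP_9177b7_ag.U.Rep
import Pool.Agent.Lib.MP_9177b7_ag.U.Trans
import Pool.Agent.Lib.MP_9177b7_ag.U.Tube
import Pool.Agent.Lib.MP_9177b7_ag.U.Typ
import Pool.Agent.Lib.MP_9177b7_ag.U.Unimod
import Pool.Agent.Lib.MP_9177b7_ag.U.ZAsm

/-!
All the steps together.
-/

namespace Pool.Agent.Lib.MP_9177b7_ag.B.U

variable [Sg]

theorem z_all : ZStmt :=
  zAsm (zero (fac (zetaBd (theta_bd (pack red))))) frob grp mert frame (cnf frame) (gal red frame)

theorem iso_all : IsoStmt := iso frame cyc (nbr frame (trans eich))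

theorem count_all : CountStmt :=
  count frame (amb frame) iso_all (fib frame (amb frame)) (rep frame idc den) (cnf frame)
    (geo red frame) den (slice (shiuN sieveN) den (lv idc den) (plv pad den)) z_all

theorem main_all : MainStmt :=
  have hD := disc pad
  have hP := densP eich gen hD
  have hπ := proj_stmt hD hP
  have hT := tube hD hP (mahler red hD)
  have hL := lift pad hD frame
  main hD (densR eich hD (genU eich)) (unimod eich gen (genU eich)) hπ hT
    (meas pad frame (amb frame) (orb frame (amb frame)) iso_all hL (move pad hD frame hL) hπ hT)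
    count_all dyn_all

theorem final_all : FinalStmt := fin (typ idx) (same frame (amb frame)) main_all

end Pool.Agent.Lib.MP_9177b7_ag.B.U
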