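import Mathlib

/-!
Arithmetic quotients of the symmetric spaces of the unitary groups `U(a, b)` over an imaginary
quadratic field `K`, their CM points, and the orbits given by the reciprocity law.
-/

open NumberField Matrix
open scoped nonZeroDivisors ComplexConjugate ComplexOrder

noncomputable section

namespace Pool.Agent.Lib.MP_9177b7_ag.B.U

/-- The signs `s 2, s 3, …` of the diagonal part of the hermitian form. -/
class Sg where
  s : ℕ → ℤˣ
  s0 : s 0 = 1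
  s1 : s 1 = 1

variable [Sg] (n : ℕ)

/-- The Gram matrix of the hermitian form
`x₀ ȳ₁ + x₁ ȳ₀ + s₂ x₂ ȳ₂ + ⋯ + s_{n+2} x_{n+2} ȳ_{n+2}`. -/
def Jm (R : Type) [Ring R] : Matrix (Fin (n + 3)) (Fin (n + 3)) R :=
  Matrix.of fun i j => if j = Equiv.swap 0 1 i then ((Sg.s i : ℤ) : R) else 0

/-- The form has signature `(n + 3 - nb, nb)`. -/
def nb : ℕ := (Finset.univ.filter fun i : Fin (n + 3) => i = 1 ∨ Sg.s i = -1).card

omit [Sg] in
/-- The ring of integers of `K`, inside `ℂ`. -/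
def OK (K : IntermediateField ℚ ℂ) : Subring ℂ := K.toSubring ⊓ (integralClosure ℤ ℂ).toSubring

/-- The symmetric space of `U(J)`: the majorants of `J`. -/
abbrev Cone : Type :=
  {Q : Matrix (Fin (n + 3)) (Fin (n + 3)) ℂ // Q.PosDef ∧ Q * Jm n ℂ * Q = Jm n ℂ}

/-- The quotient of the symmetric space by `U(J)(O_K)`, with the quotient topology. -/
abbrev SS (K : IntermediateField ℚ ℂ) : Type :=
  Quot fun Q Q' : Cone n => ∃ g : Matrix (Fin (n + 3)) (Fin (n + 3)) ℂ,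
    gᴴ * Jm n ℂ * g = Jm n ℂ ∧ (∀ i j, g i j ∈ OK K) ∧ Q'.1 = gᴴ * Q.1 * g

/-- The real group `SU(J)`. -/
def SU : Subgroup (SpecialLinearGroup (Fin (n + 3)) ℂ) where
  carrier := {g | g.1ᴴ * Jm n ℂ * g.1 = Jm n ℂ}
  one_mem' := by simp
  mul_mem' {g h} hg hh := by
    change (g.1 * h.1)ᴴ * Jm n ℂ * (g.1 * h.1) = Jm n ℂ
    calc _ = h.1ᴴ * (g.1ᴴ * Jm n ℂ * g.1) * h.1 := by simp only [conjTranspose_mul, mul_assoc]
      _ = _ := by rw [hg, hh]
  inv_mem' {g} hg := by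
    change g⁻¹.1ᴴ * Jm n ℂ * g⁻¹.1 = Jm n ℂ
    have e : g.1 * g⁻¹.1 = 1 := congrArg Subtype.val (mul_inv_cancel g)
    calc _ = g⁻¹.1ᴴ * (g.1ᴴ * Jm n ℂ * g.1) * g⁻¹.1 := by rw [hg]
      _ = (g.1 * g⁻¹.1)ᴴ * Jm n ℂ * (g.1 * g⁻¹.1) := by simp only [conjTranspose_mul, mul_assoc]
      _ = _ := by rw [e, conjTranspose_one, one_mul, mul_one]

/-- The arithmetic group `SU(J)(O_K)`. -/
def G1 (K : IntermediateField ℚ ℂ) : Subgroup (SU n) :=
  (SpecialLinearGroup.map (OK K).subtype).range.subgroupOf (SU n)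

/-- The homogeneous space `SU(J) / SU(J)(O_K)`. -/
abbrev YY (K : IntermediateField ℚ ℂ) : Type := SU n ⧸ G1 n K

theorem s_swap (i : Fin (n + 3)) : Sg.s (Equiv.swap (0 : Fin (n + 3)) 1 i : Fin (n + 3)) = Sg.s i := by
  rw [Equiv.swap_apply_def]
  split_ifs with h h'
  · rw [h]; exact Sg.s1.trans Sg.s0.symm
  · rw [h']; exact Sg.s0.trans Sg.s1.symm
  · rfl

theorem s_sq (R : Type) [Ring R] (i : ℕ) : ((Sg.s i : ℤ) : R) * ((Sg.s i : ℤ) : R) = 1 := by
  rw [← Int.cast_mul, ← Units.val_mul, Int.units_mul_self, Units.val_one, Int.cast_one]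

theorem Jm_mul {R : Type} [Ring R] (g : Matrix (Fin (n + 3)) (Fin (n + 3)) R) (i l : Fin (n + 3)) :
    (Jm n R * g) i l = ((Sg.s i : ℤ) : R) * g (Equiv.swap 0 1 i) l := by
  simp [Jm, mul_apply]

theorem Jm_mul_Jm (R : Type) [Ring R] : Jm n R * Jm n R = 1 := by
  ext i l
  rw [Jm_mul, Jm, of_apply, Equiv.swap_apply_self, s_swap, one_apply, mul_ite, s_sq, mul_zero]
  simp only [eq_comm]

theorem maj_mem (g : SU n) :
    (g.1.1ᴴ * g.1.1).PosDef ∧ g.1.1ᴴ * g.1.1 * Jm n ℂ * (g.1.1ᴴ * g.1.1) = Jm n ℂ := by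
  have h : g.1.1ᴴ * Jm n ℂ * g.1.1 = Jm n ℂ := g.2
  have h1 : Jm n ℂ * g.1.1ᴴ * Jm n ℂ * g.1.1 = 1 := by
    rw [mul_assoc, mul_assoc, ← mul_assoc g.1.1ᴴ, h, Jm_mul_Jm]
  have h2 : g.1.1 * Jm n ℂ * g.1.1ᴴ = Jm n ℂ := by
    have h3 := congrArg (· * Jm n ℂ) (mul_eq_one_comm.1 h1)
    simpa only [mul_assoc, Jm_mul_Jm, mul_one, one_mul] using h3
  refine ⟨?_, ?_⟩
  · refine PosDef.conjTranspose_mul_self _ (mulVec_injective_iff_isUnit.2 ?_)
    exact (isUnit_iff_isUnit_det _).2 (by rw [g.1.2]; exact isUnit_one)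
  · calc _ = g.1.1ᴴ * (g.1.1 * Jm n ℂ * g.1.1ᴴ) * g.1.1 := by simp only [mul_assoc]
      _ = _ := by rw [h2, h]

/-- The projection `g Γ ↦ [gᴴ g]`. -/
def proj (K : IntermediateField ℚ ℂ) (y : YY n K) : SS n K :=
  Quot.mk _ ⟨y.out.1.1ᴴ * y.out.1.1, maj_mem n _⟩

variable (K : IntermediateField ℚ ℂ) [NumberField K] {L : Type} [Field L] [NumberField L]
  [IsCMField L] [Algebra K L]

omit [NumberField K] in
/-- `e` is an `O_K`-basis of the fractional ideal `a` of `L` in which the hermitian form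
`Tr_{L/K}(λ x ȳ)` has Gram matrix `J`. -/
def Frame (lam : L) (a : FractionalIdeal (𝓞 L)⁰ L) (e : Fin (n + 3) → L) : Prop :=
  (∀ i j, Algebra.trace K L (lam * e i * IsCMField.complexConj L (e j)) = Jm n K i j) ∧
    ∀ x, x ∈ a ↔ ∃ c : Fin (n + 3) → 𝓞 K, x = ∑ i, algebraMap K L (c i) * e i

/-- A CM datum: `[L : K] = n + 3` with Galois group the full symmetric group, `p` splits completely
in `L`, `λ` is real and negative at `nb` embeddings, and `(a, Tr(λ x ȳ))` is isometric to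
`(O_K ^ N, J)`. -/
structure Special (p : ℕ) [Fact p.Prime] (lam : L) (a : FractionalIdeal (𝓞 L)⁰ L) : Prop where
  dim : Module.finrank K L = n + 3
  gal : ∀ π : Equiv.Perm (L →ₐ[K] ℂ), ∃ σ : ℂ ≃ₐ[K] ℂ, ∀ ψ x, π ψ x = σ (ψ x)
  split : Nat.card (L →+* ℚ_[p]) = 2 * (n + 3)
  real : IsCMField.complexConj L lam = lam
  sign : Nat.card {φ : L →ₐ[K] ℂ // (φ lam).re < 0} = nb n
  frame : ∃ e, Frame n K lam a e

omit [Sg] in
/-- The majorant `∑_φ |φ λ| |φ x| ^ 2` of `Tr(λ x x̄)` in the frame `e`: the point of the symmetric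
space fixed by the torus `U(1)_{L / L⁺}`. -/
def maj (lam : L) (e : Fin (n + 3) → L) : Matrix (Fin (n + 3)) (Fin (n + 3)) ℂ :=
  Matrix.of fun k l => ∑ φ : L →ₐ[K] ℂ, (‖φ lam‖ : ℂ) * (conj (φ (e k)) * φ (e l))

omit [Sg] in
open Classical in
/-- `c` is the type norm of the ideal `B` of `M`: for every embedding `φ` of `L` into `M`,
`φ(c) O_M` is the product of the `τ B` over the `τ ∈ Gal(M / K)` with `τ⁻¹ φ λ < 0`. -/
def TypeNorm (lam : L) {M : IntermediateField K ℂ} [FiniteDimensional K M] (B : Ideal (𝓞 M))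
    (c : Ideal (𝓞 L)) : Prop :=
  ∀ φ : L →ₐ[K] M, c.map (RingOfIntegers.mapRingHom φ.toRingHom) =
    ∏ τ : M ≃ₐ[K] M with ((τ⁻¹ (φ lam) : M) : ℂ).re < 0,
      B.map (RingOfIntegers.mapRingHom τ.toAlgHom.toRingHom)

/-- The orbit given by the reciprocity law: the fixed points of the torus in the frames of the
lattices `c c̄⁻¹ a`, for `c` the type norm of a nonzero ideal of the normal closure of `L / K`
in `ℂ`. -/
def orbit (lam : L) (a : FractionalIdeal (𝓞 L)⁰ L) : Set (SS n K) :=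
  {x | ∃ (B : Ideal (𝓞 (IntermediateField.normalClosure K L ℂ))) (c : Ideal (𝓞 L))
    (e : Fin (n + 3) → L) (v : Cone n), B ≠ ⊥ ∧ TypeNorm K lam B c ∧
    Frame n K lam (c * ((c.map (IsCMField.ringOfIntegersComplexConj L) : Ideal (𝓞 L)) :
      FractionalIdeal (𝓞 L)⁰ L)⁻¹ * a) e ∧ v.1 = maj n K lam e ∧ x = Quot.mk _ v}

omit [Sg] in
/-- The mean of a function over a finite set. -/
def mean {X : Type} (O : Set X) (f : X → ℝ) : ℝ := (∑ᶠ x ∈ O, f x) / O.ncard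

end Pool.Agent.Lib.MP_9177b7_ag.B.U
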