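import Pool.Agent.Lib.MP_9177b7_ag.U.St

/-!
Elementary properties of a CM datum: conjugation, traces, embeddings, conjugate ideals.
-/

open NumberField Matrix
open scoped nonZeroDivisors ComplexConjugate

noncomputable section

namespace Pool.Agent.Lib.MP_9177b7_ag.B.U.Frame

variable [Sg] {n p : ℕ} [Fact p.Prime] {c : Ctx p} (D : Dat n c)

instance tower : IsScalarTower ℚ c.K D.L :=
  IsScalarTower.of_algebraMap_eq' (Subsingleton.elim _ _)

instance finKL : FiniteDimensional c.K D.L := Module.Finite.of_restrictScalars_finite ℚ _ _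

theorem bar_bar (x : D.L) : D.bar (D.bar x) = x := IsCMField.complexConj_apply_apply D.L x

theorem emb_bar (σ : D.L →ₐ[c.K] ℂ) (x : D.L) : σ (D.bar x) = conj (σ x) :=
  IsCMField.complexEmbedding_complexConj D.L σ.toRingHom x

omit [Sg] in
theorem cj_cj (x : c.K) : c.cj (c.cj x) = x := by
  apply Subtype.ext
  rw [c.cj_coe, c.cj_coe, Complex.conj_conj]

theorem fr1 (x : c.K) : D.bar (algebraMap c.K D.L x) = algebraMap c.K D.L (c.cj x) := by
  apply (D.Φ 0).toRingHom.injective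
  change D.Φ 0 (D.bar _) = D.Φ 0 _
  rw [emb_bar, AlgHom.commutes, AlgHom.commutes]
  exact (c.cj_coe x).symm

theorem fr4 (x : D.L) : (Algebra.trace c.K D.L x : ℂ) = ∑ i, D.Φ i x := by
  rw [Equiv.sum_comp D.Φ fun σ => σ x]
  exact trace_eq_sum_embeddings (K := c.K) (L := D.L) ℂ (x := x)

theorem fr2 (x : D.L) :
    Algebra.trace c.K D.L (D.bar x) = c.cj (Algebra.trace c.K D.L x) := by
  apply Subtype.ext
  rw [c.cj_coe, fr4, fr4, map_sum]
  exact Finset.sum_congr rfl fun i _ => emb_bar D _ x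

theorem fr3 (x : D.L) : c.j (Algebra.trace c.K D.L x) = ∑ i, D.ψ i x := by
  classical
  let _ : Algebra c.K (AlgebraicClosure ℚ_[p]) :=
    ((algebraMap ℚ_[p] (AlgebraicClosure ℚ_[p])).comp c.j).toAlgebra
  let f : Fin (n + 3) → (D.L →ₐ[c.K] AlgebraicClosure ℚ_[p]) := fun i =>
    { (algebraMap ℚ_[p] (AlgebraicClosure ℚ_[p])).comp (D.ψ i) with
      commutes' := fun y => congrArg (algebraMap ℚ_[p] (AlgebraicClosure ℚ_[p])) (D.ψ_j i y) }
  have hf : Function.Injective f := fun i l h => D.ψ_inj (RingHom.ext fun y =>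
    (algebraMap ℚ_[p] (AlgebraicClosure ℚ_[p])).injective (DFunLike.congr_fun h y))
  have hb : Function.Bijective f := (Fintype.bijective_iff_injective_and_card f).2
    ⟨hf, by rw [AlgHom.card, D.sp.dim, Fintype.card_fin]⟩
  apply (algebraMap ℚ_[p] (AlgebraicClosure ℚ_[p])).injective
  rw [map_sum]
  have h := trace_eq_sum_embeddings (K := c.K) (L := D.L) (AlgebraicClosure ℚ_[p]) (x := x)
  rw [← Equiv.sum_comp (Equiv.ofBijective f hb) fun σ => σ x] at h
  exact h

theorem fr9 : Module.finrank ℚ D.L = 2 * (n + 3) := by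
  rw [← Module.finrank_mul_finrank ℚ c.K D.L, D.sp.dim]
  exact congrArg (· * (n + 3)) c.dim

theorem fr8 : Module.finrank ℚ D.F = n + 3 := by
  have h := Module.finrank_mul_finrank ℚ D.F D.L
  rw [fr9, Algebra.IsQuadraticExtension.finrank_eq_two D.F D.L] at h
  omega

omit [Sg] in
theorem δ_ne' : (c.δ : c.K) ≠ 0 := fun h => c.δ_ne (RingOfIntegers.ext h)

theorem bar_δ : D.bar (algebraMap c.K D.L c.δ) = -algebraMap c.K D.L c.δ := by
  rw [fr1, c.δ_cj, map_neg]

theorem fr10 (x : D.L) : ∃ y z : D.F, x = y + algebraMap c.K D.L c.δ * z := by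
  have hδ : algebraMap c.K D.L c.δ ≠ 0 := (map_ne_zero _).2 δ_ne'
  have h1 : (x + D.bar x) / 2 ∈ maximalRealSubfield D.L := by
    rw [← IsCMField.complexConj_eq_self_iff, map_div₀, map_add, map_ofNat,
      IsCMField.complexConj_apply_apply, add_comm]
  have h2 : (x - D.bar x) / (2 * algebraMap c.K D.L c.δ) ∈ maximalRealSubfield D.L := by
    rw [← IsCMField.complexConj_eq_self_iff, map_div₀, map_sub, map_mul, map_ofNat,
      IsCMField.complexConj_apply_apply]
    change (D.bar x - x) / (2 * D.bar _) = _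
    rw [bar_δ]
    field_simp
    ring
  refine ⟨⟨_, h1⟩, ⟨_, h2⟩, ?_⟩
  change x = (x + D.bar x) / 2 + _ * ((x - D.bar x) / (2 * algebraMap c.K D.L c.δ))
  field_simp
  ring

omit [Sg] in
/-- Every element of `K` is a rational combination of `1` and `δ`. -/
theorem K_dec (t : c.K) : ∃ a b : ℚ, t = a + b * (c.δ : c.K) := by
  have hli : LinearIndependent ℚ ![(1 : c.K), (c.δ : c.K)] := by
    rw [LinearIndependent.pair_iff]
    intro s r h
    rw [Rat.smul_def, Rat.smul_def, mul_one] at h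
    have h' := congrArg c.cj h
    rw [map_add, map_mul, map_ratCast, map_ratCast, c.δ_cj, map_zero] at h'
    have hs : (s : c.K) = 0 := by linear_combination (h + h') / 2
    have hr : (r : c.K) * c.δ = 0 := by linear_combination (h - h') / 2
    exact ⟨by exact_mod_cast hs, by exact_mod_cast (mul_eq_zero.1 hr).resolve_right δ_ne'⟩
  have hsp := hli.span_eq_top_of_card_eq_finrank' (by rw [Fintype.card_fin]; exact c.dim.symm)
  have ht : t ∈ Submodule.span ℚ (Set.range ![(1 : c.K), (c.δ : c.K)]) := hsp ▸ Submodule.mem_top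
  obtain ⟨a, ha⟩ := (Submodule.mem_span_range_iff_exists_fun ℚ).1 ht
  refine ⟨a 0, a 1, ?_⟩
  rw [← ha, Fin.sum_univ_two, Rat.smul_def, Rat.smul_def]
  simp

omit [Sg] in
/-- An element of `K` fixed by conjugation is rational. -/
theorem rat_of_cj {t : c.K} (h : c.cj t = t) : ∃ a : ℚ, t = a := by
  obtain ⟨a, b, rfl⟩ := K_dec t
  rw [map_add, map_mul, map_ratCast, map_ratCast, c.δ_cj] at h
  exact ⟨a, by linear_combination (-1 / 2 : c.K) * h⟩

theorem fr5 (τ : D.F) : Algebra.trace c.K D.L τ = (Algebra.trace ℚ D.F τ : ℚ) := by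
  obtain ⟨a, ha⟩ : ∃ a : ℚ, Algebra.trace c.K D.L τ = a := by
    apply rat_of_cj
    rw [← fr2]
    exact congrArg _ (IsCMField.complexConj_apply_eq_self D.L τ)
  have h1 := Algebra.trace_trace (R := ℚ) (S := c.K) (T := D.L) (τ : D.L)
  have h2 := Algebra.trace_trace (R := ℚ) (S := D.F) (T := D.L) (τ : D.L)
  have h3 : Algebra.trace D.F D.L (τ : D.L) = 2 • τ := by
    rw [← Algebra.IsQuadraticExtension.finrank_eq_two D.F D.L]
    exact Algebra.trace_algebraMap τ
  have h4 : Algebra.trace ℚ c.K (a : c.K) = 2 • a := by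
    rw [← c.dim]
    exact Algebra.trace_algebraMap a
  rw [ha, h4, ← h2, h3, map_nsmul] at h1
  rw [ha]
  congr 1
  rw [two_nsmul, two_nsmul] at h1
  linarith

theorem fr6 : Function.Injective fun i => (D.ψ i).comp (algebraMap D.F D.L) := by
  intro i l h
  refine D.ψ_inj (RingHom.ext fun x => ?_)
  obtain ⟨y, z, rfl⟩ := fr10 D x
  have hy : D.ψ i y = D.ψ l y := DFunLike.congr_fun h y
  have hz : D.ψ i z = D.ψ l z := DFunLike.congr_fun h z
  rw [map_add, map_add, map_mul, map_mul, D.ψ_j, D.ψ_j, hy, hz]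

theorem fr7 (i l : Fin (n + 3)) : ∃ x, D.ψ i (D.bar x) ≠ D.ψ l x := by
  refine ⟨algebraMap c.K D.L c.δ, ?_⟩
  rw [bar_δ, map_neg, D.ψ_j, D.ψ_j]
  intro h
  exact (map_ne_zero c.j).2 δ_ne' (by linear_combination (-1 / 2 : ℚ_[p]) * h)

theorem equiv_eq (x : D.L) : IsFractionRing.ringEquivOfRingEquiv (K := D.L) (L := D.L)
    (IsCMField.ringOfIntegersComplexConj D.L).toRingEquiv x = D.bar x := by
  obtain ⟨a, b, hb, rfl⟩ := IsFractionRing.div_surjective (A := 𝓞 D.L) x
  rw [map_div₀, IsFractionRing.ringEquivOfRingEquiv_algebraMap,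
    IsFractionRing.ringEquivOfRingEquiv_algebraMap]
  exact (map_div₀ (IsCMField.complexConj D.L) _ _).symm

theorem fr11 (a : D.FI) (x : D.L) : x ∈ D.cF a ↔ D.bar x ∈ a := by
  have h : x ∈ D.cF a ↔ ∃ y ∈ a, IsFractionRing.ringEquivOfRingEquiv (K := D.L) (L := D.L)
      (IsCMField.ringOfIntegersComplexConj D.L).toRingEquiv y = x := Iff.rfl
  rw [h]
  constructor
  · rintro ⟨y, hy, rfl⟩
    rwa [equiv_eq, bar_bar]
  · intro hx
    exact ⟨_, hx, by rw [equiv_eq, bar_bar]⟩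

theorem fr12 (b : Ideal (𝓞 D.L)) : D.cF b = (D.cI b : Ideal (𝓞 D.L)) := by
  ext x
  rw [fr11, FractionalIdeal.mem_coeIdeal, FractionalIdeal.mem_coeIdeal]
  constructor
  · rintro ⟨y, hy, h⟩
    refine ⟨_, Ideal.mem_map_of_mem _ hy, ?_⟩
    change D.bar (algebraMap _ D.L y) = x
    rw [h, bar_bar]
  · rintro ⟨y, hy, rfl⟩
    obtain ⟨z, hz, rfl⟩ := (Ideal.mem_map_iff_of_surjective _
      (IsCMField.ringOfIntegersComplexConj D.L).surjective).1 hy
    exact ⟨z, hz, (bar_bar D _).symm⟩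

theorem fr13 (x : D.L) : D.cF (FractionalIdeal.spanSingleton _ x) =
    FractionalIdeal.spanSingleton _ (D.bar x) := by
  rw [← equiv_eq]
  exact FractionalIdeal.ringEquivOfRingEquiv_spanSingleton _ _ _ x

theorem fr14 (a : D.FI) : D.cF (D.cF a) = a := by
  ext x
  rw [fr11, fr11, bar_bar]

/-- Membership in the inverse of the relative different. -/
theorem mem_Ad (x : D.L) :
    x ∈ D.Ad ↔ ∀ y : 𝓞 D.L, IsIntegral ℤ (Algebra.trace c.K D.L (x * y)) := by
  rw [Dat.Ad, FractionalIdeal.mem_dual (one_ne_zero' D.FI)]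
  constructor
  · intro h y
    obtain ⟨z, hz⟩ := h y ((FractionalIdeal.mem_one_iff _).2 ⟨y, rfl⟩)
    rw [Algebra.traceForm_apply] at hz
    rw [← hz]
    exact z.isIntegral_coe
  · intro h y hy
    obtain ⟨z, rfl⟩ := (FractionalIdeal.mem_one_iff _).1 hy
    exact ⟨⟨_, h z⟩, rfl⟩

omit [Sg] in
theorem cj_int {t : c.K} (h : IsIntegral ℤ t) : IsIntegral ℤ (c.cj t) :=
  h.map c.cj.toRingHom.toIntAlgHom

theorem bar_mem_Ad {x : D.L} (h : x ∈ D.Ad) : D.bar x ∈ D.Ad := by
  rw [mem_Ad] at h ⊢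
  intro y
  have e : D.bar x * y = D.bar (x * (IsCMField.ringOfIntegersComplexConj D.L y : 𝓞 D.L)) := by
    rw [IsCMField.coe_ringOfIntegersComplexConj, Dat.bar, Dat.bar, map_mul,
      IsCMField.complexConj_apply_apply]
  rw [e, fr2]
  exact cj_int (h _)

theorem fr15 : D.cF D.Ad = D.Ad := by
  ext x
  rw [fr11]
  exact ⟨fun h => bar_bar D x ▸ bar_mem_Ad D h, bar_mem_Ad D⟩

theorem fr16 : D.lam ≠ 0 := by
  intro h
  obtain ⟨e, he⟩ := D.sp.frame
  have := he.1 0 1
  rw [h, zero_mul, zero_mul, map_zero] at this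
  simp [Jm_apply, sg_zero] at this

end Pool.Agent.Lib.MP_9177b7_ag.B.U.Frame
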