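import Mathlib
import Pool.Agent.Lib.MP_9177b7_ag.U.St
import Pool.Agent.Lib.MP_9177b7_ag.B.Gal1
import Pool.Agent.Lib.MP_9177b7_ag.B.ZAsm1

/-!
The Galois closure of a CM datum.
-/

open NumberField IntermediateField Pool.Agent.Shared.PrimeZeta

noncomputable section

namespace Pool.Agent.Lib.MP_9177b7_ag.B.U

variable [Sg]

open Pool.Agent.Lib.MP_9177b7_ag.B.Gal

namespace GalU

variable {n p : ℕ} [Fact p.Prime] {c : Ctx p} (D : Dat n c)

/-- The normal closure. -/
abbrev EE : IntermediateField ℚ ℂ := normalClosure ℚ D.L ℂ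

instance : NumberField (EE D) := @NumberField.mk _ _ inferInstance inferInstance

instance : IsNormalClosure ℚ D.L (EE D) :=
  Algebra.IsAlgebraic.isNormalClosure_normalClosure fun _ => IsAlgClosed.splits _

instance : Normal ℚ (EE D) := IsNormalClosure.normal (K := D.L)

instance : IsGalois ℚ (EE D) := {}

/-- The embeddings into the normal closure. -/
def emb (i : Fin (n + 3)) : D.L →ₐ[ℚ] EE D :=
  (normalClosure.algHomEquiv ℚ D.L ℂ).symm (D.Φ i : D.L →+* ℂ).toRatAlgHom

theorem emb_coe (i : Fin (n + 3)) (x : D.L) : (emb D i x : ℂ) = D.Φ i x := rfl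

theorem emb_K (i : Fin (n + 3)) (x : c.K) :
    emb D i (algebraMap c.K D.L x) = emb D 0 (algebraMap c.K D.L x) :=
  Subtype.ext (by rw [emb_coe, emb_coe, AlgHom.commutes, AlgHom.commutes])

/-- The base field inside the normal closure. -/
def embK : c.K →ₐ[ℚ] EE D := (emb D 0).comp (algebraMap c.K D.L).toRatAlgHom

/-- The Galois group over the base field. -/
def G0 : Subgroup (EE D ≃ₐ[ℚ] EE D) := (embK D).fieldRange.fixingSubgroup

theorem mem_G0 {σ : EE D ≃ₐ[ℚ] EE D} : σ ∈ G0 D ↔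
    ∀ x : c.K, σ (emb D 0 (algebraMap c.K D.L x)) = emb D 0 (algebraMap c.K D.L x) := by
  rw [G0, IntermediateField.mem_fixingSubgroup_iff]
  exact ⟨fun h x => h _ ⟨x, rfl⟩, by rintro h _ ⟨x, rfl⟩; exact h x⟩

/-- The translate of an embedding. -/
def tr (σ : G0 D) (i : Fin (n + 3)) : D.L →ₐ[c.K] ℂ :=
  { ((EE D).val : EE D →+* ℂ).comp ((σ.1 : EE D →+* EE D).comp (emb D i : D.L →+* EE D)) with
    commutes' := fun x => by
      change ((σ.1 (emb D i (algebraMap c.K D.L x)) : EE D) : ℂ) = _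
      rw [emb_K, (mem_G0 D).1 σ.2 x, emb_coe, AlgHom.commutes] }

/-- The action on the numbers of the embeddings. -/
def act (σ : G0 D) (i : Fin (n + 3)) : Fin (n + 3) := D.Φ.symm (tr D σ i)

theorem emb_act (σ : G0 D) (i : Fin (n + 3)) (x : D.L) :
    emb D (act D σ i) x = σ.1 (emb D i x) :=
  Subtype.ext (by rw [emb_coe, act, Equiv.apply_symm_apply]; rfl)

theorem emb_inj {i j : Fin (n + 3)} (h : ∀ x, emb D i x = emb D j x) : i = j :=
  D.Φ.injective (AlgHom.ext fun x => congrArg Subtype.val (h x))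

/-- The action as a homomorphism. -/
def rho : G0 D →* Equiv.Perm (Fin (n + 3)) :=
  MonoidHom.toHomPerm
    { toFun := act D
      map_one' := funext fun i => emb_inj D fun x => by rw [emb_act]; rfl
      map_mul' := fun σ τ => funext fun i => emb_inj D fun x => by
        change _ = emb D (act D σ (act D τ i)) x
        rw [emb_act, emb_act, emb_act]; rfl }

theorem rho_apply (σ : G0 D) (i : Fin (n + 3)) : rho D σ i = act D σ i := rfl

theorem all_emb (h1 : ∀ x : c.K, D.bar (algebraMap c.K D.L x) = algebraMap c.K D.L (c.cj x))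
    (h2 : Module.finrank ℚ D.L = 2 * (n + 3)) (f : D.L →+* ℂ) :
    ∃ i, (∀ x, f x = D.Φ i x) ∨ ∀ x, f x = D.Φ i (D.bar x) := by
  let b : D.L →+* D.L := IsCMField.complexConj D.L
  let F : Fin (n + 3) ⊕ Fin (n + 3) → (D.L →+* ℂ) :=
    Sum.elim (fun i => D.Φ i) fun i => (D.Φ i : D.L →+* ℂ).comp b
  have hδ : ∀ i j, (D.Φ i : D.L →+* ℂ) ≠ (D.Φ j : D.L →+* ℂ).comp b := by
    intro i j e
    have h3 : D.Φ i (algebraMap c.K D.L c.δ) = D.Φ j (D.bar (algebraMap c.K D.L c.δ)) :=
      DFunLike.congr_fun e _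
    rw [h1, c.δ_cj, AlgHom.commutes, AlgHom.commutes, map_neg, eq_neg_iff_add_eq_zero,
      add_self_eq_zero, map_eq_zero] at h3
    exact c.δ_ne (RingOfIntegers.coe_eq_zero_iff.1 h3)
  have inj : Function.Injective F := by
    rintro (i | i) (j | j) e
    · exact congrArg _ (D.Φ.injective (AlgHom.ext fun x => DFunLike.congr_fun e x))
    · exact absurd e (hδ i j)
    · exact absurd e.symm (hδ j i)
    · refine congrArg _ (D.Φ.injective (AlgHom.ext fun x => ?_))
      have h3 : D.Φ i (D.bar (D.bar x)) = D.Φ j (D.bar (D.bar x)) := DFunLike.congr_fun e (D.bar x)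
      simpa using h3
  have bij : Function.Bijective F := (Fintype.bijective_iff_injective_and_card F).2
    ⟨inj, by rw [Embeddings.card, h2, Fintype.card_sum, Fintype.card_fin, two_mul]⟩
  obtain ⟨i | i, rfl⟩ := bij.2 f
  · exact ⟨i, Or.inl fun _ => rfl⟩
  · exact ⟨i, Or.inr fun _ => rfl⟩

theorem rho_bij (h1 : ∀ x : c.K, D.bar (algebraMap c.K D.L x) = algebraMap c.K D.L (c.cj x))
    (h2 : Module.finrank ℚ D.L = 2 * (n + 3)) : Function.Bijective (rho D) := by
  constructor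
  · rw [injective_iff_map_eq_one]
    intro σ hσ
    have h3 : ∀ i x, σ.1 (emb D i x) = emb D i x := fun i x => by
      rw [← emb_act, ← rho_apply, hσ]; rfl
    refine Subtype.ext (eq_one_of_fix (L := D.L) σ.1 fun f x => ?_)
    obtain ⟨i, h | h⟩ := all_emb D h1 h2 (((EE D).val : EE D →+* ℂ).comp (f : D.L →+* EE D))
    · rw [show f x = emb D i x from Subtype.ext (h x), h3]
    · rw [show f x = emb D i (D.bar x) from Subtype.ext (h x), h3]
  · intro π
    obtain ⟨τ, hτ⟩ := D.sp.gal (D.Φ.permCongr π)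
    let σ : EE D ≃ₐ[ℚ] EE D := (τ.restrictScalars ℚ).restrictNormal (EE D)
    have hσ : ∀ y : EE D, ((σ y : EE D) : ℂ) = τ y := fun y =>
      AlgEquiv.restrictNormal_commutes (τ.restrictScalars ℚ) (EE D) y
    refine ⟨⟨σ, (mem_G0 D).2 fun x => Subtype.ext ?_⟩, Equiv.ext fun i => emb_inj D fun x =>
      Subtype.ext ?_⟩
    · rw [hσ, emb_coe, AlgHom.commutes, AlgEquiv.commutes]
    · rw [rho_apply, emb_act, hσ, emb_coe, emb_coe, ← hτ]
      simp

theorem nI_fix {M : Type} [Field M] [NumberField M] (f : M →ₐ[ℚ] EE D) (q : ℕ) :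
    nI (fixedField f.fieldRange.fixingSubgroup) q = nI M q :=
  (ZAsm.nI_congr ((AlgEquiv.ofInjectiveField f).trans
    (equivOfEq (IsGalois.fixedField_fixingSubgroup f.fieldRange).symm)).toRingEquiv q).symm

end GalU

open GalU in
theorem gal : RedStmt → FrameStmt → GalStmt := by
  intro _ hFr n p _ c
  set m := 2 * (n + 3) with hm
  refine ⟨m ^ m, 1, m * (m ^ m * m + 1) ^ m * (2 + 2 ^ m), ?_, fun D => ?_⟩
  · have h1 : (1 : ℝ) ≤ m := by exact_mod_cast (by omega : 1 ≤ m)
    have h2 : (1 : ℝ) ≤ (m ^ m * m + 1) ^ m := one_le_pow₀ (by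
      have : (0 : ℝ) ≤ m ^ m * m := by positivity
      linarith)
    have h3 : (1 : ℝ) ≤ 2 + 2 ^ m := by
      have : (0 : ℝ) ≤ 2 ^ m := by positivity
      linarith
    exact one_le_mul_of_one_le_of_one_le (one_le_mul_of_one_le_of_one_le h1 h2) h3
  obtain ⟨h1, -, -, -, -, -, -, -, h2, -⟩ := hFr n p c D
  obtain ⟨θ, hθ, hb⟩ := small_prim D.L
  obtain ⟨Θ, hΘ, hΘb⟩ := exists_theta (E := EE D) h2 θ hθ (by positivity) hb
  refine ⟨EE D, inferInstance, inferInstance, inferInstance, Θ, G0 D,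
    (emb D 0).fieldRange.fixingSubgroup, MulEquiv.ofBijective (rho D) (rho_bij D h1 h2), ?_, hΘ,
    fun φ => ?_, fun σ => ?_, nI_fix D _, nI_fix D _⟩
  · rw [← IsGalois.card_aut_eq_finrank]
    exact card_gal_le h2
  · refine (hΘb φ).trans_eq ?_
    rw [h2, pow_one, ← hm]
    ring
  · rw [IntermediateField.mem_fixingSubgroup_iff]
    constructor
    · intro h
      refine ⟨(mem_G0 D).2 fun x => h _ ⟨_, rfl⟩, emb_inj D fun x => ?_⟩
      rw [MulEquiv.ofBijective_apply, rho_apply, emb_act]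
      exact h _ ⟨x, rfl⟩
    · rintro ⟨h, e⟩ _ ⟨x, rfl⟩
      rw [MulEquiv.ofBijective_apply, rho_apply] at e
      have := emb_act D ⟨σ, h⟩ 0 x
      rw [e] at this
      exact this.symm

end Pool.Agent.Lib.MP_9177b7_ag.B.U
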