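import Pool.Agent.Lib.MP_9177b7_ag.U.Idx
import Pool.Agent.Lib.MP_9177b7_ag.B.Pad

/-! Type norms of ideals and the subgroup of the class group that they form. -/

open NumberField
open scoped nonZeroDivisors Classical Pointwise

noncomputable section

namespace Pool.Agent.Lib.MP_9177b7_ag.B.U

namespace Typ

section one

variable {L M : Type} [Field L] [NumberField L] [Field M] [NumberField M] [Algebra L M]

theorem ext_inj : Function.Injective (Ideal.map (algebraMap (𝓞 L) (𝓞 M))) := fun I J h => by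
  have := congrArg (Ideal.relNorm (𝓞 L)) h
  rwa [Ideal.relNorm_algebraMap, Ideal.relNorm_algebraMap,
    pow_left_inj Module.finrank_pos.ne'] at this

theorem nrm0 [IsGalois L M] (B : Ideal (𝓞 M)) :
    (Ideal.relNorm (𝓞 L) B).map (algebraMap (𝓞 L) (𝓞 M)) = ∏ h : M ≃ₐ[L] M, h • B := by
  by_cases hB : B = ⊥
  · rw [hB, Ideal.relNorm_bot, Ideal.map_bot, eq_comm]
    exact Finset.prod_eq_zero (Finset.mem_univ 1) (one_smul _ _)
  have h0 : B ∈ (Ideal (𝓞 M))⁰ := mem_nonZeroDivisors_of_ne_zero hB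
  have hn : orderOf (ClassGroup.mk0 ⟨B, h0⟩) ≠ 0 := (orderOf_pos _).ne'
  have h1 := pow_orderOf_eq_one (ClassGroup.mk0 ⟨B, h0⟩)
  rw [← map_pow] at h1
  obtain ⟨β, hβ⟩ := (ClassGroup.mk0_eq_one_iff (pow_mem h0 _)).1 h1
  rw [← pow_left_inj hn, ← Ideal.map_pow, ← map_pow, ← Finset.prod_pow]
  simp_rw [← smul_pow']
  rw [hβ, Ideal.submodule_span_eq, Ideal.relNorm_singleton, Ideal.map_span, Set.image_singleton]
  have : ∀ h : M ≃ₐ[L] M, h • Ideal.span {β} = Ideal.span {h • β} := fun h => by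
    rw [Ideal.pointwise_smul_def, Ideal.map_span, Set.image_singleton]; rfl
  simp_rw [this]
  rw [Ideal.prod_span_singleton]
  congr 2
  apply RingOfIntegers.ext
  rw [RingOfIntegers.coe_eq_algebraMap, ← IsScalarTower.algebraMap_apply,
    IsScalarTower.algebraMap_apply (𝓞 L) L M, Algebra.algebraMap_intNorm (L := M),
    Algebra.norm_eq_prod_automorphisms, RingOfIntegers.coe_eq_algebraMap, map_prod]
  rfl

end one

variable {K L M : Type} [Field K] [NumberField K] [Field L] [NumberField L] [Field M]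
  [NumberField M] [Algebra K L] [Algebra K M]

/-- The Galois group acts on the embeddings. -/
instance act : MulAction (M ≃ₐ[K] M) (L →ₐ[K] M) where
  smul τ φ := (τ : M →ₐ[K] M).comp φ
  one_smul _ := rfl
  mul_smul _ _ _ := rfl

omit [NumberField K] [NumberField L] [NumberField M] in
theorem act_apply (τ : M ≃ₐ[K] M) (φ : L →ₐ[K] M) (x : L) : (τ • φ) x = τ (φ x) := rfl

/-- The product of the conjugates `τ B` with `τ⁻¹ φ ∈ T`. -/
def Pd (T : Set (L →ₐ[K] M)) (φ : L →ₐ[K] M) (B : Ideal (𝓞 M)) : Ideal (𝓞 M) :=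
  ∏ τ ∈ Finset.univ.filter fun τ : M ≃ₐ[K] M => τ⁻¹ • φ ∈ T, τ • B

/-- The image of an ideal under an embedding. -/
abbrev mp (φ : L →ₐ[K] M) (c : Ideal (𝓞 L)) : Ideal (𝓞 M) :=
  c.map (RingOfIntegers.mapRingHom (φ : L →+* M))

/-- `c` is the type norm of `B`. -/
def TN (T : Set (L →ₐ[K] M)) (c : Ideal (𝓞 L)) (B : Ideal (𝓞 M)) : Prop :=
  ∀ φ : L →ₐ[K] M, mp φ c = Pd T φ B

omit [NumberField L] in
theorem Pd_smul (T : Set (L →ₐ[K] M)) (φ : L →ₐ[K] M) (B : Ideal (𝓞 M)) (ρ : M ≃ₐ[K] M) :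
    Pd T (ρ • φ) B = ρ • Pd T φ B := by
  rw [Pd, Pd, Finset.smul_prod']
  refine (Finset.prod_equiv (Equiv.mulLeft ρ) (fun τ => ?_) fun τ _ => ?_).symm
  · simp [mul_smul]
  · simp [mul_smul]

omit [NumberField L] in
theorem Pd_right (T : Set (L →ₐ[K] M)) (φ : L →ₐ[K] M) (B : Ideal (𝓞 M)) (ρ : M ≃ₐ[K] M) :
    Pd (ρ • T) φ B = Pd T φ (ρ⁻¹ • B) := by
  rw [Pd, Pd]
  refine Finset.prod_equiv (Equiv.mulRight ρ) (fun τ => ?_) fun τ _ => ?_
  · simp [mul_smul, Set.mem_smul_set_iff_inv_smul_mem]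
  · simp [mul_smul]

omit [NumberField L] in
theorem Pd_fin (T : Finset (L →ₐ[K] M)) (φ : L →ₐ[K] M) (B : Ideal (𝓞 M)) :
    Pd T φ B = ∏ ψ ∈ T, Pd {ψ} φ B := by
  rw [Pd, ← Finset.prod_fiberwise_of_maps_to (t := T) (g := fun τ => τ⁻¹ • φ) (by simp)]
  refine Finset.prod_congr rfl fun ψ hψ => Finset.prod_congr ?_ fun _ _ => rfl
  ext τ
  simp only [Finset.mem_filter, Finset.mem_univ, true_and, Finset.mem_coe, Set.mem_singleton_iff]
  exact ⟨fun h => h.2, fun h => ⟨h ▸ hψ, h⟩⟩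

omit [NumberField K] [NumberField L] [NumberField M] in
theorem mp_smul (φ : L →ₐ[K] M) (c : Ideal (𝓞 L)) (ρ : M ≃ₐ[K] M) :
    mp (ρ • φ) c = ρ • mp φ c := by
  rw [Ideal.pointwise_smul_def, mp, mp, Ideal.map_map]
  rfl

variable [Algebra L M] [IsScalarTower K L M] [IsGalois K M]

variable (K L M) in
/-- The base embedding. -/
abbrev φ0 : L →ₐ[K] M := IsScalarTower.toAlgHom K L M

theorem nrm (B : Ideal (𝓞 M)) :
    (Ideal.relNorm (𝓞 L) B).map (algebraMap (𝓞 L) (𝓞 M)) = Pd {φ0 K L M} (φ0 K L M) B := by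
  have := IsGalois.tower_top_of_isGalois K L M
  rw [nrm0, Pd]
  refine Finset.prod_bij (fun h _ => h.restrictScalars K) (fun h _ => ?_)
    (fun h _ h' _ e => AlgEquiv.restrictScalars_injective K e) (fun τ hτ => ?_) fun h _ => rfl
  · simp only [Finset.mem_filter, Finset.mem_univ, true_and, Set.mem_singleton_iff]
    rw [inv_smul_eq_iff]
    exact AlgHom.ext fun x => (h.commutes x).symm
  · simp only [Finset.mem_filter, Finset.mem_univ, true_and, Set.mem_singleton_iff] at hτ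
    rw [inv_smul_eq_iff] at hτ
    exact ⟨{ τ with commutes' := fun x => (AlgHom.congr_fun hτ x).symm }, Finset.mem_univ _, rfl⟩

omit [NumberField L] in
theorem trans (φ : L →ₐ[K] M) : ∃ σ : M ≃ₐ[K] M, σ • φ0 K L M = φ :=
  ⟨AlgEquiv.ofBijective (φ.liftNormal M) (AlgHom.bijective _),
    AlgHom.ext fun x => φ.liftNormal_commutes M x⟩

/-- The norm attached to an embedding. -/
def cN (φ : L →ₐ[K] M) (B : Ideal (𝓞 M)) : Ideal (𝓞 L) :=
  Ideal.relNorm (𝓞 L) ((trans φ).choose⁻¹ • B)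

theorem cN_ext (φ : L →ₐ[K] M) (B : Ideal (𝓞 M)) :
    (cN φ B).map (algebraMap (𝓞 L) (𝓞 M)) = Pd {φ} (φ0 K L M) B := by
  rw [cN, nrm (K := K), ← Pd_right, Set.smul_set_singleton, (trans φ).choose_spec]

theorem cN_eq (σ : M ≃ₐ[K] M) (φ : L →ₐ[K] M) (B : Ideal (𝓞 M)) :
    cN (σ • φ) B = cN φ (σ⁻¹ • B) :=
  ext_inj (M := M) (by rw [cN_ext, cN_ext, ← Pd_right, Set.smul_set_singleton])

theorem cN_zero (B : Ideal (𝓞 M)) : cN (φ0 K L M) B = Ideal.relNorm (𝓞 L) B :=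
  ext_inj (M := M) (by rw [cN_ext, nrm (K := K)])

theorem prod_ext (T : Finset (L →ₐ[K] M)) (B : Ideal (𝓞 M)) :
    (∏ ψ ∈ T, cN ψ B).map (algebraMap (𝓞 L) (𝓞 M)) = Pd T (φ0 K L M) B := by
  rw [Pd_fin, ← Ideal.mapHom_apply, map_prod]
  exact Finset.prod_congr rfl fun ψ _ => cN_ext ψ B

theorem tn_iff (T : Finset (L →ₐ[K] M)) (c : Ideal (𝓞 L)) (B : Ideal (𝓞 M)) :
    TN (T : Set (L →ₐ[K] M)) c B ↔ c = ∏ ψ ∈ T, cN ψ B := by
  refine ⟨fun h => ext_inj (M := M) ((h (φ0 K L M)).trans (prod_ext T B).symm), fun h φ => ?_⟩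
  obtain ⟨σ, rfl⟩ := trans φ
  rw [mp_smul, Pd_smul, h, ← prod_ext]
  rfl

theorem prod_univ (B : Ideal (𝓞 M)) : ∏ ψ : L →ₐ[K] M, cN ψ B =
    (Ideal.relNorm (𝓞 K) B).map (algebraMap (𝓞 K) (𝓞 L)) := ext_inj (M := M) (by
  rw [prod_ext, Ideal.map_map, ← IsScalarTower.algebraMap_eq, nrm0, Pd]
  simp)

omit [NumberField K] [NumberField L] [NumberField M] [Algebra L M] [IsScalarTower K L M]
  [IsGalois K M] [Algebra K L] in
theorem smul_mem (σ : M ≃ₐ[K] M) (B : (Ideal (𝓞 M))⁰) : σ • B.1 ∈ (Ideal (𝓞 M))⁰ :=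
  mem_nonZeroDivisors_of_ne_zero fun h => nonZeroDivisors.ne_zero B.2 (by
    have := congrArg (σ⁻¹ • ·) h
    simpa [Ideal.smul_bot] using this)

/-- The class of this norm. -/
def cl (φ : L →ₐ[K] M) : (Ideal (𝓞 M))⁰ →* ClassGroup (𝓞 L) where
  toFun B := ClassGroup.mk0 ⟨cN φ B, Iso.norm_mem L M ⟨_, smul_mem _ B⟩⟩
  map_one' := by
    rw [← map_one ClassGroup.mk0]
    exact congrArg _ (Subtype.ext (by
      change Ideal.relNorm _ (_ • (1 : Ideal (𝓞 M))) = 1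
      rw [smul_one, map_one]))
  map_mul' B B' := by
    rw [← map_mul]
    exact congrArg _ (Subtype.ext (by simp [cN, smul_mul']))

theorem cl_smul (σ : M ≃ₐ[K] M) (φ : L →ₐ[K] M) (B : (Ideal (𝓞 M))⁰) :
    cl (σ • φ) B = cl φ ⟨_, smul_mem σ⁻¹ B⟩ :=
  congrArg ClassGroup.mk0 (Subtype.ext (cN_eq σ φ B))

theorem mk0_prod (T : Finset (L →ₐ[K] M)) (B : (Ideal (𝓞 M))⁰) (c : (Ideal (𝓞 L))⁰)
    (h : c.1 = ∏ ψ ∈ T, cN ψ B) : ClassGroup.mk0 c = ∏ ψ ∈ T, cl ψ B := by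
  simp only [cl, MonoidHom.coe_mk, OneHom.coe_mk]
  rw [← map_prod]
  exact congrArg _ (Subtype.ext (by rw [h, Submonoid.coe_finsetProd]))

/-- The classes of the type norms. -/
def HH (T : Finset (L →ₐ[K] M)) : Subgroup (ClassGroup (𝓞 L)) where
  carrier := {x | ∃ B, ∏ ψ ∈ T, cl ψ B = x}
  one_mem' := ⟨1, by simp⟩
  mul_mem' := by
    rintro _ _ ⟨B, rfl⟩ ⟨B', rfl⟩
    exact ⟨B * B', by simp [Finset.prod_mul_distrib]⟩
  inv_mem' := by
    rintro _ ⟨B, rfl⟩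
    refine ⟨B ^ (orderOf (∏ ψ ∈ T, cl ψ B) - 1), ?_⟩
    simp only [map_pow, Finset.prod_pow]
    rw [eq_inv_iff_mul_eq_one, ← pow_succ, Nat.sub_add_cancel (orderOf_pos _),
      pow_orderOf_eq_one]

theorem mem_HH (T : Finset (L →ₐ[K] M)) (x : ClassGroup (𝓞 L)) : x ∈ HH T ↔
    ∃ (c : (Ideal (𝓞 L))⁰) (B : Ideal (𝓞 M)), B ≠ ⊥ ∧ TN (T : Set (L →ₐ[K] M)) c.1 B ∧
      ClassGroup.mk0 c = x := by
  constructor
  · rintro ⟨B, rfl⟩
    exact ⟨⟨∏ ψ ∈ T, cN ψ B, prod_mem fun ψ _ => Iso.norm_mem L M ⟨_, smul_mem _ B⟩⟩, B,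
      nonZeroDivisors.ne_zero B.2, (tn_iff T _ _).2 rfl, mk0_prod T B _ rfl⟩
  · rintro ⟨c, B, h0, h, rfl⟩
    exact ⟨⟨B, mem_nonZeroDivisors_of_ne_zero h0⟩,
      (mk0_prod T ⟨B, mem_nonZeroDivisors_of_ne_zero h0⟩ c ((tn_iff T c.1 B).1 h)).symm⟩

variable (hg : ∀ π : Equiv.Perm (L →ₐ[K] M), ∃ τ : M ≃ₐ[K] M, ∀ φ, π φ = τ • φ)
  {T : Finset (L →ₐ[K] M)}

include hg in
theorem mem_card {T' : Finset (L →ₐ[K] M)} (h : T.card = T'.card) (B : (Ideal (𝓞 M))⁰) :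
    ∏ ψ ∈ T', cl ψ B ∈ HH T := by
  obtain ⟨π, hπ⟩ := Equiv.Perm.exists_map_finset_eq T T' h
  obtain ⟨τ, hτ⟩ := hg π
  refine ⟨⟨_, smul_mem τ⁻¹ B⟩, ?_⟩
  rw [← hπ, Finset.prod_map]
  exact Finset.prod_congr rfl fun ψ _ => by rw [← cl_smul, ← hτ]; rfl

include hg in
theorem quo_mem (h0 : 0 < T.card) (h1 : T.card < Fintype.card (L →ₐ[K] M)) (φ ψ : L →ₐ[K] M)
    (B : (Ideal (𝓞 M))⁰) : cl φ B * (cl ψ B)⁻¹ ∈ HH T := by
  by_cases e : φ = ψ
  · rw [e, mul_inv_cancel]; exact one_mem _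
  obtain ⟨U, hU, hc⟩ := Finset.exists_subset_card_eq (n := T.card - 1)
    (s := (Finset.univ.erase φ).erase ψ) (by
      rw [Finset.card_erase_of_mem (by simpa using Ne.symm e),
        Finset.card_erase_of_mem (Finset.mem_univ _), Finset.card_univ]
      omega)
  have hφ : φ ∉ U := fun h => by simpa using hU h
  have hψ : ψ ∉ U := fun h => by simpa using hU h
  have a1 := mem_card hg (T := T) (T' := insert φ U)
    (by rw [Finset.card_insert_of_notMem hφ]; omega) B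
  have a2 := mem_card hg (T := T) (T' := insert ψ U)
    (by rw [Finset.card_insert_of_notMem hψ]; omega) B
  rw [Finset.prod_insert hφ] at a1
  rw [Finset.prod_insert hψ] at a2
  simpa using mul_mem a1 (inv_mem a2)

theorem pow_mem_of {Γ ι : Type} [CommGroup Γ] (A : Subgroup Γ) (f : ι → Γ) (U : Finset ι) (i : ι)
    (h : ∀ l, f i * (f l)⁻¹ ∈ A) (hU : ∏ l ∈ U, f l ∈ A) : f i ^ U.card ∈ A := by
  have := mul_mem (prod_mem fun l (_ : l ∈ U) => h l) hU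
  rwa [← Finset.prod_mul_distrib, Finset.prod_congr rfl fun l _ => inv_mul_cancel_right _ _,
    Finset.prod_const] at this

include hg in
theorem index_le (h0 : 0 < T.card) (h1 : T.card < Fintype.card (L →ₐ[K] M))
    (hc : T.card.Coprime (Fintype.card (L →ₐ[K] M))) :
    (HH T).index ≤ classNumber K * Module.finrank L M := by
  set R := ((QuotientGroup.mk' (HH T)).comp (ClassGroup.extendedHom (𝓞 K) (𝓞 L))).range
  set A := R.comap (QuotientGroup.mk' (HH T))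
  have hA : HH T ≤ A := fun x hx => ⟨1, by
    rw [map_one, eq_comm]; exact (QuotientGroup.eq_one_iff x).2 hx⟩
  have a1 : A.index ≤ Module.finrank L M := idx0 L M A fun B => by
    have e : ClassGroup.mk0 ⟨_, Iso.norm_mem L M B⟩ = cl (φ0 K L M) B :=
      congrArg ClassGroup.mk0 (Subtype.ext (cN_zero B.1).symm)
    have b0 := fun l => hA (quo_mem hg h0 h1 (φ0 K L M) l B)
    have b1 := pow_mem_of A (cl · B) T _ b0 (hA ⟨B, rfl⟩)
    have b2 := pow_mem_of A (cl · B) Finset.univ _ b0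
      ⟨ClassGroup.mk0 ⟨_, Iso.norm_mem K M B⟩, by
        rw [MonoidHom.comp_apply, ClassGroup.extendedHom_mk0,
          mk0_prod Finset.univ B _ (prod_univ B.1).symm]⟩
    rw [Finset.card_univ] at b2
    have b3 := mul_mem (zpow_mem b1 (Nat.gcdA T.card (Fintype.card (L →ₐ[K] M))))
      (zpow_mem b2 (Nat.gcdB T.card (Fintype.card (L →ₐ[K] M))))
    rwa [← zpow_natCast, ← zpow_natCast, ← zpow_mul, ← zpow_mul, ← zpow_add,
      ← Nat.gcd_eq_gcd_ab, hc, Nat.cast_one, zpow_one, ← e] at b3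
  rw [Subgroup.index_comap_of_surjective _ (QuotientGroup.mk'_surjective _)] at a1
  rw [Subgroup.index, ← R.card_mul_index]
  refine Nat.mul_le_mul ?_ a1
  rw [classNumber, ← Nat.card_eq_fintype_card]
  exact Nat.card_le_card_of_surjective _ (MonoidHom.rangeRestrict_surjective _)

theorem cN_Pp {p : ℕ} [Fact p.Prime] (χ : M →+* ℚ_[p]) (φ : L →ₐ[K] M) :
    cN φ (Pp χ) = Pp (χ.comp φ) := by
  obtain ⟨σ, rfl⟩ := trans φ
  have e : σ⁻¹ • Pp χ = Pp (χ.comp σ) := by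
    ext x
    rw [Ideal.mem_inv_pointwise_smul_iff]
    rfl
  obtain ⟨-, -, h1, h2, -⟩ := (pad M p).1 (χ.comp σ)
  rw [cN_eq, cN_zero, e, Iso.norm_eq L (fun h => by
    rw [h, Ideal.absNorm_bot] at h1
    exact (Fact.out : p.Prime).ne_zero h1.symm) h2]
  rfl

end Typ

end Pool.Agent.Lib.MP_9177b7_ag.B.U
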